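import Mathlib

/-!
# Odd hyperelliptic curves, their Jacobians and 2-primary descent: the definitions

`f` is a monic polynomial of odd degree without multiple roots over a field `K`, and `C` is the smooth
projective curve `y ^ 2 = f(x)`, with one point at infinity, which is rational. For an extension
`L` of `K` the group `J(L)` of the `L`-rational points of the Jacobian is the Picard group of the
affine curve, that is of the ring `L[x, y] / (y ^ 2 - f(x))`.
-/

open Polynomial IsDedekindDomain NumberField

namespace Pool.Agent.Helper29J.Defs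

/-- `x` is the class in the Picard group of the ideal `I`, as an invertible module. -/
def IsIdealClass {R : Type} [CommRing R] (I : Ideal R) (x : CommRing.Pic R) : Prop :=
  Nonempty (I ≃ₗ[R] x.AsModule)

section curve

variable {K : Type} [Field K] (f : K[X])

/-- The affine coordinate ring `L[x, y] / (y ^ 2 - f(x))` over an extension `L` of `K`. -/
def CoordRing (L : Type) [Field L] [Algebra K L] : Type :=
  AdjoinRoot (X ^ 2 - C (f.map (algebraMap K L)) : L[X][X])

noncomputable instance (L : Type) [Field L] [Algebra K L] : CommRing (CoordRing f L) :=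
  AdjoinRoot.instCommRing _

/-- The homomorphism which maps a polynomial in `x` to this function on the affine curve. -/
noncomputable def ofX (L : Type) [Field L] [Algebra K L] : L[X] →+* CoordRing f L :=
  AdjoinRoot.of (X ^ 2 - C (f.map (algebraMap K L)) : L[X][X])

/-- The function `y` on the affine curve. -/
noncomputable def y (L : Type) [Field L] [Algebra K L] : CoordRing f L :=
  AdjoinRoot.root (X ^ 2 - C (f.map (algebraMap K L)) : L[X][X])

/-- The homomorphism of coordinate rings given by a homomorphism of extensions of `K`. -/
noncomputable def coordMap {L L' : Type} [Field L] [Algebra K L] [Field L'] [Algebra K L']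
    (φ : L →ₐ[K] L') : CoordRing f L →+* CoordRing f L' :=
  AdjoinRoot.map (mapRingHom φ.toRingHom) _ _ (by
    rw [Polynomial.map_sub, Polynomial.map_pow, map_X, map_C, coe_mapRingHom, Polynomial.map_map]
    rw [show φ.toRingHom.comp (algebraMap K L) = algebraMap K L' from φ.comp_algebraMap])

/-- The group `J(L)`, written multiplicatively. -/
def J (L : Type) [Field L] [Algebra K L] : Type := CommRing.Pic (CoordRing f L)

noncomputable instance (L : Type) [Field L] [Algebra K L] : CommGroup (J f L) :=
  instCommGroupPic (CoordRing f L)

/-- The homomorphism `J(L) → J(L')` given by a homomorphism of extensions of `K`. -/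
noncomputable def mapJ {L L' : Type} [Field L] [Algebra K L] [Field L'] [Algebra K L']
    (φ : L →ₐ[K] L') : J f L →* J f L' :=
  CommRing.Pic.mapRingHom (coordMap f φ)

/-- The `L`-rational points of the affine curve `y ^ 2 = f(x)`. -/
def Affine (L : Type) [Field L] [Algebra K L] : Type :=
  {P : L × L // P.2 ^ 2 = aeval P.1 f}

/-- The `L`-rational points of the projective curve `C`: those of the affine curve and the point at
infinity, which is `none`. -/
def Curve (L : Type) [Field L] [Algebra K L] : Type := Option (Affine f L)

/-- The point at infinity. -/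
def infinity (L : Type) [Field L] [Algebra K L] : Curve f L := none

theorem lift_aux {L : Type} [Field L] [Algebra K L] (L' : Type) [Field L'] [Algebra K L']
    [Algebra L L'] [IsScalarTower K L L'] (P : Affine f L) :
    (algebraMap L L' P.1.2) ^ 2 = aeval (algebraMap L L' P.1.1) f := by
  rw [← map_pow, P.2, aeval_algebraMap_apply]

/-- The map of affine points for an extension `L'` of `L`. -/
def liftAffine {L : Type} [Field L] [Algebra K L] (L' : Type) [Field L'] [Algebra K L']
    [Algebra L L'] [IsScalarTower K L L'] (P : Affine f L) : Affine f L' :=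
  ⟨(algebraMap L L' P.1.1, algebraMap L L' P.1.2), lift_aux f L' P⟩

/-- The map `C(L) → C(L')` for an extension `L'` of `L`. -/
def liftPoint {L : Type} [Field L] [Algebra K L] (L' : Type) [Field L'] [Algebra K L']
    [Algebra L L'] [IsScalarTower K L L'] (P : Curve f L) : Curve f L' :=
  Option.map (liftAffine f L') P

/-- The ideal of the functions which vanish at a point of the affine curve. -/
noncomputable def affineIdeal {L : Type} [Field L] [Algebra K L] (P : Affine f L) :
    Ideal (CoordRing f L) :=
  Ideal.span {ofX f L (X - C P.1.1), y f L - ofX f L (C P.1.2)}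

/-- The ideal of the functions on the affine curve which vanish at a point of `C` (for the point
at infinity the unit ideal). -/
noncomputable def pointIdeal {L : Type} [Field L] [Algebra K L] (P : Curve f L) :
    Ideal (CoordRing f L) :=
  Option.elim P ⊤ (affineIdeal f)

/-- `x ∈ J(L)` is the class of the divisor `P - ∞`: its inverse is the class of the ideal of `P`. -/
def IsClass {L : Type} [Field L] [Algebra K L] (P : Curve f L) (x : J f L) : Prop :=
  IsIdealClass (pointIdeal f P) (x⁻¹ : J f L)

/-- Continuous 1-cocycles of the group of automorphisms of `Ω` over `K` with values in the discrete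
group `J(Ω)`. -/
def IsCocycle {Ω : Type} [Field Ω] [Algebra K Ω] (ξ : (Ω ≃ₐ[K] Ω) → J f Ω) : Prop :=
  IsLocallyConstant ξ ∧ ∀ σ τ : Ω ≃ₐ[K] Ω, ξ (σ * τ) = ξ σ * mapJ f σ.toAlgHom (ξ τ)

/-- The values of `ξ` have order dividing `N`. -/
def KilledBy {Ω : Type} [Field Ω] [Algebra K Ω] (N : ℕ) (ξ : (Ω ≃ₐ[K] Ω) → J f Ω) : Prop :=
  ∀ σ : Ω ≃ₐ[K] Ω, ξ σ ^ N = 1

/-- Let `ξ` be a cocycle with values in the group of the points of order dividing `N` of `J(Ω)`, where
`Ω` is a separable closure of `K`; it defines an `N`-covering of `J`, and, by pull-back under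
`P ↦ P - ∞`, of `C`. Let `Ω'` be a separable closure of the extension `E` of `K`. The point `P` of `C`
over `E` lifts to an `E`-rational point of this covering: for some embedding `ι : Ω → Ω'` over `K`
there is a point `Q ∈ J(Ω')` with `Q ^ N` the class of `P - ∞` and `τ Q / Q = ι (ξ σ)` for all `τ` in
the Galois group of `E` and `σ` the restriction of `τ`. -/
def LiftsIn {Ω : Type} [Field Ω] [Algebra K Ω] (E Ω' : Type) [Field E] [Field Ω'] [Algebra E Ω']
    [Algebra K E] [Algebra K Ω'] [IsScalarTower K E Ω'] (N : ℕ) (ξ : (Ω ≃ₐ[K] Ω) → J f Ω)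
    (P : Curve f E) : Prop :=
  ∃ (ι : Ω →ₐ[K] Ω') (Q : J f Ω'), IsClass f (liftPoint f Ω' P) (Q ^ N) ∧
    ∀ (τ : Ω' ≃ₐ[E] Ω') (σ : Ω ≃ₐ[K] Ω), (∀ x : Ω, τ (ι x) = ι (σ x)) →
      mapJ f ι (ξ σ) = mapJ f (τ.toAlgHom.restrictScalars K) Q / Q

/-- The absolute Galois group of `K`. -/
abbrev Gal (K : Type) [Field K] : Type := SeparableClosure K ≃ₐ[K] SeparableClosure K

/-- Functions on the absolute Galois group of `K` with values in `J(K^sep)`. -/
abbrev Cochain : Type := Gal K → J f (SeparableClosure K)

variable {f}

/-- Continuous 1-cocycles on the absolute Galois group with values in the discrete group `J(K^sep)`. -/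
def Cocycle (ξ : Cochain f) : Prop := IsCocycle f ξ

/-- The point `P` of `C` over the extension `E` of `K` lifts to an `E`-rational point of the
`N`-covering of `C` given by `ξ`. -/
def Lifts (N : ℕ) (ξ : Cochain f) (E : Type) [Field E] [Algebra K E] (P : Curve f E) : Prop :=
  LiftsIn f E (SeparableClosure E) N ξ P

/-- The `N`-covering of `C` given by `ξ` has an `E`-rational point. -/
def HasPoint (N : ℕ) (ξ : Cochain f) (E : Type) [Field E] [Algebra K E] : Prop :=
  ∃ P : Curve f E, Lifts N ξ E P

end curve

section global

variable {F : Type} [Field F] [NumberField F] {f : F[X]}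

/-- The `N`-covering of `C` given by `ξ` has points over the completions of `F` at all primes. -/
def PointsAtPrimes (N : ℕ) (ξ : Cochain f) : Prop :=
  ∀ v : HeightOneSpectrum (𝓞 F), HasPoint N ξ (v.adicCompletion F)

/-- The `N`-covering of `C` given by `ξ` has points over the real numbers, for every real embedding
of `F`. -/
def PointsAtReals (N : ℕ) (ξ : Cochain f) : Prop :=
  ∀ ρ : F →+* ℝ, letI := ρ.toAlgebra; HasPoint N ξ ℝ

variable (f)

/-- The `N`-Selmer set of `C` over the number field `F`: the continuous cocycles `ξ` with values in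
the points of order dividing `N` such that the corresponding `N`-covering of `C` has points over all
completions of `F` (for the complex places this condition is empty). -/
def SelmerSet (N : ℕ) : Set (Cochain f) :=
  {ξ | Cocycle ξ ∧ KilledBy f N ξ ∧ PointsAtPrimes N ξ ∧ PointsAtReals N ξ}

/-- The point `P` of `C` over the extension `E` of `F` survives the 2-primary descent: for every `k`
it lifts to a `2 ^ k`-covering in the Selmer set. -/
def Survives (E : Type) [Field E] [Algebra F E] (P : Curve f E) : Prop :=
  ∀ k : ℕ, ∃ ξ ∈ SelmerSet f (2 ^ k), Lifts (2 ^ k) ξ E P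

/-- The point `P` of `C(ℝ)` is in the connected component of the point at infinity: it is this point,
or its first coordinate is not smaller than any real root of `f`. -/
def InComponentOfInfinity {K : Type} [Field K] [Algebra K ℝ] (f : K[X]) (P : Curve f ℝ) : Prop :=
  ∀ Q : Affine f ℝ, P = some Q → ∀ e : ℝ, aeval e f = 0 → e ≤ Q.1.1

/-- The 2-primary descent determines the components above `2` and `∞`: the point at infinity is the
only rational point of `C`; for every prime `v` above `2` it is the only point of `C(F_v)` which
survives; and for every real place the points of `C(ℝ)` which survive are in its component. -/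
def OnlyInfinitySurvives : Prop :=
  (∀ P : Curve f F, P = infinity f F) ∧
  (∀ v : HeightOneSpectrum (𝓞 F), (2 : 𝓞 F) ∈ v.asIdeal → ∀ P : Curve f (v.adicCompletion F),
    Survives f (v.adicCompletion F) P ↔ P = infinity f (v.adicCompletion F)) ∧
  ∀ ρ : F →+* ℝ, letI := ρ.toAlgebra; ∀ P : Curve f ℝ,
    Survives f ℝ P → InComponentOfInfinity f P

end global

section box

variable {F : Type} [Field F] [NumberField F]

/-- The polynomial over `F`. -/
noncomputable def overF (f : (𝓞 F)[X]) : F[X] := f.map (algebraMap (𝓞 F) F)

/-- `f` is a monic polynomial of degree `2 g + 1` with integral coefficients, without term of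
degree `2 g`, of height at most `B`: all the conjugates of the coefficient of `x ^ (2 g + 1 - i)` are
at most `B ^ i` in absolute value. -/
structure InBox (g B : ℕ) (f : (𝓞 F)[X]) : Prop where
  monic : f.Monic
  degree : f.natDegree = 2 * g + 1
  trace : f.coeff (2 * g) = 0
  height : ∀ j ≤ 2 * g, ∀ σ : F →+* ℂ, ‖σ (f.coeff j : F)‖ ≤ (B : ℝ) ^ (2 * g + 1 - j)

/-- The equation is minimal: there is no prime `𝔭` such that `𝔭 ^ (2 i)` divides the coefficient of
`x ^ (2 g + 1 - i)` for all `i > 0`. -/
def IsMinimal (g : ℕ) (f : (𝓞 F)[X]) : Prop :=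
  ∀ 𝔭 : Ideal (𝓞 F), 𝔭.IsPrime → 𝔭 ≠ ⊥ → ¬ ∀ j ≤ 2 * g, f.coeff j ∈ 𝔭 ^ (2 * (2 * g + 1 - j))

end box

end Pool.Agent.Helper29J.Defs
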