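import Pool.Agent.Helper29J.Fam2

/-!
A positive proportion of polynomials with trivial 2-Selmer group in a given class modulo `8`
(the proof of the count is the one of `Pool.Agent.N99.PF.main`, helper99).
-/

set_option autoImplicit false
set_option linter.all false

open Polynomial NumberField IsDedekindDomain
open scoped Classical

namespace Pool.Agent.Helper29J

open Pool.Agent.N783.PF Pool.Agent.N99.PF
open Pool.Agent.N352.PJ (dd)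

/-- twisting by a product of primes `1` modulo `8` does not change the class modulo `8` -/
theorem cg_scale {g W : ℕ} {F : Type} [Field F] [NumberField F] {S : Finset ℕ}
    {𝔮 : ℕ → Ideal (𝓞 F)} {h P : ℕ → (𝓞 F)[X]} (hS : GoodS g W S 𝔮 h P) {J : Finset ℕ}
    (hJ : J ⊆ S) {f f₁ : (𝓞 F)[X]} (hf : ∀ n, (8 : 𝓞 F) ∣ f.coeff n - f₁.coeff n) (n : ℕ) :
    (8 : 𝓞 F) ∣ (f.scaleRoots ((Dp J : ℕ) : 𝓞 F)).coeff n - f₁.coeff n := by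
  have h1 : Dp J % 8 = 1 := by
    have : ∀ T : Finset ℕ, T ⊆ S → Dp T % 8 = 1 := by
      intro T
      induction T using Finset.induction_on with
      | empty => intro _; rfl
      | insert q T hq ih =>
        intro hT
        have e1 := ih fun x hx => hT (Finset.mem_insert_of_mem hx)
        have e2 := (hS q (hT (Finset.mem_insert_self q T))).2.2.2.1
        show (∏ q ∈ insert q T, q) % 8 = 1
        rw [Finset.prod_insert hq, Nat.mul_mod, e2]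
        have e3 : (∏ q ∈ T, q) % 8 = 1 := e1
        rw [e3]
    exact this J hJ
  obtain ⟨m, hm⟩ : ∃ m : ℕ, Dp J = 1 + 8 * m := ⟨Dp J / 8, by omega⟩
  have h2 : (8 : 𝓞 F) ∣ ((Dp J : ℕ) : 𝓞 F) - 1 := by
    rw [hm]
    push_cast
    exact ⟨m, by ring⟩
  have h3 : (8 : 𝓞 F) ∣ ((Dp J : ℕ) : 𝓞 F) ^ (f.natDegree - n) - 1 :=
    h2.trans (sub_one_dvd_pow_sub_one _ _)
  rw [coeff_scaleRoots]
  have e : f.coeff n * ((Dp J : ℕ) : 𝓞 F) ^ (f.natDegree - n) - f₁.coeff n =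
      f.coeff n * (((Dp J : ℕ) : 𝓞 F) ^ (f.natDegree - n) - 1) + (f.coeff n - f₁.coeff n) := by
    ring
  rw [e]
  exact dvd_add (Dvd.dvd.mul_left h3 _) (hf n)

theorem main (h0 : S_PTS) (h2 : S_BAD) (h3 : S_EXS) (h4 : S_TW) (g : ℕ) (F : Type) [Field F]
    [NumberField F] (hg : 1 ≤ g) : ∃ f₁ : (𝓞 F)[X],
    (∀ v : HeightOneSpectrum (𝓞 F), (2 : 𝓞 F) ∈ v.asIdeal → NoSq v.asIdeal f₁ ∧
      Irreducible (rd v.asIdeal f₁)) ∧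
    ∃ c : ℝ, 0 < c ∧ ∃ B₀ : ℕ, ∀ B ≥ B₀,
    {f : (𝓞 F)[X] | Ht g B f}.Finite ∧ c * ({f : (𝓞 F)[X] | Ht g B f}.ncard : ℝ) ≤
    ({f : (𝓞 F)[X] | Ht g B f ∧ Irreducible (fF f) ∧ SelZero f ∧ Min g f ∧
      ∀ n, (8 : 𝓞 F) ∣ f.coeff n - f₁.coeff n}.ncard : ℝ) := by
  obtain ⟨κ, htw⟩ := h4 g F hg
  obtain ⟨C, K, hbad⟩ := h2 F g κ hg
  obtain ⟨M, hM⟩ := famX Pool.Agent.N352.PF.bxT
    (Pool.Agent.N352.PF.SML99.sml Pool.Agent.N75.PF.cu Pool.Agent.N352.PF.bxT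
      Pool.Agent.N189.PF.ld Pool.Agent.N195.PF.pr Pool.Agent.N195.PF.pf)
    Pool.Agent.N935.PF.WK.wk
    (Pool.Agent.N352.PF.STR331.str Pool.Agent.N75.PF.cu Pool.Agent.N364.PF.cl
      Pool.Agent.N195.PF.pf)
    Pool.Agent.N195.PF.dscp Pool.Agent.N195.PF.pf F g hg
  obtain ⟨p₀, hp₀K, hp₀⟩ := Nat.exists_infinite_primes (max K κ)
  obtain ⟨W₀, f₀, hmon, hdeg, htr, hW0, htwo, hirr, hsep, hW⟩ :=
    Pool.Agent.N823.PF.gf F g (max p₀ M) hg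
  have hgood0 : GoodF g W₀ f₀ := by
    refine ⟨hmon, hdeg, htr, hW0, htwo, ?_, ?_⟩
    · intro 𝔭 hp h2m
      have hb : 𝔭 ≠ ⊥ := nonbot 𝔭 2 two_pos (by exact_mod_cast h2m)
      exact hirr ⟨𝔭, hp, hb⟩ h2m
    · intro 𝔭 hp hWm
      exact hsep ⟨𝔭, hp, nonbot 𝔭 W₀ hW0 hWm⟩ hWm
  obtain ⟨f₁, hf₁', hno⟩ := exists_f₂ hg hgood0
  obtain ⟨W, hWd⟩ : ∃ W, W = 8 * W₀ := ⟨_, rfl⟩
  have hf₁ : GoodF g W f₁ := by
    rw [hWd]
    exact hf₁'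
  have h8W : 8 ∣ W := ⟨W₀, hWd⟩
  have hKW : max K κ ≤ W := hp₀K.trans ((Nat.le_of_dvd hW0 (hW p₀ hp₀ (le_max_left _ _))).trans
    (by omega))
  obtain ⟨c, hc, hfam⟩ := hM W f₁ hf₁ (fun p hp hpM => by
    rw [hWd]
    exact Dvd.dvd.mul_left (hW p hp (hpM.trans (le_max_right _ _))) 8)
  refine ⟨f₁, fun v hv => ⟨hno v hv, hf₁.irr v.asIdeal v.isPrime hv⟩, ?_⟩
  obtain ⟨-, Cp, hCp, -, hpt⟩ := h0 F
  set D : ℕ := Module.finrank ℚ F * dd g with hD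
  obtain ⟨m, hm⟩ : ∃ m : ℕ, 2 * (C * (4 * 2 ^ κ : ℝ) ^ D) / c < 2 ^ m :=
    pow_unbounded_of_one_lt _ (by norm_num)
  obtain ⟨S, 𝔮, h, P, hS, hcard⟩ := h3 F g W hg m
  obtain ⟨B₁₀, hB₁₀⟩ := hfam S 𝔮 h P hS
  obtain ⟨N₀, hN₀⟩ := hbad W S 𝔮 h P ((le_max_left _ _).trans hKW) hS
  set Q : ℕ := ∏ q ∈ S, q with hQ
  have hq1 : ∀ q ∈ S, 1 ≤ q := fun q hq => (hS q hq).1.pos
  have hQ1 : 1 ≤ Q := Finset.one_le_prod' hq1
  set Pn : ℕ := (∏ q ∈ S, q ^ (2 * g)) ^ Module.finrank ℚ F with hPn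
  have hP0 : (0 : ℝ) < Pn := by
    have : 0 < Pn := pow_pos (Finset.prod_pos fun q hq => pow_pos (hq1 q hq) _) _
    exact_mod_cast this
  have hQ0 : (0 : ℝ) < Q := by exact_mod_cast hQ1
  set X₀ : ℕ := max (max B₁₀ (4 ^ N₀)) 1 with hX₀
  refine ⟨c / 2 / (Pn * 2 ^ m * ((2 * Cp) ^ (2 * g) * (2 * Q) ^ D)), by positivity, X₀ * Q,
    fun B hB => ?_⟩
  set B₁ : ℕ := B / Q with hB₁
  have hBX : X₀ ≤ B₁ := (Nat.le_div_iff_mul_le hQ1).2 hB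
  have hb1 : 1 ≤ B₁ := (le_max_right _ _).trans hBX
  have hb2 : B₁₀ ≤ B₁ := ((le_max_left _ _).trans (le_max_left _ _)).trans hBX
  have hb3 : 4 ^ N₀ ≤ B₁ := ((le_max_right _ _).trans (le_max_left _ _)).trans hBX
  have hBQ : B₁ * Q ≤ B := Nat.div_mul_le_self B Q
  have hBQ2 : B ≤ 2 * Q * B₁ := by
    have e1 : B < B₁ * Q + Q := by
      have := Nat.lt_div_mul_add (a := B) (b := Q) hQ1
      exact this
    nlinarith
  have hB1 : 1 ≤ B := le_trans (by nlinarith) hBQ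
  obtain ⟨N, hNa, hNb⟩ : ∃ N : ℕ, 2 ^ κ * B₁ ≤ 4 ^ N ∧ 4 ^ N ≤ 4 * (2 ^ κ * B₁) := by
    refine ⟨Nat.log 4 (2 ^ κ * B₁) + 1, (Nat.lt_pow_succ_log_self (by norm_num) _).le, ?_⟩
    rw [pow_succ, mul_comm]
    refine Nat.mul_le_mul_left 4 (Nat.pow_log_le_self 4 ?_)
    positivity
  have hNN : N₀ ≤ N := by
    have e1 : 4 ^ N₀ ≤ 4 ^ N := hb3.trans (le_trans (Nat.le_mul_of_pos_left _ (by positivity)) hNa)
    exact (Nat.pow_le_pow_iff_right (by norm_num)).1 e1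
  obtain ⟨hfin, hBd⟩ := hN₀ N hNN
  refine ⟨(ht_card hCp hpt g B hB1).1, ?_⟩
  set H := {f : (𝓞 F)[X] | Ht g B f ∧ Irreducible (fF f) ∧ SelZero f ∧ Min g f ∧
      ∀ n, (8 : 𝓞 F) ∣ f.coeff n - f₁.coeff n} with hH
  set G := {f : (𝓞 F)[X] | Fam g B₁ W f₁ S P f} \ {f : (𝓞 F)[X] | LBad g N κ S 𝔮 P f} with hGdef
  have hHf : H.Finite := (ht_card hCp hpt g B hB1).1.subset fun f hf => hf.1
  have hGf : G.Finite := (ht_card hCp hpt g B₁ hb1).1.subset fun f hf => hf.1.ht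
  have hG : c / 2 * (B₁ : ℝ) ^ D ≤ Pn * (G.ncard : ℝ) := by
    refine good_card (C := C) (m := m) (κ := κ) hc hP0 B₁ N (hB₁₀ B₁ hb2) hfin ?_ hm ?_
    · rw [hcard] at hBd
      have e2 : Module.finrank ℚ F * (2 * N * dd g) = 2 * N * D := by rw [hD]; ring
      rw [e2] at hBd
      exact_mod_cast hBd
    · exact_mod_cast hNb
  have hJ0 : ∀ J ⊆ S, ((Dp J : ℕ) : 𝓞 F) ≠ 0 := by
    intro J hJ
    have : 0 < ∏ q ∈ J, q := Finset.prod_pos fun q hq => hq1 q (hJ hq)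
    have h5 : (Dp J : ℕ) ≠ 0 := this.ne'
    exact_mod_cast h5
  have hcard1 := card_fib hGf hHf S (fun J f => f.scaleRoots ((Dp J : ℕ) : 𝓞 F)) (by
      intro f hf
      obtain ⟨J, hJ, hirr, hsel, hmin⟩ := htw B₁ N W f₁ S 𝔮 h P f ((le_max_right _ _).trans hKW) hf₁ hS
        hf.1 hNa hb1 hf.2
      have hDle : Dp J ≤ Q :=
        Finset.prod_le_prod_of_subset_of_one_le' hJ fun q hq _ => hq1 q hq
      refine ⟨J, hJ, ht_scale hf.1.ht ((Nat.mul_le_mul_left _ hDle).trans hBQ), hirr, hsel,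
        hmin, fun n => cg_scale hS hJ (fun k => ?_) n⟩
      have e1 := Ideal.mem_span_singleton.1 (hf.1.one k)
      have e2 : (8 : 𝓞 F) ∣ ((W : ℕ) : 𝓞 F) := by
        obtain ⟨m, hm⟩ := h8W
        rw [hm]
        push_cast
        exact dvd_mul_right _ _
      exact e2.trans e1) (by
      intro J hJ x hx y hy hxy
      exact scale_inj (hJ0 J hJ) (by rw [hx.1.ht.deg, hy.1.ht.deg]) hxy)
  rw [hcard] at hcard1
  have hcard' : (G.ncard : ℝ) ≤ 2 ^ m * H.ncard := by exact_mod_cast hcard1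
  have hM' : ({f : (𝓞 F)[X] | Ht g B f}.ncard : ℝ) ≤
      (2 * Cp) ^ (2 * g) * (2 * Q) ^ D * (B₁ : ℝ) ^ D := by
    have e1 : ({f : (𝓞 F)[X] | Ht g B f}.ncard : ℝ) ≤ (2 * Cp) ^ (2 * g) * (B : ℝ) ^ D :=
      (ht_card hCp hpt g B hB1).2
    refine e1.trans ?_
    rw [mul_assoc, ← mul_pow]
    have e2 : (B : ℝ) ≤ 2 * Q * B₁ := by exact_mod_cast hBQ2
    gcongr
  calc c / 2 / (Pn * 2 ^ m * ((2 * Cp) ^ (2 * g) * (2 * Q) ^ D)) *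
        ({f : (𝓞 F)[X] | Ht g B f}.ncard : ℝ)
      ≤ c / 2 / (Pn * 2 ^ m * ((2 * Cp) ^ (2 * g) * (2 * Q) ^ D)) *
        ((2 * Cp) ^ (2 * g) * (2 * Q) ^ D * (B₁ : ℝ) ^ D) :=
        mul_le_mul_of_nonneg_left hM' (by positivity)
    _ = c / 2 * (B₁ : ℝ) ^ D / (Pn * 2 ^ m) := by
        field_simp
    _ ≤ (Pn * (G.ncard : ℝ)) / (Pn * 2 ^ m) := by gcongr
    _ ≤ (Pn * (2 ^ m * H.ncard)) / (Pn * 2 ^ m) := by gcongr
    _ = H.ncard := by field_simp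


theorem many (g : ℕ) (F : Type) [Field F] [NumberField F] (hg : 1 ≤ g) : ∃ f₁ : (𝓞 F)[X],
    (∀ v : HeightOneSpectrum (𝓞 F), (2 : 𝓞 F) ∈ v.asIdeal → NoSq v.asIdeal f₁ ∧
      Irreducible (rd v.asIdeal f₁)) ∧
    ∃ c : ℝ, 0 < c ∧ ∃ B₀ : ℕ, ∀ B ≥ B₀,
    {f : (𝓞 F)[X] | Ht g B f}.Finite ∧ c * ({f : (𝓞 F)[X] | Ht g B f}.ncard : ℝ) ≤
    ({f : (𝓞 F)[X] | Ht g B f ∧ Irreducible (fF f) ∧ SelZero f ∧ Min g f ∧
      ∀ n, (8 : 𝓞 F) ∣ f.coeff n - f₁.coeff n}.ncard : ℝ) :=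
  main Pool.Agent.N490.PF.pts bad Pool.Agent.N710.PF.exs tw g F hg

end Pool.Agent.Helper29J
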