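import Pool.Agent.Helper29J.Core

/-!
# Points whose class is infinitely divisible survive the descent
-/

set_option autoImplicit false
set_option linter.all false

open Polynomial IsDedekindDomain NumberField

namespace Pool.Agent.Helper29J

open Pool.Agent.Y160.SE
open Pool.Agent.TH115.GD (incl rs ak exists_restrict)

section conv

variable {F : Type} [Field F] [NumberField F] {f : F[X]} (hg : Good 2 (-1 : F) f)

include hg

/-- the class of the point at infinity -/
theorem isClass_infinity {L : Type} [Field L] [Algebra F L] (n : ℕ) :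
    Defs.IsClass f (Defs.infinity f L) ((1 : Defs.J f L) ^ n) := by
  have h1 : IsCl L (⊤ : Ideal (CR 2 (f.map (algebraMap F L)))) (0 : Jac 2 f L) := cl_top hyps hg
  have h2 := equiv_of_isCl hg h1
  have e : ((1 : Defs.J f L) ^ n)⁻¹ = 1 := by rw [one_pow, inv_one]
  unfold Defs.IsClass
  rw [e]
  exact h2

/-- the trivial covering lifts the points which are divisible -/
theorem lifts_one {k : ℕ} {E : Type} [Field E] [Algebra F E] {P : Defs.Curve f E} {D : Defs.J f E}
    (h : Defs.IsClass f (Defs.liftPoint f (SeparableClosure E) P)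
      (Defs.mapJ f (IsScalarTower.toAlgHom F E (SeparableClosure E)) D ^ 2 ^ k)) :
    Defs.Lifts (f := f) (2 ^ k) (fun _ => 1) E P := by
  refine ⟨IsSepClosed.lift, Defs.mapJ f (IsScalarTower.toAlgHom F E (SeparableClosure E)) D, h,
    fun τ σ _ => ?_⟩
  rw [map_one]
  symm
  rw [div_eq_one]
  apply ad_inj
  rw [ad_mapJ, ad_mapJ, jm_jm]
  have e : (AlgHom.restrictScalars F τ.toAlgHom).comp
      (IsScalarTower.toAlgHom F E (SeparableClosure E)) =
      IsScalarTower.toAlgHom F E (SeparableClosure E) := AlgHom.ext fun z => τ.commutes z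
  rw [e]

theorem one_mem_selmer (k : ℕ) : (fun _ => 1) ∈ Defs.SelmerSet f (2 ^ k) := by
  have key : ∀ (E : Type) [Field E] [Algebra F E],
      ∃ P : Defs.Curve f E, Defs.Lifts (f := f) (2 ^ k) (fun _ => 1) E P := by
    intro E _ _
    refine ⟨Defs.infinity f E, lifts_one hg (D := 1) ?_⟩
    rw [map_one]
    exact isClass_infinity hg _
  refine ⟨⟨IsLocallyConstant.const 1, fun σ τ => by rw [map_one, one_mul]⟩, fun σ => one_pow _,
    fun v => key _, fun ρ => ?_⟩
  letI := ρ.toAlgebra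
  exact key ℝ

theorem survives_of {E : Type} [Field E] [Algebra F E] {P : Defs.Curve f E}
    (h : ∀ k : ℕ, ∃ D : Defs.J f E, Defs.IsClass f (Defs.liftPoint f (SeparableClosure E) P)
      (Defs.mapJ f (IsScalarTower.toAlgHom F E (SeparableClosure E)) D ^ 2 ^ k)) :
    Defs.Survives f E P := by
  intro k
  obtain ⟨D, hD⟩ := h k
  exact ⟨_, one_mem_selmer hg k, lifts_one hg hD⟩

theorem survives_iff (h1 : Pool.Agent.N874.Jac.UniquelyTwoDivisible f)
    (h2 : Pool.Agent.N874.Jac.ShaTwoTrivialReal f (𝓞 F)) {E : Type} [Field E] [Algebra F E]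
    {P : Defs.Curve f E} : Defs.Survives f E P ↔
    ∀ k : ℕ, ∃ D : Defs.J f E, Defs.IsClass f (Defs.liftPoint f (SeparableClosure E) P)
      (Defs.mapJ f (IsScalarTower.toAlgHom F E (SeparableClosure E)) D ^ 2 ^ k) := by
  refine ⟨fun h k => ?_, survives_of hg⟩
  obtain ⟨D, Q, hQ, hD⟩ := surv_div hg h1 h2 h k
  refine ⟨mu D, ?_⟩
  have e : Defs.mapJ f (IsScalarTower.toAlgHom F E (SeparableClosure E)) (mu D) ^ 2 ^ k = mu Q := by
    apply ad_inj
    rw [ad_pow, ad_mapJ, ad_mu, ad_mu, ← hD]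
    rfl
  rw [e]
  exact hQ

end conv

open Pool.Agent.N783.PF (SelZero Ht Min fF rd)

/-- the theorem for a single curve, final form -/
theorem core2 {F : Type} [Field F] [NumberField F] {g : ℕ} (hg1 : 1 ≤ g) {f f₁ : (𝓞 F)[X]}
    (hm : f.Monic) (hd : f.natDegree = 2 * g + 1)
    (hirr : Irreducible (fF f)) (hsel : SelZero f) (hf : ∀ n, (8 : 𝓞 F) ∣ f.coeff n - f₁.coeff n)
    (hf₁ : ∀ v : HeightOneSpectrum (𝓞 F), (2 : 𝓞 F) ∈ v.asIdeal → NoSq v.asIdeal f₁ ∧
      Irreducible (rd v.asIdeal f₁)) : Defs.OnlyInfinitySurvives (Defs.overF f) := by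
  have ho : Odd f.natDegree := by rw [hd]; exact ⟨g, rfl⟩
  have hoF : Odd (fF f).natDegree := by rw [hm.natDegree_map]; exact ho
  have hg : Good 2 (-1 : F) (fF f) := Pool.Agent.N424.JB.good_two two_ne_zero (hm.map _)
    hirr.separable hoF
  obtain ⟨-, h1, h2, h3⟩ := core hg1 hm hd hirr hsel hf hf₁
  refine ⟨h3, fun v hv P => ⟨h1 v hv P, ?_⟩, h2⟩
  rintro rfl
  refine survives_of hg fun k => ⟨1, ?_⟩
  rw [map_one]
  exact isClass_infinity hg _

end Pool.Agent.Helper29J
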