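import Pool.Agent.Helper29J.Glob
import Pool.Agent.Helper29J.Main2

/-!
# The curves without 2-Selmer group with a good reduction modulo the squares of the primes above 2
-/

set_option autoImplicit false
set_option linter.all false

open Polynomial IsDedekindDomain NumberField

namespace Pool.Agent.Helper29J

open Pool.Agent.Y160.SE
open Pool.Agent.TH115.GD (incl rs ak exists_restrict)
open Pool.Agent.N783.PF (SelZero Ht Min fF rd)

section glob

variable {F : Type} [Field F] [NumberField F] {f : F[X]} (hg : Good 2 (-1 : F) f)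

include hg in
/-- the class of a point which survives is infinitely divisible by two -/
theorem surv_div (h1 : Pool.Agent.N874.Jac.UniquelyTwoDivisible f)
    (h2 : Pool.Agent.N874.Jac.ShaTwoTrivialReal f (𝓞 F)) {E : Type} [Field E] [Algebra F E]
    {P : Defs.Curve f E} (h : Defs.Survives f E P) (k : ℕ) :
    ∃ (D : Jac 2 f E) (Q : Jac 2 f (SeparableClosure E)),
      Defs.IsClass f (Defs.liftPoint f (SeparableClosure E) P) (mu Q) ∧
      (2 ^ k : ℕ) • jm 2 f (incl F E (SeparableClosure E)) D = Q := by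
  obtain ⟨ξ, hξ, hl⟩ := h k
  obtain ⟨T, hT, hT2⟩ := selmer_trivial hg h1 h2 hξ
  exact lifts_div hg hT hT2 hl

theorem surv_some (h1 : Pool.Agent.N874.Jac.UniquelyTwoDivisible f)
    (h2 : Pool.Agent.N874.Jac.ShaTwoTrivialReal f (𝓞 F)) {E : Type} [Field E] [Algebra F E]
    {P : Defs.Affine f E} (h : Defs.Survives f E (some P)) (k : ℕ) :
    ∃ D : Jac 2 f E, (2 ^ k : ℕ) • jm 2 f (incl F E (SeparableClosure E)) D =
      dc hg {(algebraMap E (SeparableClosure E) P.1.1, algebraMap E (SeparableClosure E) P.1.2)} := by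
  obtain ⟨D, Q, hQ, hD⟩ := surv_div hg h1 h2 h k
  have h3 := (isClass_some hg (P := ⟨(algebraMap E (SeparableClosure E) P.1.1,
    algebraMap E (SeparableClosure E) P.1.2), by
      rw [← map_pow, P.2, aeval_algebraMap_apply]⟩)).1 hQ
  refine ⟨-D, ?_⟩
  rw [dc_one, map_neg, smul_neg, hD]
  exact (cl_eq hg h3).symm

/-- a global point is infinitely divisible by two -/
theorem glob_some (h1 : Pool.Agent.N874.Jac.UniquelyTwoDivisible f)
    {E : Type} [Field E] [Algebra F E] (P : Defs.Affine f F) (k : ℕ) :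
    ∃ D : Jac 2 f E, (2 ^ k : ℕ) • jm 2 f (incl F E (SeparableClosure E)) D =
      dc hg {(algebraMap E (SeparableClosure E) (algebraMap F E P.1.1),
        algebraMap E (SeparableClosure E) (algebraMap F E P.1.2))} := by
  have hpt : ptI 2 (f.map (algebraMap F F)) P.1.1 P.1.2 ≠ ⊥ := pt_ne_bot P.1
  obtain ⟨Q, hQ⟩ := cl_exists hyps hg hpt
  have hsurj : ∀ y : Jac 2 f F, ∃ z, 2 • z = y := by
    intro y
    obtain ⟨z, hz⟩ := h1.2 (mu y)
    exact ⟨Additive.ofMul (α := CommRing.Pic _) z, hz⟩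
  obtain ⟨s, hs⟩ := pow_surj hsurj k Q
  refine ⟨jm 2 f (incl F F E) s, ?_⟩
  have h3 := jm_pt (Ω := SeparableClosure E) hg hQ
  rw [IsScalarTower.algebraMap_apply F E (SeparableClosure E) P.1.1,
    IsScalarTower.algebraMap_apply F E (SeparableClosure E) P.1.2] at h3
  rw [← h3, ← hs, map_nsmul, jm_jm]
  rfl

end glob

section core

variable {F : Type} [Field F] [NumberField F]

theorem exists_above_two : ∃ v : HeightOneSpectrum (𝓞 F), (2 : 𝓞 F) ∈ v.asIdeal := by
  have h2 : ¬ IsUnit (2 : 𝓞 F) := by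
    intro h
    have h3 := h.map (Algebra.norm ℤ)
    have e : (2 : 𝓞 F) = algebraMap ℤ (𝓞 F) 2 := (map_ofNat _ 2).symm
    rw [e, Algebra.norm_algebraMap_of_basis (RingOfIntegers.basis F), isUnit_pow_iff] at h3
    · exact absurd (Int.isUnit_iff.1 h3) (by norm_num)
    · have : Nonempty (Module.Free.ChooseBasisIndex ℤ (𝓞 F)) :=
        (RingOfIntegers.basis F).index_nonempty
      exact Fintype.card_ne_zero
  obtain ⟨M, hM, hM2⟩ := exists_max_ideal_of_mem_nonunits h2
  exact ⟨⟨M, hM.isPrime, by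
    intro h0
    rw [h0, Ideal.mem_bot] at hM2
    exact two_ne_zero hM2⟩, hM2⟩

/-- the main theorem for a single curve -/
theorem core {g : ℕ} (hg1 : 1 ≤ g) {f f₁ : (𝓞 F)[X]} (hm : f.Monic) (hd : f.natDegree = 2 * g + 1)
    (hirr : Irreducible (fF f)) (hsel : SelZero f) (hf : ∀ n, (8 : 𝓞 F) ∣ f.coeff n - f₁.coeff n)
    (hf₁ : ∀ v : HeightOneSpectrum (𝓞 F), (2 : 𝓞 F) ∈ v.asIdeal → NoSq v.asIdeal f₁ ∧
      Irreducible (rd v.asIdeal f₁)) :
    (∀ k : ℕ, ∀ ξ ∈ Defs.SelmerSet (fF f) (2 ^ k), ∃ T : Defs.J (fF f) (SeparableClosure F),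
      T ^ 2 ^ k = 1 ∧ ∀ σ : Defs.Gal F, ξ σ = Defs.mapJ (fF f) σ.toAlgHom T / T) ∧
    (∀ v : HeightOneSpectrum (𝓞 F), (2 : 𝓞 F) ∈ v.asIdeal →
      ∀ P : Defs.Curve (fF f) (v.adicCompletion F), Defs.Survives (fF f) (v.adicCompletion F) P →
        P = Defs.infinity (fF f) (v.adicCompletion F)) ∧
    (∀ ρ : F →+* ℝ, letI := ρ.toAlgebra; ∀ P : Defs.Curve (fF f) ℝ,
      Defs.Survives (fF f) ℝ P → Defs.InComponentOfInfinity (fF f) P) ∧
    ∀ P : Defs.Curve (fF f) F, P = Defs.infinity (fF f) F := by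
  have ho : Odd f.natDegree := by rw [hd]; exact ⟨g, rfl⟩
  have hoF : Odd (fF f).natDegree := by rw [hm.natDegree_map]; exact ho
  have hg : Good 2 (-1 : F) (fF f) := Pool.Agent.N424.JB.good_two two_ne_zero (hm.map _)
    hirr.separable hoF
  obtain ⟨h1, h2⟩ := Pool.Agent.N783.PF.jac hm ho hirr hsel
  have hred : ∀ v : HeightOneSpectrum (𝓞 F), (2 : 𝓞 F) ∈ v.asIdeal →
      Irreducible (f.map (Ideal.Quotient.mk v.asIdeal)) ∧ NoSq v.asIdeal f := by
    intro v hv
    have h8 : ∀ n, f.coeff n - f₁.coeff n ∈ v.asIdeal ^ 2 := by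
      intro n
      obtain ⟨c, hc⟩ := hf n
      rw [hc]
      apply Ideal.mul_mem_right
      have e : (8 : 𝓞 F) = 2 ^ 2 * 2 := by norm_num
      rw [e]
      exact Ideal.mul_mem_right _ _ (Ideal.pow_mem_pow hv 2)
    refine ⟨?_, (hf₁ v hv).1.congr h8⟩
    have e : f.map (Ideal.Quotient.mk v.asIdeal) = f₁.map (Ideal.Quotient.mk v.asIdeal) := by
      ext n
      rw [coeff_map, coeff_map, Ideal.Quotient.eq]
      exact Ideal.pow_le_self two_ne_zero (h8 n)
    rw [e]
    exact (hf₁ v hv).2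
  refine ⟨fun k ξ hξ => selmer_trivial hg h1 h2 hξ, fun v hv P hP => ?_, fun ρ => ?_,
    fun P => ?_⟩
  · rcases P with _ | P
    · rfl
    · exfalso
      refine local_two v hv hg1 hm hd (hred v hv).1 (hred v hv).2 hg (a := P.1.1) (b := P.1.2) ?_
        fun k => surv_some hg h1 h2 hP k
      rw [P.2, eval_map_algebraMap]
  · letI := ρ.toAlgebra
    rintro P hP Q rfl e he
    have h3 := surv_some hg h1 h2 hP 1
    rw [pow_one] at h3
    refine local_real hg hoF (a := Q.1.1) (b := Q.1.2) ?_ h3 ?_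
    · rw [Q.2, eval_map_algebraMap]
    · rw [eval_map_algebraMap]
      exact he
  · rcases P with _ | P
    · rfl
    · exfalso
      obtain ⟨v, hv⟩ := exists_above_two (F := F)
      refine local_two v hv hg1 hm hd (hred v hv).1 (hred v hv).2 hg
        (a := algebraMap F _ P.1.1) (b := algebraMap F _ P.1.2) ?_ fun k => glob_some hg h1 P k
      rw [← map_pow, P.2, eval_map_algebraMap, aeval_algebraMap_apply]

end core

end Pool.Agent.Helper29J
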