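import Pool.Agent.Helper29J.Desc

/-!
# Weierstrass points which are divisible by two
-/

set_option autoImplicit false
set_option linter.all false

open Polynomial IsDedekindDomain

namespace Pool.Agent.Helper29J

open Pool.Agent.Y160.SE
open Pool.Agent.TH115.GD (incl rs ak)
open Pool.Agent.N424.JB (dvd_of_roots rt_up)

section ring

variable {E : Type} [Field E] {f : E[X]} {e₀ : E} {h : E[X]}

/-- the residual ideal of the line `y = x - e₀` -/
noncomputable def wI (f h : E[X]) (e₀ : E) : Ideal (CR 2 f) :=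
  Ideal.span {xp 2 f (h - (X - C e₀)), yy 2 f - xp 2 f (X - C e₀)}

theorem w_id (hf : f = (X - C e₀) * h) :
    (yy 2 f - xp 2 f (X - C e₀)) * (yy 2 f + xp 2 f (X - C e₀)) =
      xp 2 f (X - C e₀) * xp 2 f (h - (X - C e₀)) := by
  have h1 := yy_pow 2 f
  have h2 : xp 2 f f = xp 2 f (X - C e₀) * xp 2 f h := by
    rw [← xp_mul, ← hf]
  rw [h2] at h1
  rw [xp_sub h]
  linear_combination h1

theorem w_bez (h0 : h.eval e₀ ≠ 0) : ∃ u v : CR 2 f,
    u * xp 2 f (h - (X - C e₀)) + v * xp 2 f (X - C e₀) = 1 := by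
  have h1 : IsCoprime (h - (X - C e₀)) (X - C e₀) := by
    rw [isCoprime_comm, (irreducible_X_sub_C e₀).coprime_iff_not_dvd, dvd_iff_isRoot,
      IsRoot.def, eval_sub]
    simpa using h0
  obtain ⟨u, v, huv⟩ := h1
  refine ⟨xp 2 f u, xp 2 f v, ?_⟩
  rw [← xp_mul, ← xp_mul, ← xp_add, huv, xp_one]

theorem w_cop (h0 : h.eval e₀ ≠ 0) : wI f h e₀ ⊔ Ideal.span {yy 2 f} = ⊤ := by
  obtain ⟨u, v, huv⟩ := w_bez (f := f) h0
  rw [Ideal.eq_top_iff_one]
  have e : (1 : CR 2 f) = (u * xp 2 f (h - (X - C e₀)) - v * (yy 2 f - xp 2 f (X - C e₀))) +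
      v * yy 2 f := by
    linear_combination -huv
  rw [e]
  refine Submodule.add_mem_sup (Ideal.sub_mem _ ?_ ?_)
    (Ideal.mul_mem_left _ _ (Ideal.mem_span_singleton_self _))
  · exact Ideal.mul_mem_left _ _ (Ideal.subset_span (Or.inl rfl))
  · exact Ideal.mul_mem_left _ _ (Ideal.subset_span (Or.inr rfl))

theorem w_norm {ζ : E} (hg : Good 2 ζ f) (hζ : ζ = -1) (hf : f = (X - C e₀) * h)
    (h0 : h.eval e₀ ≠ 0) :
    ∏ i ∈ Finset.range 2, (wI f h e₀).map (hg.tw ^ i) =
      Ideal.span {xp 2 f (h - (X - C e₀))} := by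
  obtain ⟨u, v, huv⟩ := w_bez (f := f) h0
  have hid := w_id hf
  rw [Finset.prod_range_succ, Finset.prod_range_one, pow_zero, pow_one]
  have e1 : (wI f h e₀).map (1 : CR 2 f →+* CR 2 f) = wI f h e₀ := Ideal.map_id _
  have e2 : (wI f h e₀).map hg.tw =
      Ideal.span {xp 2 f (h - (X - C e₀)), -yy 2 f - xp 2 f (X - C e₀)} := by
    unfold wI
    rw [Ideal.map_span, Set.image_pair, map_sub]
    have e3 : hg.tw (yy 2 f) = - yy 2 f := by
      unfold Good.tw
      rw [tw_yy, hζ, C_neg, C_1, xp_neg, xp_one, neg_one_mul]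
    have e4 : ∀ p, hg.tw (xp 2 f p) = xp 2 f p := fun p => tw_xp _ p
    rw [e3, e4, e4]
  rw [e1, e2]
  unfold wI
  rw [Ideal.span_pair_mul_span_pair]
  set r := xp 2 f (h - (X - C e₀)) with hr
  set l := xp 2 f (X - C e₀) with hl
  set y := yy 2 f with hy
  apply le_antisymm
  · rw [Ideal.span_le]
    rintro z (rfl | rfl | rfl | rfl)
    · exact Ideal.mem_span_singleton.2 (dvd_mul_right _ _)
    · exact Ideal.mem_span_singleton.2 (dvd_mul_right _ _)
    · exact Ideal.mem_span_singleton.2 (dvd_mul_left _ _)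
    · exact Ideal.mem_span_singleton.2 ⟨-l, by linear_combination -hid⟩
  · rw [Ideal.span_singleton_le_iff_mem]
    have e : r = u * (r * r) - v * ((y - l) * (-y - l)) := by
      linear_combination (-r) * huv - v * hid
    have m1 : r * r ∈ Ideal.span {r * r, r * (-y - l), (y - l) * r, (y - l) * (-y - l)} :=
      Ideal.subset_span (Or.inl rfl)
    have m2 : (y - l) * (-y - l) ∈
        Ideal.span {r * r, r * (-y - l), (y - l) * r, (y - l) * (-y - l)} :=
      Ideal.subset_span (Or.inr (Or.inr (Or.inr rfl)))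
    have m3 := Ideal.sub_mem _ (Ideal.mul_mem_left _ u m1) (Ideal.mul_mem_left _ v m2)
    rw [← e] at m3
    exact m3

theorem w_mul (hf : f = (X - C e₀) * h) (h0 : h.eval e₀ ≠ 0) :
    ptI 2 f e₀ 0 * wI f h e₀ = Ideal.span {yy 2 f - xp 2 f (X - C e₀)} := by
  obtain ⟨u, v, huv⟩ := w_bez (f := f) h0
  have hid := w_id hf
  unfold ptI wI
  rw [C_0, xp_zero, sub_zero, Ideal.span_pair_mul_span_pair]
  set r := xp 2 f (h - (X - C e₀)) with hr
  set l := xp 2 f (X - C e₀) with hl
  set y := yy 2 f with hy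
  apply le_antisymm
  · rw [Ideal.span_le]
    rintro z (rfl | rfl | rfl | rfl)
    · exact Ideal.mem_span_singleton.2 ⟨y + l, hid.symm⟩
    · exact Ideal.mem_span_singleton.2 (dvd_mul_left _ _)
    · exact Ideal.mem_span_singleton.2 ⟨r + (y + l), by linear_combination -hid⟩
    · exact Ideal.mem_span_singleton.2 (dvd_mul_left _ _)
  · rw [Ideal.span_singleton_le_iff_mem]
    have e : y - l = u * (y * r) - u * (l * r) + v * (l * (y - l)) := by
      linear_combination (-(y - l)) * huv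
    have m1 : y * r ∈ Ideal.span {l * r, l * (y - l), y * r, y * (y - l)} :=
      Ideal.subset_span (Or.inr (Or.inr (Or.inl rfl)))
    have m2 : l * r ∈ Ideal.span {l * r, l * (y - l), y * r, y * (y - l)} :=
      Ideal.subset_span (Or.inl rfl)
    have m3 : l * (y - l) ∈ Ideal.span {l * r, l * (y - l), y * r, y * (y - l)} :=
      Ideal.subset_span (Or.inr (Or.inl rfl))
    have m4 := Ideal.add_mem _ (Ideal.sub_mem _ (Ideal.mul_mem_left _ u m1)
      (Ideal.mul_mem_left _ u m2)) (Ideal.mul_mem_left _ v m3)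
    rw [← e] at m4
    exact m4

end ring

section sq

variable {K L Ω : Type} [Field K] [Field L] [Field Ω] [Algebra K L] [Algebra L Ω]
  [Algebra K Ω] [IsScalarTower K L Ω] [IsSepClosed Ω] [IsGalois L Ω] {f : K[X]}
  (hg : Good 2 (-1 : K) f)

include hg in
/-- if a Weierstrass point is divisible by two, then the differences of its coordinate and the other
roots are squares -/
theorem weier_sq (ho : Odd f.natDegree) {e₀ : L} (h0 : (f.map (algebraMap K L)).eval e₀ = 0)
    {Q D : Jac 2 f L} (hQ : IsCl L (ptI 2 (f.map (algebraMap K L)) e₀ 0) Q)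
    (hD : 2 • jm 2 f (incl K L Ω) D = jm 2 f (incl K L Ω) Q) {e : L}
    (he : (f.map (algebraMap K L)).eval e = 0) : IsSquare (e₀ - e) := by
  by_cases hee : e = e₀
  · rw [hee, sub_self]
    exact IsSquare.zero
  obtain ⟨h, hf⟩ := dvd_iff_isRoot.2 h0
  have hgL := hg.up L
  -- the value of `h` at `e₀` is not zero
  have hh0 : h.eval e₀ ≠ 0 := by
    intro hc
    have h1 : (X - C e₀) ^ 2 ∣ f.map (algebraMap K L) := by
      rw [hf, pow_two]
      exact mul_dvd_mul_left _ (dvd_iff_isRoot.2 hc)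
    have h2 := hgL.sep.squarefree (X - C e₀) (by rw [← pow_two]; exact h1)
    exact not_isUnit_X_sub_C e₀ h2
  have hdom : IsDomain (CR 2 (f.map (algebraMap K L))) := by
    haveI := hyps.ring 2 L _ _ hgL
    infer_instance
  -- the class of the residual ideal
  have hptI : ptI 2 (f.map (algebraMap K L)) e₀ 0 ≠ ⊥ := hQ.ne
  have hgen : yy 2 (f.map (algebraMap K L)) - xp 2 (f.map (algebraMap K L)) (X - C e₀) ≠ 0 := by
    intro hc
    have h1 := w_id hf
    rw [hc, zero_mul, ← xp_mul] at h1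
    have h2 : (X - C e₀) * (h - (X - C e₀)) = 0 :=
      xp_inj (by norm_num : (2 : ℕ) ≠ 0) (by rw [← h1, xp_zero])
    rcases mul_eq_zero.1 h2 with h3 | h3
    · exact X_sub_C_ne_zero e₀ h3
    · have h4 := congrArg (Polynomial.eval e₀) h3
      rw [eval_sub] at h4
      simp at h4
      exact hh0 h4
  have hwI : wI (f.map (algebraMap K L)) h e₀ ≠ ⊥ := by
    intro hc
    have h1 := w_mul hf hh0
    rw [hc, Ideal.mul_bot] at h1
    exact hgen (Ideal.span_singleton_eq_bot.1 h1.symm)
  obtain ⟨Q', hQ'⟩ := cl_exists hyps hg hwI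
  have hQQ : Q' = -Q := by
    have h1 := cl_mul hyps hg hQ hQ'
    have h2 : Q + Q' = 0 := by
      rw [cl_zero_iff hyps hg h1]
      exact ⟨1, _, one_ne_zero, hgen, by
        rw [Ideal.span_singleton_one, Ideal.top_mul, Ideal.mul_top, w_mul hf hh0]⟩
    exact (neg_eq_of_add_eq_zero_right h2).symm
  -- the norm polynomial
  obtain ⟨r, hr⟩ : ∃ r, r = h - (X - C e₀) := ⟨_, rfl⟩
  have hcop : IsCoprime r (f.map (algebraMap K L)) := by
    rw [hf]
    have h1 : IsCoprime r (X - C e₀) := by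
      rw [isCoprime_comm, (irreducible_X_sub_C e₀).coprime_iff_not_dvd, dvd_iff_isRoot,
        IsRoot.def, hr, eval_sub]
      simpa using hh0
    have h2 : IsCoprime r h := by
      have h3 : IsCoprime (X - C e₀) h := by
        rw [(irreducible_X_sub_C e₀).coprime_iff_not_dvd, dvd_iff_isRoot]
        exact hh0
      obtain ⟨u, v, huv⟩ := h3
      exact ⟨-u, v + u, by rw [hr]; linear_combination huv⟩
    exact h1.mul_right h2
  obtain ⟨s, hs⟩ := norm_sq (Ω := Ω) hg hQ' (w_cop hh0) (G := r) hcop (by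
    rw [hr]
    exact w_norm hgL (by rw [map_neg, map_one]) hf hh0) (D := -D) (by
    rw [hQQ, map_neg, map_neg, smul_neg, hD])
  -- the product over the roots
  have hfΩ : f.map (algebraMap K Ω) = (X - C (algebraMap L Ω e₀)) * h.map (algebraMap L Ω) := by
    have h1 := congrArg (Polynomial.map (algebraMap L Ω)) hf
    rw [map_L, Polynomial.map_mul, Polynomial.map_sub, Polynomial.map_X, Polynomial.map_C] at h1
    exact h1
  have hsp : (f.map (algebraMap K Ω)).Splits := splits_up hg
  have hmon : (f.map (algebraMap K Ω)).Monic := hg.monic.map _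
  have hhm : (h.map (algebraMap L Ω)).Monic := by
    rw [hfΩ] at hmon
    exact (monic_X_sub_C _).of_mul_monic_left hmon
  have hhsp : (h.map (algebraMap L Ω)).Splits := by
    have h1 := hsp
    rw [hfΩ] at h1
    exact (splits_mul_iff (X_sub_C_ne_zero _) hhm.ne_zero).1 h1 |>.2
  have hre₀ : aeval (algebraMap L Ω e₀) r = algebraMap L Ω (h.eval e₀) := by
    rw [aeval_algebraMap_apply, hr, aeval_sub, coe_aeval_eq_eval]
    simp
  have hprod : ((f.map (algebraMap K Ω)).roots.map fun β' => aeval β' r).prod =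
      (algebraMap L Ω (h.eval e₀)) ^ 2 := by
    have h1 : (f.map (algebraMap K Ω)).roots =
        algebraMap L Ω e₀ ::ₘ (h.map (algebraMap L Ω)).roots := by
      rw [hfΩ, roots_mul (mul_ne_zero (X_sub_C_ne_zero _) hhm.ne_zero), roots_X_sub_C]
      rfl
    rw [h1, Multiset.map_cons, Multiset.prod_cons, hre₀, pow_two]
    congr 1
    have h2 : ((h.map (algebraMap L Ω)).roots.map fun β' => aeval β' r) =
        (h.map (algebraMap L Ω)).roots.map fun β' => (algebraMap L Ω e₀ - β') := by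
      apply Multiset.map_congr rfl
      intro β' hβ'
      rw [mem_roots hhm.ne_zero, IsRoot.def, eval_map_algebraMap] at hβ'
      rw [hr, map_sub, hβ', map_sub, aeval_X, aeval_C]
      ring
    rw [h2, ← hhsp.eval_eq_prod_roots_of_monic hhm, eval_map_apply]
  -- the value at `e`
  have hRt : Rt f (algebraMap L Ω e) := by
    rw [← rt_up (E := L)]
    show aeval (algebraMap L Ω e) (f.map (algebraMap K L)) = 0
    rw [aeval_algebraMap_apply, coe_aeval_eq_eval, he, map_zero]
  have h1 := hs _ hRt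
  rw [hprod, aeval_algebraMap_apply, aeval_algebraMap_apply, coe_aeval_eq_eval,
    ← map_pow, ← map_pow, ← map_pow, ← map_mul] at h1
  have h2 := (algebraMap L Ω).injective h1
  have h3 : r.eval e = e₀ - e := by
    have h4 : h.eval e = 0 := by
      rw [hf, eval_mul] at he
      refine (mul_eq_zero.1 he).resolve_left ?_
      rw [eval_sub, eval_X, eval_C]
      exact sub_ne_zero.2 hee
    rw [hr, eval_sub, h4, eval_sub, eval_X, eval_C]
    ring
  rw [h3] at h2
  obtain ⟨k, hk⟩ := ho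
  have h5 : e₀ - e ≠ 0 := sub_ne_zero.2 (Ne.symm hee)
  refine ⟨s.eval e * h.eval e₀ / (e₀ - e) ^ k, ?_⟩
  rw [hk] at h2
  have h6 : (e₀ - e) ^ k ≠ 0 := pow_ne_zero _ h5
  rw [div_mul_div_comm, eq_div_iff (mul_ne_zero h6 h6)]
  have e1 : (e₀ - e) * ((e₀ - e) ^ k * (e₀ - e) ^ k) = (e₀ - e) ^ (2 * k + 1) := by ring
  rw [e1, ← h2]
  ring

end sq

end Pool.Agent.Helper29J
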