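import Pool.Agent.Helper29J.AtTwo
import Pool.Agent.Helper29J.Weier

/-!
# Points over the completions which are infinitely divisible by two
-/

set_option autoImplicit false
set_option linter.all false

open Polynomial IsDedekindDomain NumberField

namespace Pool.Agent.Helper29J

open Pool.Agent.Y160.SE
open Pool.Agent.TH115.GD (incl rs ak)
open Pool.Agent.N352.PP (vv vv_coe dense_F)

section pt

variable {K L Ω : Type} [Field K] [Field L] [Field Ω] [Algebra K L] [Algebra L Ω]
  [Algebra K Ω] [IsScalarTower K L Ω] {f : K[X]} (hg : Good 2 (-1 : K) f)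

omit hg in
theorem ptI_up (a b : L) : (ptI 2 (f.map (algebraMap K L)) a b).map (cm 2 f (incl K L Ω)) =
    ptI 2 (f.map (algebraMap K Ω)) (algebraMap L Ω a) (algebraMap L Ω b) := by
  unfold ptI
  rw [Ideal.map_span, Set.image_pair, map_sub]
  have e1 : ∀ p : L[X], cm 2 f (incl K L Ω) (xp 2 (f.map (algebraMap K L)) p) =
      xp 2 (f.map (algebraMap K Ω)) (p.map (algebraMap L Ω)) := by
    intro p
    exact crMap_xp _ _ _
  have e2 : cm 2 f (incl K L Ω) (yy 2 (f.map (algebraMap K L))) =
      yy 2 (f.map (algebraMap K Ω)) := crMap_yy _ _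
  rw [e1, e1, e2, Polynomial.map_sub, Polynomial.map_X, Polynomial.map_C, Polynomial.map_C]

theorem dc_one (P : Ω × Ω) : dc hg {P} = cl hg (ptI 2 (fu f Ω) P.1 P.2) := by
  unfold dc dvI
  rw [Multiset.map_singleton, Multiset.prod_singleton]

/-- the class of a point over an extension -/
theorem jm_pt {a b : L} {Q : Jac 2 f L} (hQ : IsCl L (ptI 2 (f.map (algebraMap K L)) a b) Q) :
    jm 2 f (incl K L Ω) Q = dc hg {(algebraMap L Ω a, algebraMap L Ω b)} := by
  have h1 := cl_map hyps hg hQ (incl K L Ω)
  rw [ptI_up] at h1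
  rw [dc_one]
  exact (cl_eq hg h1).symm

end pt

section two

variable {F : Type} [Field F] [NumberField F] (v : HeightOneSpectrum (𝓞 F))

/-- **At a prime above two** no finite point is infinitely divisible by two. -/
theorem local_two (h2 : (2 : 𝓞 F) ∈ v.asIdeal) {g : ℕ} (hg1 : 1 ≤ g) {f : (𝓞 F)[X]}
    (hm : f.Monic) (hd : f.natDegree = 2 * g + 1)
    (hi : Irreducible (f.map (Ideal.Quotient.mk v.asIdeal))) (hno : NoSq v.asIdeal f)
    (hg : Good 2 (-1 : F) (f.map (algebraMap (𝓞 F) F))) {a b : v.adicCompletion F}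
    (hab : b ^ 2 = (fu (f.map (algebraMap (𝓞 F) F)) (v.adicCompletion F)).eval a)
    (h : ∀ k : ℕ, ∃ D : Jac 2 (f.map (algebraMap (𝓞 F) F)) (v.adicCompletion F),
      (2 ^ k : ℕ) • jm 2 (f.map (algebraMap (𝓞 F) F))
        (incl F (v.adicCompletion F) (SeparableClosure (v.adicCompletion F))) D =
      dc hg {(algebraMap _ (SeparableClosure (v.adicCompletion F)) a,
        algebraMap _ (SeparableClosure (v.adicCompletion F)) b)}) : False := by
  haveI := v.isPrime
  haveI : IsDomain (𝓞 F ⧸ v.asIdeal) := Ideal.Quotient.isDomain v.asIdeal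
  haveI : v.asIdeal.IsMaximal := v.isPrime.isMaximal v.ne_bot
  haveI : CharZero (v.adicCompletion F) := charZero_of_injective_algebraMap
    (algebraMap F (v.adicCompletion F)).injective
  have h2' : v.valuation F 2 < 1 := by
    have e : algebraMap (𝓞 F) F 2 = 2 := map_ofNat _ 2
    rw [← e, HeightOneSpectrum.valuation_of_algebraMap]
    exact (v.intValuation_lt_one_iff_mem _).2 h2
  obtain ⟨w, hL, hw⟩ := exists_loc v h2' (SeparableClosure (v.adicCompletion F))
  have hw1 : ∀ x : v.adicCompletion F, w (algebraMap _ (SeparableClosure (v.adicCompletion F)) x) ≤ 1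
      ↔ vv v x ≤ 1 := by
    intro x
    have h6 := hw x 1
    rwa [map_one, map_one, map_one] at h6
  have hemb : (f.map (algebraMap (𝓞 F) F)).map (algebraMap F (v.adicCompletion F)) =
      f.map (em v) := by
    rw [Polynomial.map_map]
  have hint : Int w (f.map (algebraMap (𝓞 F) F)) g := by
    refine ⟨hm.map _, by rw [hm.natDegree_map, hd], hg1, fun j => ?_⟩
    have e : (fu (f.map (algebraMap (𝓞 F) F)) (SeparableClosure (v.adicCompletion F))).coeff j =
        algebraMap (v.adicCompletion F) (SeparableClosure (v.adicCompletion F))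
          (em v (f.coeff j)) := by
      rw [coeff_map, coeff_map, IsScalarTower.algebraMap_apply F (v.adicCompletion F)
        (SeparableClosure (v.adicCompletion F))]
      rfl
    rw [e, hw1]
    exact vv_em_le v _
  have hab' : b ^ 2 = (f.map (em v)).eval a := by
    rw [← hemb]
    exact hab
  have hon : On (fu (f.map (algebraMap (𝓞 F) F)) (SeparableClosure (v.adicCompletion F)))
      (algebraMap _ (SeparableClosure (v.adicCompletion F)) a,
        algebraMap _ (SeparableClosure (v.adicCompletion F)) b) := by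
    show (algebraMap _ _ b) ^ 2 = _
    rw [← map_pow, hab]
    unfold fu
    rw [IsScalarTower.algebraMap_eq F (v.adicCompletion F)
      (SeparableClosure (v.adicCompletion F)), ← Polynomial.map_map, eval_map_apply]
  by_cases hx : 1 < w (algebraMap _ (SeparableClosure (v.adicCompletion F)) a)
  · exact not_divisible hg hL hint
      (incl F (v.adicCompletion F) (SeparableClosure (v.adicCompletion F))) (fun x => rfl) hon hx h
  · rw [not_lt, hw1] at hx
    by_cases hb : b = 0
    · -- a root of `f`
      rw [hb, zero_pow two_ne_zero] at hab'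
      exact no_root hg1 hm hd hi hx hab'.symm
    · -- descent
      have hpt : ptI 2 ((f.map (algebraMap (𝓞 F) F)).map (algebraMap F (v.adicCompletion F))) a b ≠ ⊥ :=
        pt_ne_bot (a, b)
      obtain ⟨Q, hQ⟩ := cl_exists hyps hg hpt
      obtain ⟨D, hD⟩ := h 1
      rw [pow_one, ← jm_pt hg hQ] at hD
      obtain ⟨s, hs⟩ := point_sq (Ω := SeparableClosure (v.adicCompletion F)) hg
        (by rw [hm.natDegree_map, hd]; exact ⟨g, rfl⟩) hab hb hQ hD
      rw [hemb] at hs
      exact no_sq hm hd hi hno hx hs

end two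

end Pool.Agent.Helper29J
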