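import Pool.Agent.Helper29J.Rep

/-!
# Points which are close, finite nets, the index of the subgroup
-/

set_option autoImplicit false
set_option linter.all false

open Polynomial IsDedekindDomain
open scoped nonZeroDivisors

namespace Pool.Agent.Helper29J

open Pool.Agent.Y160.SE

section poly

variable {E : Type} [Field E] {w : AbsoluteValue E ℝ}

/-- the ring of integers -/
def ints (w : AbsoluteValue E ℝ) (hna : Na w) : Subring E where
  carrier := {x | w x ≤ 1}
  mul_mem' := by
    intro a b ha hb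
    simp only [Set.mem_setOf_eq, map_mul] at *
    exact mul_le_one₀ ha (w.nonneg _) hb
  one_mem' := by simp
  add_mem' := by
    intro a b ha hb
    exact (hna a b).trans (max_le ha hb)
  zero_mem' := by simp
  neg_mem' := by
    intro a ha
    simp only [Set.mem_setOf_eq, w.map_neg] at *
    exact ha

/-- the Taylor expansion -/
theorem taylor1 (hna : Na w) {f : E[X]} (h : ∀ j, w (f.coeff j) ≤ 1) {a b : E} (ha : w a ≤ 1)
    (hb : w b ≤ 1) : ∃ k, w k ≤ 1 ∧
      f.eval b = f.eval a + (derivative f).eval a * (b - a) + k * (b - a) ^ 2 := by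
  have hl : f ∈ Polynomial.lifts (ints w hna).subtype := by
    rw [lifts_iff_coeff_lifts]
    intro n
    exact ⟨⟨f.coeff n, h n⟩, rfl⟩
  obtain ⟨f₀, rfl⟩ := hl
  obtain ⟨k, hk⟩ := Polynomial.binomExpansion f₀ (⟨a, ha⟩ : ints w hna)
    ((⟨b, hb⟩ : ints w hna) - ⟨a, ha⟩)
  refine ⟨k, k.2, ?_⟩
  have h2 := congrArg (ints w hna).subtype hk
  have e : (⟨a, ha⟩ : ints w hna) + ((⟨b, hb⟩ : ints w hna) - ⟨a, ha⟩) = ⟨b, hb⟩ := by ring
  rw [e] at h2
  simp only [map_add, map_mul, map_pow, map_sub] at h2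
  rw [← Polynomial.eval_map_apply, ← Polynomial.eval_map_apply, ← Polynomial.eval_map_apply] at h2
  show (f₀.map (ints w hna).subtype).eval b = (f₀.map (ints w hna).subtype).eval a +
    (derivative (f₀.map (ints w hna).subtype)).eval a * (b - a) + k * (b - a) ^ 2
  rw [derivative_map]
  exact h2

/-- a polynomial is bounded on the unit disc -/
theorem bdd (hna : Na w) (u : E[X]) : ∃ C : ℝ, 1 ≤ C ∧ ∀ a, w a ≤ 1 → w (u.eval a) ≤ C := by
  refine ⟨1 + ∑ i ∈ Finset.range (u.natDegree + 1), w (u.coeff i), ?_, fun a ha => ?_⟩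
  · have : 0 ≤ ∑ i ∈ Finset.range (u.natDegree + 1), w (u.coeff i) :=
      Finset.sum_nonneg fun i _ => w.nonneg _
    linarith
  · rw [eval_eq_sum_range]
    have hs : ∀ i ∈ Finset.range (u.natDegree + 1), w (u.coeff i) ≤
        1 + ∑ i ∈ Finset.range (u.natDegree + 1), w (u.coeff i) := by
      intro i hi
      have := Finset.single_le_sum (f := fun i => w (u.coeff i)) (fun i _ => w.nonneg _) hi
      linarith
    refine w_sum_le hna _ _ ?_ fun i hi => ?_
    · have : 0 ≤ ∑ i ∈ Finset.range (u.natDegree + 1), w (u.coeff i) :=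
        Finset.sum_nonneg fun i _ => w.nonneg _
      linarith
    · rw [map_mul, map_pow]
      calc w (u.coeff i) * w a ^ i ≤ w (u.coeff i) * 1 :=
            mul_le_mul_of_nonneg_left (pow_le_one₀ (w.nonneg _) ha) (w.nonneg _)
        _ ≤ _ := by
            rw [mul_one]
            exact hs i hi

/-- at every point of the unit disc the polynomial or its derivative is large -/
theorem disc_bound (hna : Na w) {f : E[X]} (hs : f.Separable) : ∃ κ : ℝ, 0 < κ ∧ κ ≤ 1 ∧
    ∀ a, w a ≤ 1 → κ ≤ w (f.eval a) ∨ κ ≤ w ((derivative f).eval a) := by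
  obtain ⟨u, v, huv⟩ := hs
  obtain ⟨C₁, hC₁, h1⟩ := bdd (w := w) hna u
  obtain ⟨C₂, hC₂, h2⟩ := bdd (w := w) hna v
  have hC : 0 < C₁ * C₂ := by positivity
  refine ⟨1 / (C₁ * C₂), by positivity, ?_, fun a ha => ?_⟩
  · rw [div_le_one hC]
    nlinarith
  · have h3 := congrArg (Polynomial.eval a) huv
    rw [eval_add, eval_mul, eval_mul, eval_one] at h3
    have h4 : (1 : ℝ) ≤ max (w (u.eval a * f.eval a)) (w (v.eval a * (derivative f).eval a)) := by
      rw [← map_one w, ← h3]
      exact hna _ _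
    rcases le_max_iff.1 h4 with h5 | h5
    · left
      rw [map_mul] at h5
      rw [div_le_iff₀ hC]
      calc (1 : ℝ) ≤ w (u.eval a) * w (f.eval a) := h5
        _ ≤ C₁ * w (f.eval a) := mul_le_mul_of_nonneg_right (h1 a ha) (w.nonneg _)
        _ ≤ w (f.eval a) * (C₁ * C₂) := by
            have : 0 ≤ w (f.eval a) * C₁ := mul_nonneg (w.nonneg _) (by linarith)
            nlinarith
    · right
      rw [map_mul] at h5
      rw [div_le_iff₀ hC]
      calc (1 : ℝ) ≤ w (v.eval a) * w ((derivative f).eval a) := h5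
        _ ≤ C₂ * w ((derivative f).eval a) := mul_le_mul_of_nonneg_right (h2 a ha) (w.nonneg _)
        _ ≤ w ((derivative f).eval a) * (C₁ * C₂) := by
            have : 0 ≤ w ((derivative f).eval a) * C₂ := mul_nonneg (w.nonneg _) (by linarith)
            nlinarith

end poly

section close

variable {K W : Type} [Field K] [Field W] [Algebra K W] {f : K[X]} (hg : Good 2 (-1 : K) f)
  {w : AbsoluteValue W ℝ}

omit [Algebra K W] in
/-- two different roots -/
theorem two_roots {N : Polynomial W} {x₀ x₁ : W} (h : x₁ ≠ x₀) (h0 : N.eval x₀ = 0) (h1 : N.eval x₁ = 0) :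
    (X - C x₀) * (X - C x₁) ∣ N := by
  apply IsCoprime.mul_dvd
  · exact Polynomial.isCoprime_X_sub_C_of_isUnit_sub (isUnit_iff_ne_zero.2 (sub_ne_zero.2 (Ne.symm h)))
  · exact dvd_iff_isRoot.2 h0
  · exact dvd_iff_isRoot.2 h1

/-- points which are close have the same class -/
theorem close [IsAlgClosed W] (hna : Na w) (h2 : w 2 < 1) {g : ℕ} (hf : Int w f g) :
    ∃ δ : ℝ, 0 < δ ∧ δ ≤ 1 ∧ ∀ x₀ y₀ x₁ y₁, On (fu f W) (x₀, y₀) → On (fu f W) (x₁, y₁) →
      w x₀ ≤ 1 → w x₁ ≤ 1 → w (x₁ - x₀) ≤ δ → w (y₁ - y₀) ≤ δ →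
      dc hg {(x₁, y₁)} - dc hg {(x₀, y₀)} ∈ GG hg w 1 := by
  obtain ⟨κ, hκ, hκ1, hd⟩ := disc_bound (w := w) hna (gup (W := W) hg).sep
  have h20 : (2 : W) ≠ 0 := two_ne (gup (W := W) hg)
  have hw2 : 0 < w 2 := w.pos h20
  obtain ⟨μ, hμ⟩ : ∃ μ, μ = w 2 * κ := ⟨_, rfl⟩
  have hμ0 : 0 < μ := by rw [hμ]; positivity
  have hμκ : μ < κ := by rw [hμ]; nlinarith
  refine ⟨μ / 2, by positivity, by linarith, ?_⟩
  intro x₀ y₀ x₁ y₁ h₀ h₁ hx₀ hx₁ hxx hyy
  have hgh : (1 : ℝ) ≤ 1 := le_rfl
  have hy₀' : y₀ ^ 2 = (fu f W).eval x₀ := h₀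
  have hy₁' : y₁ ^ 2 = (fu f W).eval x₁ := h₁
  have hint := hf.int
  have hyint : ∀ x y : W, y ^ 2 = (fu f W).eval x → w x ≤ 1 → w y ≤ 1 := by
    intro x y h hx
    have h3 := w_eval_le hna hint hx
    rw [← h, map_pow] at h3
    by_contra hc
    push Not at hc
    nlinarith
  have hy₀ := hyint _ _ hy₀' hx₀
  have hy₁ := hyint _ _ hy₁' hx₁
  -- the line with given `c`
  have L : ∀ c : W, c ≠ 0 → (x₁ - x₀) + c * (y₁ + y₀) = 0 → w c < 1 →
      ((X - C x₀) * (X - C x₁) ∣ (X - C (x₀ - c * y₀)) ^ 2 - (C c) ^ 2 * fu f W) →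
      dc hg {(x₁, y₁)} - dc hg {(x₀, y₀)} ∈ GG hg w 1 := by
    intro c hc hl hwc hdv
    refine line hg hna hf le_rfl h₀ h₁ hc hl hdv hx₀ hx₁ ?_ ?_
    · rw [map_mul]
      exact mul_le_one₀ hwc.le (w.nonneg _) hy₀
    · rw [one_pow, mul_one]
      exact pow_lt_one₀ (w.nonneg _) hwc two_ne_zero
  have hroots : ∀ c : W, (x₁ - x₀) + c * (y₁ + y₀) = 0 → x₁ ≠ x₀ →
      ((X - C x₀) * (X - C x₁) ∣ (X - C (x₀ - c * y₀)) ^ 2 - (C c) ^ 2 * fu f W) := by
    intro c hl hne
    apply two_roots hne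
    · simp only [eval_sub, eval_pow, eval_mul, eval_X, eval_C]
      rw [← hy₀']
      ring
    · simp only [eval_sub, eval_pow, eval_mul, eval_X, eval_C]
      rw [← hy₁']
      linear_combination (x₁ - x₀ + c * y₀ - c * y₁) * hl
  by_cases hxe : x₁ = x₀
  · -- the same `x`
    subst hxe
    have h3 : y₁ ^ 2 = y₀ ^ 2 := by rw [hy₀', hy₁']
    rcases sq_eq_sq_iff_eq_or_eq_neg.1 h3 with h4 | h4
    · rw [h4, sub_self]
      exact AddSubgroup.zero_mem _
    · by_cases hy0 : y₀ = 0
      · rw [h4, hy0, neg_zero, sub_self]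
        exact AddSubgroup.zero_mem _
      · -- the tangent
        have h5 : w (2 * y₀) ≤ μ / 2 := by
          have e : y₁ - y₀ = -(2 * y₀) := by rw [h4]; ring
          rw [e, w.map_neg] at hyy
          exact hyy
        have h6 : w y₀ < κ := by
          rw [map_mul] at h5
          have : w 2 * w y₀ < w 2 * κ := by rw [← hμ]; linarith
          exact lt_of_mul_lt_mul_left this hw2.le
        have h7 : κ ≤ w ((derivative (fu f W)).eval x₁) := by
          rcases hd x₁ hx₁ with h | h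
          · rw [← hy₀', map_pow] at h
            exfalso
            have : w y₀ ^ 2 ≤ w y₀ := by nlinarith [w.nonneg y₀]
            linarith
          · exact h
        obtain ⟨d, hdd⟩ : ∃ d, d = (derivative (fu f W)).eval x₁ := ⟨_, rfl⟩
        rw [← hdd] at h7
        have hd0 : d ≠ 0 := w.pos_iff.1 (lt_of_lt_of_le hκ h7)
        have hcd : (2 * y₀ / d) * d = 2 * y₀ := div_mul_cancel₀ _ hd0
        have hwc : w (2 * y₀ / d) < 1 := by
          rw [map_div₀, div_lt_one (lt_of_lt_of_le hκ h7)]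
          linarith
        refine L (2 * y₀ / d) (div_ne_zero (mul_ne_zero h20 hy0) hd0) ?_ hwc ?_
        · rw [h4]
          ring
        · obtain ⟨c, hc⟩ : ∃ c, c = 2 * y₀ / d := ⟨_, rfl⟩
          rw [← hc] at hcd ⊢
          set N : Polynomial W := (X - C (x₁ - c * y₀)) ^ 2 - (C c) ^ 2 * fu f W with hN
          have hN0 : N.eval x₁ = 0 := by
            rw [hN]
            simp only [eval_sub, eval_pow, eval_mul, eval_X, eval_C]
            rw [← hy₀']
            ring
          have hN1 : (derivative N).eval x₁ = 0 := by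
            rw [hN]
            simp only [derivative_sub, derivative_pow, derivative_mul, derivative_X, derivative_C,
              eval_sub, eval_pow, eval_mul, eval_X, eval_C, eval_add, eval_zero, eval_one]
            rw [← hdd]
            norm_num
            linear_combination (-c) * hcd
          obtain ⟨q, hq⟩ := dvd_iff_isRoot.2 hN0
          have hq0 : q.eval x₁ = 0 := by
            rw [hq] at hN1
            simpa [derivative_mul] using hN1
          obtain ⟨r, hr⟩ := dvd_iff_isRoot.2 hq0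
          exact ⟨r, by rw [hq, hr]; ring⟩
  · -- different `x`
    have hxx0 : x₁ - x₀ ≠ 0 := sub_ne_zero.2 hxe
    rcases hd x₀ hx₀ with h3 | h3
    · -- `y₀` is large
      rw [← hy₀', map_pow] at h3
      have h4 : κ ≤ w y₀ := by nlinarith [w.nonneg y₀]
      have h5 : μ ≤ w (2 * y₀) := by
        rw [map_mul, hμ]
        exact mul_le_mul_of_nonneg_left h4 hw2.le
      have h6 : w (y₁ + y₀) = w (2 * y₀) := by
        have e : y₁ + y₀ = 2 * y₀ + (y₁ - y₀) := by ring
        rw [e]
        exact w_add_eq hna (by linarith)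
      have h7 : 0 < w (y₁ + y₀) := by rw [h6]; linarith
      have h8 : y₁ + y₀ ≠ 0 := w.pos_iff.1 h7
      have hl : (x₁ - x₀) + (-(x₁ - x₀) / (y₁ + y₀)) * (y₁ + y₀) = 0 := by
        rw [div_mul_cancel₀ _ h8]
        ring
      refine L (-(x₁ - x₀) / (y₁ + y₀)) (div_ne_zero (neg_ne_zero.2 hxx0) h8) hl ?_ (hroots _ hl hxe)
      rw [map_div₀, w.map_neg, div_lt_one h7, h6]
      linarith
    · -- the derivative is large
      obtain ⟨k, hk, hT⟩ := taylor1 hna hint hx₀ hx₁
      obtain ⟨d, hdd⟩ : ∃ d, d = (derivative (fu f W)).eval x₀ := ⟨_, rfl⟩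
      rw [← hdd] at h3 hT
      obtain ⟨D, hD⟩ : ∃ D, D = d + k * (x₁ - x₀) := ⟨_, rfl⟩
      have h4 : w D = w d := by
        rw [hD]
        apply w_add_eq hna
        rw [map_mul]
        calc w k * w (x₁ - x₀) ≤ 1 * w (x₁ - x₀) := mul_le_mul_of_nonneg_right hk (w.nonneg _)
          _ < w d := by linarith
      have h5 : (y₁ - y₀) * (y₁ + y₀) = D * (x₁ - x₀) := by
        rw [← hy₀', ← hy₁'] at hT
        rw [hD]
        linear_combination hT
      have hD0 : 0 < w D := by rw [h4]; linarith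
      have hDne : D ≠ 0 := w.pos_iff.1 hD0
      have h6 : (y₁ - y₀) * (y₁ + y₀) ≠ 0 := by
        rw [h5]
        exact mul_ne_zero hDne hxx0
      have h8 : y₁ + y₀ ≠ 0 := right_ne_zero_of_mul h6
      have hl : (x₁ - x₀) + (-(x₁ - x₀) / (y₁ + y₀)) * (y₁ + y₀) = 0 := by
        rw [div_mul_cancel₀ _ h8]
        ring
      refine L (-(x₁ - x₀) / (y₁ + y₀)) (div_ne_zero (neg_ne_zero.2 hxx0) h8) hl ?_ (hroots _ hl hxe)
      have e : -(x₁ - x₀) / (y₁ + y₀) = -(y₁ - y₀) / D := by
        rw [div_eq_div_iff h8 hDne]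
        linear_combination h5
      rw [e, map_div₀, w.map_neg, div_lt_one hD0, h4]
      linarith

end close

section net

variable {K W : Type} [Field K] [Field W] [Algebra K W] {w : AbsoluteValue W ℝ}

/-- the hypotheses on the absolute value -/
structure Loc (K : Type) [Field K] [Algebra K W] (w : AbsoluteValue W ℝ) : Prop where
  na : Na w
  two : w 2 < 1
  int : ∀ x : W, w x ≤ 1 → ∀ i, w (algebraMap K W ((minpoly K x).coeff i)) ≤ 1
  tb : ∀ ε : ℝ, 0 < ε → ∃ Z : Set K, Z.Finite ∧ ∀ a : K, w (algebraMap K W a) ≤ 1 →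
    ∃ z ∈ Z, w (algebraMap K W a - algebraMap K W z) ≤ ε

omit [Algebra K W] in
theorem prod_lt {δ : ℝ} (hδ : 0 < δ) (φ : W → W) (S : Multiset W) (h0 : S ≠ 0)
    (h : ∀ t ∈ S, δ < w (φ t)) : δ ^ S.card < w (S.map φ).prod := by
  induction S using Multiset.induction_on with
  | empty => exact absurd rfl h0
  | cons a S ih =>
    rw [Multiset.map_cons, Multiset.prod_cons, Multiset.card_cons, map_mul, pow_succ, mul_comm]
    have h1 := h a (Multiset.mem_cons_self a S)
    by_cases hS : S = 0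
    · subst hS
      simpa using h1
    · have h2 := ih hS fun t ht => h t (Multiset.mem_cons_of_mem ht)
      have h3 : 0 < δ ^ S.card := pow_pos hδ _
      calc δ * δ ^ S.card < w (φ a) * δ ^ S.card := mul_lt_mul_of_pos_right h1 h3
        _ ≤ w (φ a) * w (S.map φ).prod := mul_le_mul_of_nonneg_left h2.le (w.nonneg _)

/-- a finite net for the elements of bounded degree -/
theorem net1 [IsAlgClosed W] [Algebra.IsAlgebraic K W] (hL : Loc K w) (N : ℕ) {δ : ℝ} (hδ : 0 < δ)
    (hδ1 : δ ≤ 1) :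
    ∃ T : Set W, T.Finite ∧ ∀ x : W, w x ≤ 1 → (minpoly K x).natDegree ≤ N →
      ∃ t ∈ T, w (x - t) ≤ δ := by
  classical
  obtain ⟨Z, hZ, hZ2⟩ := hL.tb (δ ^ N) (pow_pos hδ N)
  -- the polynomials
  let q : (j : ℕ) → (Fin j → K) → Polynomial W := fun j z =>
    X ^ j + ∑ i : Fin j, C (algebraMap K W (z i)) * X ^ (i : ℕ)
  let T : Set W := ⋃ j ∈ Set.Iic N, ⋃ z ∈ (Set.pi Set.univ fun _ : Fin j => Z), {t | t ∈ (q j z).roots}
  refine ⟨T, ?_, ?_⟩
  · refine (Set.finite_Iic N).biUnion fun j _ => (Set.Finite.pi' fun _ => hZ).subset ?_ |>.biUnion fun z _ => ?_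
    · intro z hz i
      exact hz i (Set.mem_univ i)
    · exact (q j z).roots.toFinset.finite_toSet.subset fun t ht => by
        rw [Finset.mem_coe, Multiset.mem_toFinset]
        exact ht
  · intro x hx hdeg
    set p := minpoly K x with hp
    have hm : p.Monic := minpoly.monic (Algebra.IsIntegral.isIntegral x)
    set j := p.natDegree with hj
    choose! z hzZ hz using fun i => hZ2 (p.coeff i) (hL.int x hx i)
    have hqm : (q j fun i => z i).Monic := by
      apply monic_X_pow_add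
      rw [degree_lt_iff_coeff_zero]
      intro m hm
      rw [finset_sum_coeff]
      apply Finset.sum_eq_zero
      intro i _
      rw [coeff_C_mul, coeff_X_pow, if_neg (by have := i.2; omega), mul_zero]
    have hqd : (q j fun i => z i).natDegree = j := by
      have hlt : (∑ i : Fin j, C (algebraMap K W (z i)) * X ^ (i : ℕ) : Polynomial W).degree < j := by
        rw [degree_lt_iff_coeff_zero]
        intro m hm
        rw [finset_sum_coeff]
        apply Finset.sum_eq_zero
        intro i _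
        rw [coeff_C_mul, coeff_X_pow, if_neg (by have := i.2; omega), mul_zero]
      show (X ^ j + ∑ i : Fin j, C (algebraMap K W (z i)) * X ^ (i : ℕ) : Polynomial W).natDegree = j
      rw [natDegree_add_eq_left_of_degree_lt (by rw [degree_X_pow]; exact hlt), natDegree_X_pow]
    -- the value at `x`
    have hval : w ((q j fun i => z i).eval x) ≤ δ ^ N := by
      have h0 : aeval x p = 0 := minpoly.aeval K x
      rw [aeval_eq_sum_range, Finset.sum_range_succ, hm.coeff_natDegree, one_smul] at h0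
      have e : (q j fun i => z i).eval x = -∑ i : Fin j,
          (algebraMap K W (p.coeff i) - algebraMap K W (z i)) * x ^ (i : ℕ) := by
        show (X ^ j + ∑ i : Fin j, C (algebraMap K W (z i)) * X ^ (i : ℕ) : Polynomial W).eval x = _
        rw [eval_add, eval_pow, eval_X, eval_finset_sum]
        have e2 : ∑ i : Fin j, algebraMap K W (p.coeff i) * x ^ (i : ℕ) = -x ^ j := by
          rw [← Fin.sum_univ_eq_sum_range (fun i => p.coeff i • x ^ i) j] at h0
          rw [eq_neg_iff_add_eq_zero, ← h0]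
          congr 1
          apply Finset.sum_congr rfl
          intro i _
          rw [Algebra.smul_def]
        have e3 : ∑ i : Fin j, (algebraMap K W (p.coeff i) - algebraMap K W (z i)) * x ^ (i : ℕ) =
            -x ^ j - ∑ i : Fin j, algebraMap K W (z i) * x ^ (i : ℕ) := by
          rw [← e2, ← Finset.sum_sub_distrib]
          apply Finset.sum_congr rfl
          intro i _
          ring
        rw [e3, neg_sub, sub_neg_eq_add, add_comm]
        congr 1
        apply Finset.sum_congr rfl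
        intro i _
        rw [eval_mul, eval_C, eval_pow, eval_X]
      rw [e, w.map_neg]
      refine w_sum_le hL.na _ _ (pow_nonneg hδ.le _) fun i _ => ?_
      rw [map_mul, map_pow]
      calc w (algebraMap K W (p.coeff i) - algebraMap K W (z i)) * w x ^ (i : ℕ)
          ≤ δ ^ N * 1 := mul_le_mul (hz i) (pow_le_one₀ (w.nonneg _) hx)
            (pow_nonneg (w.nonneg _) _) (pow_nonneg hδ.le _)
        _ = δ ^ N := mul_one _
    by_contra hcon
    push Not at hcon
    have hsp := (IsAlgClosed.splits (q j fun i => z i)).eq_prod_roots_of_monic hqm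
    have hroots : ∀ t ∈ (q j fun i => z i).roots, δ < w (x - t) := by
      intro t ht
      apply hcon
      simp only [T, Set.mem_iUnion, Set.mem_Iic, exists_prop]
      exact ⟨j, hdeg, fun i => z i, fun i _ => hzZ i, ht⟩
    have hcard : (q j fun i => z i).roots.card = j :=
      ((IsAlgClosed.splits (q j fun i => z i)).natDegree_eq_card_roots).symm.trans hqd
    have hprod : δ ^ j < w ((q j fun i => z i).eval x) := by
      rw [hsp, eval_multiset_prod, Multiset.map_map]
      have hj0 : 0 < j := minpoly.natDegree_pos (Algebra.IsIntegral.isIntegral x)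
      have key := prod_lt (w := w) hδ (fun t => eval x (X - C t)) (q j fun i => z i).roots (by
        intro h0
        rw [h0, Multiset.card_zero] at hcard
        omega) (by
        intro t ht
        rw [eval_sub, eval_X, eval_C]
        exact hroots t ht)
      rw [hcard] at key
      exact key
    have : δ ^ N ≤ δ ^ j := pow_le_pow_of_le_one hδ.le hδ1 hdeg
    linarith

end net

section idx

variable {K₀ K W : Type} [Field K₀] [Field K] [Field W] [Algebra K₀ K] [Algebra K₀ W] [Algebra K W]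
  [IsScalarTower K₀ K W] {f : K₀[X]} (hg : Good 2 (-1 : K₀) f) {w : AbsoluteValue W ℝ}

omit [Algebra K₀ K] [Algebra K W] [IsScalarTower K₀ K W] in
/-- a finite net for the points -/
theorem net2 [IsAlgClosed W] [Algebra K W] [Algebra.IsAlgebraic K W] (hL : Loc K w) {g : ℕ}
    (hf : Int w f g) (N : ℕ) {δ : ℝ} (hδ : 0 < δ) (hδ1 : δ ≤ 1) :
    ∃ T : Set (W × W), T.Finite ∧ (∀ Q ∈ T, On (fu f W) Q ∧ w Q.1 ≤ 1) ∧
      ∀ P : W × W, On (fu f W) P → w P.1 ≤ 1 → (minpoly K P.1).natDegree ≤ N →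
      ∃ Q ∈ T, w (P.1 - Q.1) ≤ δ ∧ w (P.2 - Q.2) ≤ δ := by
  obtain ⟨T, hT, hT2⟩ := net1 (K := K) hL N (δ := δ ^ 2) (by positivity) (pow_le_one₀ hδ.le hδ1)
  have hsq : ∀ t : W, ∃ y, y ^ 2 = (fu f W).eval t := fun t =>
    IsAlgClosed.exists_pow_nat_eq _ (by norm_num)
  choose s hs using hsq
  refine ⟨((fun t => (t, s t)) '' (T ∩ {t | w t ≤ 1})) ∪ ((fun t => (t, -s t)) '' (T ∩ {t | w t ≤ 1})), ?_, ?_, ?_⟩
  · exact ((hT.inter_of_left _).image _).union ((hT.inter_of_left _).image _)
  · rintro Q (⟨t, ht, rfl⟩ | ⟨t, ht, rfl⟩)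
    · exact ⟨hs t, ht.2⟩
    · exact ⟨by
        unfold On
        simp only [neg_sq]
        exact hs t, ht.2⟩
  · rintro ⟨x, y⟩ hP hx hdeg
    simp only at hx hdeg ⊢
    obtain ⟨t, ht, hxt⟩ := hT2 x hx hdeg
    have hδ2 : δ ^ 2 ≤ δ := by nlinarith
    have htx : w t ≤ 1 := by
      have e : t = x - (x - t) := by ring
      rw [e]
      exact (w_sub_le hL.na _ _).trans (max_le hx (by linarith))
    obtain ⟨k, hk, hT⟩ := taylor1 hL.na hf.int htx hx
    have hd : w ((derivative (fu f W)).eval t) ≤ 1 := by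
      apply w_eval_le hL.na _ htx
      intro j
      rw [coeff_derivative, map_mul]
      have h3 : w ((j : W) + 1) ≤ 1 := by
        induction j with
        | zero => simp
        | succ n ih =>
          push_cast
          exact (hL.na _ _).trans (max_le ih (by rw [map_one]))
      exact mul_le_one₀ (hf.int _) (w.nonneg _) h3
    have hyy : y ^ 2 = (fu f W).eval x := hP
    have hst := hs t
    have h4 : w ((y - s t) * (y + s t)) ≤ δ ^ 2 := by
      have e : (y - s t) * (y + s t) = ((derivative (fu f W)).eval t + k * (x - t)) * (x - t) := by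
        rw [← hyy, ← hst] at hT
        linear_combination hT
      rw [e, map_mul]
      calc w ((derivative (fu f W)).eval t + k * (x - t)) * w (x - t)
          ≤ 1 * δ ^ 2 := by
            refine mul_le_mul ?_ hxt (w.nonneg _) zero_le_one
            refine (hL.na _ _).trans (max_le hd ?_)
            rw [map_mul]
            exact mul_le_one₀ hk (w.nonneg _) (by linarith)
        _ = δ ^ 2 := one_mul _
    rw [map_mul] at h4
    rcases le_or_gt (w (y - s t)) δ with h5 | h5
    · exact ⟨(t, s t), Or.inl ⟨t, ⟨ht, htx⟩, rfl⟩, by simpa using hxt.trans hδ2, h5⟩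
    · refine ⟨(t, -s t), Or.inr ⟨t, ⟨ht, htx⟩, rfl⟩, by simpa using hxt.trans hδ2, ?_⟩
      rw [sub_neg_eq_add]
      by_contra hc
      push Not at hc
      nlinarith

/-- a finite set of classes -/
theorem fin_sums {Q : Type} [AddCommGroup Q] (F : Set Q) (hF : F.Finite) (h0 : (0 : Q) ∈ F) (N : ℕ) :
    ∃ G : Set Q, G.Finite ∧ ∀ S : Multiset Q, S.card ≤ N → (∀ x ∈ S, x ∈ F) → S.sum ∈ G := by
  induction N with
  | zero =>
    refine ⟨{0}, Set.finite_singleton 0, fun S hS _ => ?_⟩
    rw [Multiset.card_eq_zero.1 (Nat.le_zero.1 hS)]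
    simp
  | succ N ih =>
    obtain ⟨G, hG, h⟩ := ih
    refine ⟨(Set.image2 (· + ·) F G) ∪ G, (hF.image2 _ hG).union hG, fun S hS hSF => ?_⟩
    rcases Multiset.empty_or_exists_mem S with rfl | ⟨a, ha⟩
    · exact Or.inr (h 0 (by simp) (by simp))
    · obtain ⟨T, rfl⟩ := Multiset.exists_cons_of_mem ha
      left
      rw [Multiset.sum_cons]
      refine ⟨a, hSF a (Multiset.mem_cons_self _ _), T.sum, h T ?_ fun x hx =>
        hSF x (Multiset.mem_cons_of_mem hx), rfl⟩
      rw [Multiset.card_cons] at hS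
      omega

/-- a multiple of every rational class is a sum of points near infinity -/
theorem exists_mult [IsAlgClosed W] [Algebra.IsAlgebraic K W] (hL : Loc K w) {g : ℕ}
    (hf : Int w f g) (φ : K →ₐ[K₀] W) (hφ : ∀ x, φ x = algebraMap K W x) :
    ∃ M : ℕ, 0 < M ∧ ∀ D : Jac 2 f K, M • jm 2 f φ D ∈ GG hg w 1 := by
  classical
  obtain ⟨δ, hδ, hδ1, hcl⟩ := close hg hL.na hL.two hf
  obtain ⟨T, hT, hTon, hT2⟩ := net2 (K := K) hL hf (4 * g) hδ hδ1
  let q := QuotientAddGroup.mk' (GG hg w 1)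
  let F : Set (Jac 2 f W ⧸ GG hg w 1) := insert 0 ((fun Q => q (dc hg {Q})) '' T)
  have hF : F.Finite := (hT.image _).insert 0
  obtain ⟨G, hG, hG2⟩ := fin_sums F hF (Set.mem_insert _ _) (4 * g)
  -- the classes of the points
  have hpt : ∀ P : W × W, On (fu f W) P → (minpoly K P.1).natDegree ≤ 4 * g →
      q (dc hg {P}) ∈ F := by
    intro P hP hdeg
    rcases le_or_gt (w P.1) 1 with h1 | h1
    · obtain ⟨Q, hQ, h2, h3⟩ := hT2 P hP h1 hdeg
      right
      refine ⟨Q, hQ, ?_⟩
      have h4 := hcl Q.1 Q.2 P.1 P.2 (hTon Q hQ).1 hP (hTon Q hQ).2 h1 h2 h3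
      have h5 : q (dc hg {P} - dc hg {Q}) = 0 := (QuotientAddGroup.eq_zero_iff _).2 h4
      rw [map_sub, sub_eq_zero] at h5
      exact h5.symm
    · left
      exact (QuotientAddGroup.eq_zero_iff _).2 (pt_mem hg w hP h1)
  have hsum : ∀ S : Multiset (W × W), q (dc hg S) = (S.map fun P => q (dc hg {P})).sum := by
    intro S
    induction S using Multiset.induction_on with
    | empty => rw [dc_zero, map_zero]; simp
    | cons P S ih => rw [dc_cons, map_add, ih, Multiset.map_cons, Multiset.sum_cons]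
  let ψ : Jac 2 f K →+ (Jac 2 f W ⧸ GG hg w 1) := q.comp (jm 2 f φ)
  have hrange : (ψ.range : Set (Jac 2 f W ⧸ GG hg w 1)) ⊆ G := by
    rintro _ ⟨D, rfl⟩
    obtain ⟨S, p, hm, hd, hcard, hS, hD⟩ := rep_dv hg (W := W) hf.deg φ D
    show q (jm 2 f φ D) ∈ G
    rw [hD, hsum]
    apply hG2
    · rw [Multiset.card_map]
      exact hcard
    · intro x hx
      obtain ⟨P, hP, rfl⟩ := Multiset.mem_map.1 hx
      refine hpt P (hS P hP).1 ?_
      have h0 : aeval P.1 p = 0 := by
        have h1 := (hS P hP).2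
        rw [eval_map] at h1
        rw [aeval_def]
        have e : (φ : K →+* W) = algebraMap K W := RingHom.ext hφ
        rw [← e]
        exact h1
      have h2 := minpoly.dvd K P.1 h0
      have h3 := natDegree_le_of_dvd h2 hm.ne_zero
      omega
  have hfin : Finite ψ.range := Set.Finite.subset hG hrange
  refine ⟨Nat.card ψ.range, Nat.card_pos, fun D => ?_⟩
  have h1 : Nat.card ψ.range • (⟨ψ D, D, rfl⟩ : ψ.range) = 0 := card_nsmul_eq_zero'
  have h2 := congrArg Subtype.val h1
  have h3 : Nat.card ψ.range • ψ D = 0 := h2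
  have h4 : ψ (Nat.card ψ.range • D) = 0 := by rw [map_nsmul, h3]
  have h5 : q (Nat.card ψ.range • jm 2 f φ D) = 0 := by
    rw [← map_nsmul (jm 2 f φ)]
    exact h4
  exact (QuotientAddGroup.eq_zero_iff _).1 h5

/-- a point near infinity which is infinitely divisible by two is the point at infinity -/
theorem not_divisible [IsAlgClosed W] [Algebra.IsAlgebraic K W] (hL : Loc K w) {g : ℕ}
    (hf : Int w f g) (φ : K →ₐ[K₀] W) (hφ : ∀ x, φ x = algebraMap K W x) {P : W × W}
    (hP : On (fu f W) P) (hx : 1 < w P.1) (h : ∀ k : ℕ, ∃ D : Jac 2 f K,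
      (2 ^ k : ℕ) • jm 2 f φ D = dc hg {P}) : False := by
  obtain ⟨M, hM, hMD⟩ := exists_mult hg hL hf φ hφ
  obtain ⟨a, M', hM', rfl⟩ := Nat.exists_eq_two_pow_mul_odd hM.ne'
  have h20 : (2 : W) ≠ 0 := two_ne (gup (W := W) hg)
  have hw2 : 0 < w 2 := w.pos h20
  have hg1 := hf.pos
  -- the contraction factor
  obtain ⟨l, hl, hl2⟩ : ∃ l : ℝ, 1 < l ∧ w 2 ^ 2 * l ^ (2 * g - 1) < 1 := by
    have hne : (2 * g - 1 : ℕ) ≠ 0 := by omega
    refine ⟨(1 / w 2) ^ (((2 * g - 1 : ℕ) : ℝ)⁻¹), ?_, ?_⟩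
    · apply Real.one_lt_rpow
      · rw [lt_div_iff₀ hw2]
        linarith [hL.two]
      · have : 0 < ((2 * g - 1 : ℕ) : ℝ) := by exact_mod_cast (Nat.pos_of_ne_zero hne)
        positivity
    · rw [Real.rpow_inv_natCast_pow (by positivity) hne]
      rw [pow_two, mul_assoc, mul_one_div_cancel hw2.ne', mul_one]
      exact hL.two
  -- everything is close to infinity
  have hz : dc hg {P} ∈ GG hg w 1 := pt_mem hg w hP hx
  have key : ∀ k : ℕ, dc hg {P} ∈ GG hg w (l ^ k) := by
    intro k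
    have h1 : M' • dc hg {P} ∈ GG hg w (l ^ k) := by
      obtain ⟨D, hD⟩ := h (k + a)
      have h2 := dbl_pow hg hL.na hL.two hf le_rfl hl.le hl2 (hMD D) k
      rw [mul_one] at h2
      have e : (2 ^ k : ℕ) • (2 ^ a * M') • jm 2 f φ D = M' • dc hg {P} := by
        rw [← hD, smul_smul, smul_smul]
        congr 1
        rw [pow_add]
        ring
      rwa [e] at h2
    have h3 : (2 ^ k : ℕ) • dc hg {P} ∈ GG hg w (l ^ k) := by
      have := dbl_pow hg hL.na hL.two hf le_rfl hl.le hl2 hz k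
      rwa [mul_one] at this
    have hcop : Nat.Coprime M' (2 ^ k) := (Nat.coprime_two_right.2 hM').pow_right k
    have hbez := Nat.gcd_eq_gcd_ab M' (2 ^ k)
    rw [hcop] at hbez
    have e : dc hg {P} = (Nat.gcdA M' (2 ^ k)) • (M' • dc hg {P}) +
        (Nat.gcdB M' (2 ^ k)) • ((2 ^ k : ℕ) • dc hg {P}) := by
      have h5 : dc hg {P} = (1 : ℤ) • dc hg {P} := (one_zsmul _).symm
      conv_lhs => rw [h5]
      rw [← natCast_zsmul (dc hg {P}) M', ← natCast_zsmul (dc hg {P}) (2 ^ k), smul_smul, smul_smul,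
        ← add_smul]
      congr 1
      rw [show (1 : ℤ) = ((1 : ℕ) : ℤ) from rfl, hbez]
      ring
    rw [e]
    exact AddSubgroup.add_mem _ (AddSubgroup.zsmul_mem _ h1 _) (AddSubgroup.zsmul_mem _ h3 _)
  obtain ⟨k, hk⟩ := pow_unbounded_of_one_lt (w P.1) hl
  exact sep_pt hg hL.na hf (one_le_pow₀ hl.le) hP hk.le (key k)

end idx

end Pool.Agent.Helper29J
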