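import Mathlib
import Pool.Agent.Helper29J.Net
import Pool.Agent.N352.PP.Loc

/-!
The spectral absolute value on the separable closure of the completion of a number field at a
finite place satisfies the axioms `Loc`.
-/

open IsDedekindDomain NumberField Polynomial

namespace Pool.Agent.Helper29J

/-- the spectral norm as an absolute value -/
theorem exists_abs (K W : Type) [NontriviallyNormedField K] [CompleteSpace K]
    [IsUltrametricDist K] [Field W] [Algebra K W] [Algebra.IsAlgebraic K W] :
    ∃ w : AbsoluteValue W ℝ, Na w ∧ (∀ a : K, w (algebraMap K W a) = ‖a‖) ∧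
      ∀ x, w x ≤ 1 → ∀ i, ‖(minpoly K x).coeff i‖ ≤ 1 := by
  have hi : ∀ x : W, IsIntegral K x := fun x =>
    (Algebra.IsAlgebraic.isAlgebraic (R := K) x).isIntegral
  refine ⟨⟨⟨fun x => spectralNorm K W x, fun x y => ?_⟩, fun x => spectralNorm_nonneg x,
    fun x => ⟨fun h => ?_, fun h => ?_⟩, fun x y => ?_⟩, ?_, ?_, ?_⟩
  · exact map_mul (spectralMulAlgNorm K W) x y
  · exact eq_zero_of_map_spectralNorm_eq_zero h (Algebra.IsAlgebraic.isAlgebraic x)
  · subst h
    exact spectralNorm_zero
  · exact map_add_le_add (spectralMulAlgNorm K W) x y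
  · intro x y
    exact isNonarchimedean_spectralNorm (K := K) (L := W) x y
  · intro a
    exact spectralNorm_extends a
  · intro x hx i
    have h1 : spectralValue (minpoly K x) ≤ 1 := hx
    exact (spectralValue_le_one_iff (minpoly.monic (hi x))).1 h1 i

variable {F : Type} [Field F] [NumberField F] (v : HeightOneSpectrum (𝓞 F))

/-- the completion is a nontrivially normed field -/
@[reducible] noncomputable def nnf : NontriviallyNormedField (v.adicCompletion F) :=
  Valued.toNontriviallyNormedField (L := v.adicCompletion F)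
    (Γ₀ := WithZero (Multiplicative ℤ))

theorem nnf_ultra : let := nnf v; IsUltrametricDist (v.adicCompletion F) :=
  Valued.instIsUltrametricDist (L := v.adicCompletion F)
    (Γ₀ := WithZero (Multiplicative ℤ))

theorem exists_vabs (W : Type) [Field W] [Algebra (v.adicCompletion F) W]
    [Algebra.IsAlgebraic (v.adicCompletion F) W] :
    ∃ w : AbsoluteValue W ℝ, Na w ∧ (∀ a b : v.adicCompletion F,
      w (algebraMap (v.adicCompletion F) W a) ≤ w (algebraMap (v.adicCompletion F) W b) ↔
        Pool.Agent.N352.PP.vv v a ≤ Pool.Agent.N352.PP.vv v b) ∧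
      (∀ x, w x ≤ 1 → ∀ i, w (algebraMap (v.adicCompletion F) W
        ((minpoly (v.adicCompletion F) x).coeff i)) ≤ 1) := by
  letI := nnf v
  haveI := nnf_ultra v
  obtain ⟨w, h1, h2, h3⟩ := exists_abs (v.adicCompletion F) W
  refine ⟨w, h1, fun a b => ?_, fun x hx i => ?_⟩
  · rw [h2, h2]
    exact Valued.toNormedField.norm_le_iff
  · rw [h2]
    exact h3 x hx i

open Pool.Agent.N352.PP (vv vv_coe dense_F)

/-- finite nets in the integers of the completion -/
theorem net_vv {r : 𝓞 F} (hr : r ≠ 0) : ∃ Z : Set (v.adicCompletion F), Z.Finite ∧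
    ∀ a : v.adicCompletion F, vv v a ≤ 1 → ∃ z ∈ Z,
      vv v (a - z) ≤ v.valuation F (algebraMap (𝓞 F) F r) := by
  have hr' : algebraMap (𝓞 F) F r ≠ 0 := by
    rwa [Ne, FaithfulSMul.algebraMap_eq_zero_iff]
  have hI : Ideal.span {r} ≠ ⊥ := by
    rwa [Ne, Ideal.span_singleton_eq_bot]
  have hfin : Finite (𝓞 F ⧸ Ideal.span {r}) := Ideal.finiteQuotientOfFreeOfNeBot _ hI
  have hone : v.valuation F (algebraMap (𝓞 F) F r) ≤ 1 := by
    rw [HeightOneSpectrum.valuation_of_algebraMap]
    exact v.intValuation_le_one r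
  refine ⟨Set.range fun q : 𝓞 F ⧸ Ideal.span {r} =>
    algebraMap F (v.adicCompletion F) (algebraMap (𝓞 F) F q.out), Set.finite_range _,
    fun a ha => ?_⟩
  obtain ⟨f, hf⟩ := dense_F v a hr'
  have h1 : v.valuation F f ≤ 1 := by
    rw [← vv_coe]
    have e : algebraMap F (v.adicCompletion F) f =
        a - (a - algebraMap F (v.adicCompletion F) f) := by ring
    rw [e]
    exact (Valuation.map_sub _ _ _).trans (max_le ha (hf.le.trans hone))
  obtain ⟨b, hb⟩ := v.exists_valuation_sub_lt_of_integer (K := F) h1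
    (Units.mk0 (v.valuation F (algebraMap (𝓞 F) F r)) ((Valuation.ne_zero_iff _).2 hr'))
  rw [Units.val_mk0] at hb
  refine ⟨_, ⟨Ideal.Quotient.mk _ b, rfl⟩, ?_⟩
  have h2 : Ideal.Quotient.mk (Ideal.span {r})
      (Quotient.out (Ideal.Quotient.mk (Ideal.span {r}) b)) = Ideal.Quotient.mk _ b :=
    Ideal.Quotient.mk_out _
  rw [Ideal.Quotient.eq, Ideal.mem_span_singleton] at h2
  obtain ⟨s, hs⟩ := h2
  have e : a - algebraMap F (v.adicCompletion F) (algebraMap (𝓞 F) F
      (Quotient.out (Ideal.Quotient.mk (Ideal.span {r}) b))) =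
      (a - algebraMap F (v.adicCompletion F) f) -
        algebraMap F (v.adicCompletion F) (algebraMap (𝓞 F) F b - f) -
        algebraMap F (v.adicCompletion F) (algebraMap (𝓞 F) F (r * s)) := by
    rw [← hs, map_sub, map_sub, map_sub]; ring
  change vv v (a - algebraMap F (v.adicCompletion F) (algebraMap (𝓞 F) F
      (Quotient.out (Ideal.Quotient.mk (Ideal.span {r}) b)))) ≤ _
  rw [e]
  refine (Valuation.map_sub _ _ _).trans (max_le ((Valuation.map_sub _ _ _).trans
    (max_le hf.le ?_)) ?_)
  · rw [vv_coe]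
    exact hb.le
  · rw [vv_coe, map_mul, map_mul]
    calc _ ≤ v.valuation F (algebraMap (𝓞 F) F r) * 1 := by
          refine mul_le_mul_right ?_ _
          rw [HeightOneSpectrum.valuation_of_algebraMap]
          exact v.intValuation_le_one s
      _ = _ := mul_one _

/-- the spectral absolute value at a place above `2` satisfies the axioms of the local theory -/
theorem exists_loc (h2 : v.valuation F 2 < 1) (W : Type) [Field W]
    [Algebra (v.adicCompletion F) W] [Algebra.IsAlgebraic (v.adicCompletion F) W] :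
    ∃ w : AbsoluteValue W ℝ, Loc (v.adicCompletion F) w ∧ (∀ a b : v.adicCompletion F,
      w (algebraMap (v.adicCompletion F) W a) ≤ w (algebraMap (v.adicCompletion F) W b) ↔
        vv v a ≤ vv v b) := by
  obtain ⟨w, h1, h3, h4⟩ := exists_vabs v W
  have h5 : ∀ a, w (algebraMap (v.adicCompletion F) W a) ≤ 1 ↔ vv v a ≤ 1 := by
    intro a
    have h6 := h3 a 1
    rwa [map_one, map_one, map_one] at h6
  have h6 : ∀ a, w (algebraMap (v.adicCompletion F) W a) < 1 ↔ vv v a < 1 := by
    intro a
    have h6 := h3 1 a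
    rw [map_one, map_one, map_one] at h6
    rw [← not_le, ← not_le, h6]
  refine ⟨w, ⟨h1, ?_, h4, fun ε hε => ?_⟩, h3⟩
  · have h7 := (h6 (algebraMap F _ 2)).2 (by rw [vv_coe]; exact h2)
    rwa [map_ofNat, map_ofNat] at h7
  · have h7 : w (algebraMap (v.adicCompletion F) W (algebraMap F _ 2)) < 1 :=
      (h6 _).2 (by rw [vv_coe]; exact h2)
    obtain ⟨n, hn⟩ := exists_pow_lt_of_lt_one hε h7
    obtain ⟨Z, hZ, hz⟩ := net_vv v (r := (2 : 𝓞 F) ^ n) (pow_ne_zero _ two_ne_zero)
    refine ⟨Z, hZ, fun a ha => ?_⟩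
    obtain ⟨z, hz1, hz2⟩ := hz a ((h5 a).1 ha)
    refine ⟨z, hz1, ?_⟩
    rw [← map_sub]
    rw [← vv_coe, ← h3] at hz2
    refine hz2.trans ?_
    rw [map_pow, map_pow, map_pow, map_pow, map_ofNat (algebraMap (𝓞 F) F)]
    exact hn.le

end Pool.Agent.Helper29J
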