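import Mathlib

/-!
Polynomials `f` of odd degree such that no `a - x` is a square modulo `f` and modulo the square of
a prime ideal above `2`.
-/

open Polynomial

namespace Pool.Agent.Helper29J

section uniq

variable {A k : Type} [CommRing A] [Field k] (φ : A →+* k)

theorem map_mul_zero (hφ : ∀ x y, φ x = 0 → φ y = 0 → x * y = 0) {p q : A[X]}
    (hp : p.map φ = 0) (hq : q.map φ = 0) : p * q = 0 := by
  ext n
  rw [coeff_mul, coeff_zero]
  refine Finset.sum_eq_zero fun x _ => hφ _ _ ?_ ?_
  · rw [← coeff_map, hp, coeff_zero]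
  · rw [← coeff_map, hq, coeff_zero]

/-- the case where the square roots are congruent -/
theorem uniq_aux [Nontrivial A] (hφ : ∀ x y, φ x = 0 → φ y = 0 → x * y = 0) (h2 : (2 : k) = 0)
    {g : ℕ} {f f' : A[X]} (hm : f.Monic) (hm' : f'.Monic) (hd : f.natDegree = 2 * g + 1)
    (hd' : f'.natDegree = 2 * g + 1) (ht : f.coeff (2 * g) = f'.coeff (2 * g))
    (hff : f.map φ = f'.map φ) {a a' : A} {s s' u u' : A[X]}
    (h : C a - X = s ^ 2 + f * u) (h' : C a' - X = s' ^ 2 + f' * u') (ha : φ a = φ a')
    (hs : s.map φ = s'.map φ) : f = f' := by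
  have hA2 : φ 2 = 0 := by rw [map_ofNat]; exact h2
  have hss : s' ^ 2 = s ^ 2 := by
    have h1 : (s' - s).map φ = 0 := by rw [Polynomial.map_sub, hs, sub_self]
    have h3 : (2 * s + (s' - s)).map φ = 0 := by
      rw [Polynomial.map_add, h1, add_zero, Polynomial.map_mul]
      have : (2 : A[X]).map φ = 0 := by
        rw [Polynomial.map_ofNat]
        have h4 : ((2 : k[X])) = C 2 := rfl
        rw [h4, h2, C_0]
      rw [this, zero_mul]
    have h4 := map_mul_zero φ hφ h1 h3
    linear_combination h4
  set α : A := a' - a with hα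
  set e : A[X] := u' - u with he
  set b : A[X] := f' - f with hb
  have hbφ : b.map φ = 0 := by rw [hb, Polynomial.map_sub, hff, sub_self]
  have hαφ : φ α = 0 := by rw [hα, map_sub, ha, sub_self]
  -- the main identity
  have e1 : C α = f * e + b * u' := by
    rw [hα, he, hb, C_sub]
    linear_combination h' - h + hss
  -- `e` is zero modulo the ideal
  have hf0 : f.map φ ≠ 0 := (hm.map φ).ne_zero
  have heφ : e.map φ = 0 := by
    have h3 := congrArg (Polynomial.map φ) e1
    rw [Polynomial.map_add, Polynomial.map_mul, Polynomial.map_mul, hbφ, zero_mul, add_zero,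
      map_C, hαφ, C_0] at h3
    exact (mul_eq_zero.1 h3.symm).resolve_left hf0
  have e2 : b * u' = b * u := by
    have h3 := map_mul_zero φ hφ hbφ heφ
    rw [he] at h3
    linear_combination h3
  -- derivative
  have e3 : -(1 : A[X]) = 2 * s * derivative s + (derivative f * u + f * derivative u) := by
    have h3 := congrArg derivative h
    simp only [derivative_sub, derivative_C, derivative_X, derivative_add, derivative_mul,
      derivative_pow] at h3
    have h4 : (C ((2 : ℕ) : A)) = (2 : A[X]) := by
      rw [Nat.cast_ofNat]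
      rfl
    rw [h4] at h3
    linear_combination h3
  have e4 : b * 2 = 0 := by
    refine map_mul_zero φ hφ hbφ ?_
    rw [Polynomial.map_ofNat]
    have h4 : ((2 : k[X])) = C 2 := rfl
    rw [h4, h2, C_0]
  have e5 : b + C α * derivative f = f * (e * derivative f - b * derivative u) := by
    linear_combination (-b) * e3 - (s * derivative s) * e4 + derivative f * e1 + derivative f * e2
  -- degrees
  have hdeg : (b + C α * derivative f).degree < f.degree := by
    have hn : b.natDegree < 2 * g + 1 := by
      rw [hb]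
      have h3 : (f' - f).degree < f'.degree := degree_sub_lt_left (by
        rw [degree_eq_natDegree hm'.ne_zero, degree_eq_natDegree hm.ne_zero, hd, hd'])
        hm'.ne_zero (by rw [hm'.leadingCoeff, hm.leadingCoeff])
      rw [degree_eq_natDegree hm'.ne_zero, hd'] at h3
      by_cases hb0 : f' - f = 0
      · rw [hb0, natDegree_zero]
        omega
      · exact (natDegree_lt_iff_degree_lt hb0).2 h3
    rw [degree_eq_natDegree hm.ne_zero, hd]
    refine lt_of_le_of_lt (degree_add_le _ _) (max_lt ?_ ?_)
    · exact lt_of_le_of_lt degree_le_natDegree (by exact_mod_cast hn)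
    · refine lt_of_le_of_lt degree_le_natDegree ?_
      have h3 : (C α * derivative f).natDegree ≤ 2 * g :=
        (natDegree_C_mul_le _ _).trans ((natDegree_derivative_le f).trans (by omega))
      exact_mod_cast (by omega : (C α * derivative f).natDegree < 2 * g + 1)
  have e6 : b + C α * derivative f = 0 := by
    by_contra hc
    have h3 : f ∣ b + C α * derivative f := ⟨_, e5⟩
    exact absurd (hm.not_dvd_of_degree_lt hc hdeg h3) (by simp)
  have e7 : α = 0 := by
    have h3 := congrArg (fun p : A[X] => p.coeff (2 * g)) e6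
    simp only [coeff_add, coeff_C_mul, coeff_derivative, coeff_zero] at h3
    rw [hb, coeff_sub, ht, sub_self, zero_add, ← hd, hm.coeff_natDegree, one_mul] at h3
    have h4 : α * 2 = 0 := hφ _ _ hαφ hA2
    have h5 : α * (((2 * g : ℕ) : A) + 1) = α := by
      push_cast
      linear_combination (g : A) * h4
    rw [← h5]
    exact h3
  rw [e7, C_0, zero_mul, add_zero, hb] at e6
  exact (sub_eq_zero.1 e6).symm

/-- for a given residue class of `a` there is at most one `f` -/
theorem uniq (hsur : Function.Surjective φ) (hφ : ∀ x y, φ x = 0 → φ y = 0 → x * y = 0)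
    (h2 : (2 : k) = 0)
    {g : ℕ} {f f' : A[X]} (hm : f.Monic) (hm' : f'.Monic) (hd : f.natDegree = 2 * g + 1)
    (hd' : f'.natDegree = 2 * g + 1) (ht : f.coeff (2 * g) = f'.coeff (2 * g))
    (hff : f.map φ = f'.map φ) (hi : Irreducible (f.map φ)) {a a' : A} {s s' u u' : A[X]}
    (h : C a - X = s ^ 2 + f * u) (h' : C a' - X = s' ^ 2 + f' * u') (ha : φ a = φ a') :
    f = f' := by
  haveI : Nontrivial A := RingHom.domain_nontrivial φ
  have hC2 : (2 : k[X]) = 0 := by
    have h4 : ((2 : k[X])) = C 2 := rfl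
    rw [h4, h2, C_0]
  -- the square roots are congruent modulo `f`
  have h3 : f.map φ ∣ (s'.map φ - s.map φ) ^ 2 := by
    have e1 := congrArg (Polynomial.map φ) h
    have e2 := congrArg (Polynomial.map φ) h'
    simp only [Polynomial.map_sub, map_C, Polynomial.map_X, Polynomial.map_add,
      Polynomial.map_mul, Polynomial.map_pow] at e1 e2
    rw [← hff] at e2
    rw [← ha] at e2
    refine ⟨(u.map φ - u'.map φ), ?_⟩
    linear_combination e1 - e2 + (s.map φ * s.map φ - s.map φ * s'.map φ) * hC2
  have h4 : f.map φ ∣ s'.map φ - s.map φ := hi.prime.dvd_of_dvd_pow h3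
  obtain ⟨w, hw⟩ := h4
  obtain ⟨w', hw'⟩ : ∃ w' : A[X], w'.map φ = w := Polynomial.map_surjective φ hsur w
  refine uniq_aux φ hφ h2 hm hm' hd hd' ht hff h (s' := s' - f' * w')
    (u' := u' + (2 * (s' - f' * w') * w' + f' * w' ^ 2)) ?_ ha ?_
  · rw [h']
    ring
  · rw [Polynomial.map_sub, Polynomial.map_mul, hw', ← hff, ← hw]
    ring

end uniq

/-- no element `a - x` is a square modulo `f` and modulo `I ^ 2` -/
def NoSq {R : Type} [CommRing R] (I : Ideal R) (f : R[X]) : Prop :=
  ∀ (a : R) (s u : R[X]), ¬ ∀ n, (C a - X - (s ^ 2 + f * u)).coeff n ∈ I ^ 2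

/-- it only depends on `f` modulo `I ^ 2` -/
theorem NoSq.congr {R : Type} [CommRing R] {I : Ideal R} {f f' : R[X]} (h : NoSq I f)
    (hff : ∀ n, f'.coeff n - f.coeff n ∈ I ^ 2) : NoSq I f' := by
  intro a s u hn
  refine h a s u fun n => ?_
  have e : (C a - X - (s ^ 2 + f * u)).coeff n =
      (C a - X - (s ^ 2 + f' * u)).coeff n + ((f' - f) * u).coeff n := by
    rw [← coeff_add]
    congr 1
    ring
  rw [e]
  refine Ideal.add_mem _ (hn n) ?_
  rw [coeff_mul]
  refine Ideal.sum_mem _ fun x _ => Ideal.mul_mem_right _ _ ?_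
  rw [coeff_sub]
  exact hff _

/-- there are lifts of an irreducible polynomial with the property `NoSq` -/
theorem exists_noSq {R : Type} [CommRing R] (I : Ideal R) [hI : I.IsMaximal] [Finite (R ⧸ I)]
    (h2 : (2 : R) ∈ I) {p : R} (hp : p ∈ I) (hp2 : p ∉ I ^ 2) {g : ℕ} (hg : 1 ≤ g) {f : R[X]}
    (hm : f.Monic) (hd : f.natDegree = 2 * g + 1)
    (hi : Irreducible (f.map (Ideal.Quotient.mk I))) :
    ∃ b c : R, NoSq I (f + C p * (C b + C c * X)) := by
  letI : Field (R ⧸ I) := Ideal.Quotient.field I
  haveI : Nontrivial R := RingHom.domain_nontrivial (Ideal.Quotient.mk I)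
  by_contra hno
  push Not at hno
  have hpc : ∀ r : R, r * p ∈ I ^ 2 → r ∈ I := by
    intro r hr
    by_contra hc
    have h3 : I ⊔ Ideal.span {r} = ⊤ := by
      refine hI.out.2 _ (lt_of_le_of_ne le_sup_left fun h4 => hc ?_)
      rw [h4]
      exact Ideal.mem_sup_right (Ideal.mem_span_singleton_self r)
    have h4 : (1 : R) ∈ I ⊔ Ideal.span {r} := by rw [h3]; trivial
    obtain ⟨y, hy, z, hz, hyz⟩ := Submodule.mem_sup.1 h4
    obtain ⟨x, hx⟩ := Ideal.mem_span_singleton'.1 hz
    apply hp2
    have e : p = y * p + x * (r * p) := by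
      linear_combination (-p) * hyz - p * hx
    rw [e]
    refine Ideal.add_mem _ ?_ (Ideal.mul_mem_left _ _ hr)
    rw [pow_two]
    exact Ideal.mul_mem_mul hy hp
  have hle : I ^ 2 ≤ I := Ideal.pow_le_self two_ne_zero
  set φ : R ⧸ I ^ 2 →+* R ⧸ I := Ideal.Quotient.factor hle with hφd
  have hφs : Function.Surjective φ := Ideal.Quotient.factor_surjective hle
  have hφmk : ∀ r : R, φ (Ideal.Quotient.mk _ r) = Ideal.Quotient.mk _ r := fun r =>
    Ideal.Quotient.factor_mk hle r
  have hφ0 : ∀ x y, φ x = 0 → φ y = 0 → x * y = 0 := by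
    intro x y hx hy
    obtain ⟨x, rfl⟩ := Ideal.Quotient.mk_surjective x
    obtain ⟨y, rfl⟩ := Ideal.Quotient.mk_surjective y
    rw [hφmk, Ideal.Quotient.eq_zero_iff_mem] at hx hy
    rw [← map_mul, Ideal.Quotient.eq_zero_iff_mem, pow_two]
    exact Ideal.mul_mem_mul hx hy
  have h2' : (2 : R ⧸ I) = 0 := by
    have := Ideal.Quotient.eq_zero_iff_mem.2 h2
    rwa [map_ofNat] at this
  have hcompm : ∀ q : R[X], (q.map (Ideal.Quotient.mk (I ^ 2))).map φ =
      q.map (Ideal.Quotient.mk I) := by
    intro q
    rw [Polynomial.map_map]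
    congr 1
  have hpm : ∀ b c : R, (C p * (C b + C c * X)).map (Ideal.Quotient.mk I) = 0 := by
    intro b c
    rw [Polynomial.map_mul, map_C, Ideal.Quotient.eq_zero_iff_mem.2 hp, C_0, zero_mul]
  have hdl : ∀ b c : R, (C p * (C b + C c * X)).degree < f.degree := by
    intro b c
    rw [degree_eq_natDegree hm.ne_zero, hd]
    refine lt_of_le_of_lt degree_le_natDegree ?_
    have h3 : (C p * (C b + C c * X)).natDegree ≤ 1 := by
      refine (natDegree_C_mul_le _ _).trans ?_
      compute_degree
    exact_mod_cast (by omega : (C p * (C b + C c * X)).natDegree < 2 * g + 1)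
  have hmon : ∀ b c : R, (f + C p * (C b + C c * X)).Monic := fun b c =>
    hm.add_of_left (hdl b c)
  have hnd : ∀ b c : R, (f + C p * (C b + C c * X)).natDegree = 2 * g + 1 := by
    intro b c
    rw [natDegree_add_eq_left_of_degree_lt (hdl b c), hd]
  -- the classes
  have hex : ∀ z : (R ⧸ I) × (R ⧸ I), ∃ (a : R) (s u : R[X]),
      ∀ n, (C a - X - (s ^ 2 + (f + C p * (C z.1.out + C z.2.out * X)) * u)).coeff n ∈ I ^ 2 := by
    intro z
    have h3 := hno z.1.out z.2.out
    unfold NoSq at h3
    push Not at h3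
    exact h3
  choose a s u ha using hex
  have hinj : Function.Injective fun z : (R ⧸ I) × (R ⧸ I) => Ideal.Quotient.mk I (a z) := by
    intro z z' hz
    haveI : Nontrivial (R ⧸ I ^ 2) := RingHom.domain_nontrivial φ
    have key : ∀ z : (R ⧸ I) × (R ⧸ I), C (Ideal.Quotient.mk (I ^ 2) (a z)) - X =
        ((s z).map (Ideal.Quotient.mk (I ^ 2))) ^ 2 +
        (f + C p * (C z.1.out + C z.2.out * X)).map (Ideal.Quotient.mk (I ^ 2)) *
          (u z).map (Ideal.Quotient.mk (I ^ 2)) := by
      intro z
      have h3 : (C (a z) - X - ((s z) ^ 2 + (f + C p * (C z.1.out + C z.2.out * X)) * u z)).map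
          (Ideal.Quotient.mk (I ^ 2)) = 0 := by
        ext n
        rw [coeff_map, coeff_zero, Ideal.Quotient.eq_zero_iff_mem]
        exact ha z n
      rw [Polynomial.map_sub, sub_eq_zero] at h3
      simpa only [Polynomial.map_sub, map_C, Polynomial.map_X, Polynomial.map_add,
        Polynomial.map_mul, Polynomial.map_pow] using h3
    have h4 := uniq φ hφs hφ0 h2' (g := g)
      ((hmon z.1.out z.2.out).map (Ideal.Quotient.mk (I ^ 2)))
      ((hmon z'.1.out z'.2.out).map (Ideal.Quotient.mk (I ^ 2)))
      (by rw [(hmon _ _).natDegree_map, hnd]) (by rw [(hmon _ _).natDegree_map, hnd])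
      (by
        rw [coeff_map, coeff_map, coeff_add, coeff_add]
        have h5 : ∀ b c : R, (C p * (C b + C c * X)).coeff (2 * g) = 0 := by
          intro b c
          apply coeff_eq_zero_of_natDegree_lt
          have h3 : (C p * (C b + C c * X)).natDegree ≤ 1 := by
            refine (natDegree_C_mul_le _ _).trans ?_
            compute_degree
          omega
        rw [h5, h5])
      (by
        rw [hcompm, hcompm, Polynomial.map_add, Polynomial.map_add, hpm, hpm])
      (by
        rw [hcompm, Polynomial.map_add, hpm, add_zero]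
        exact hi)
      (key z) (key z') (by rw [hφmk, hφmk]; exact hz)
    have h5 : ∀ n, (C p * (C z.1.out + C z.2.out * X)).coeff n -
        (C p * (C z'.1.out + C z'.2.out * X)).coeff n ∈ I ^ 2 := by
      intro n
      have h6 := congrArg (fun q : (R ⧸ I ^ 2)[X] => q.coeff n) h4
      simp only [coeff_map] at h6
      rw [Ideal.Quotient.eq, coeff_add, coeff_add] at h6
      have e : f.coeff n + (C p * (C z.1.out + C z.2.out * X)).coeff n -
        (f.coeff n + (C p * (C z'.1.out + C z'.2.out * X)).coeff n) =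
        (C p * (C z.1.out + C z.2.out * X)).coeff n -
        (C p * (C z'.1.out + C z'.2.out * X)).coeff n := by ring
      rwa [e] at h6
    have h6 := h5 0
    have h7 := h5 1
    simp only [coeff_C_mul, coeff_add, coeff_C_zero, coeff_X_zero, mul_zero, add_zero,
      coeff_X_one, mul_one, coeff_C_succ, zero_add] at h6 h7
    have h8 : z.1 = z'.1 := by
      rw [← Ideal.Quotient.mk_out z.1, ← Ideal.Quotient.mk_out z'.1, Ideal.Quotient.eq]
      refine hpc _ ?_
      have e : (z.1.out - z'.1.out) * p = p * z.1.out - p * z'.1.out := by ring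
      rw [e]
      exact h6
    have h9 : z.2 = z'.2 := by
      rw [← Ideal.Quotient.mk_out z.2, ← Ideal.Quotient.mk_out z'.2, Ideal.Quotient.eq]
      refine hpc _ ?_
      have e : (z.2.out - z'.2.out) * p = p * z.2.out - p * z'.2.out := by ring
      rw [e]
      exact h7
    exact Prod.ext h8 h9
  have h3 := Nat.card_le_card_of_injective _ hinj
  rw [Nat.card_prod] at h3
  have h4 : 1 < Nat.card (R ⧸ I) := Finite.one_lt_card
  nlinarith

end Pool.Agent.Helper29J
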