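import Pool.Agent.Helper29J.Adic
import Pool.Agent.Helper29J.NoSq

/-!
# There is no square `a - x` modulo `f` over the completion at a prime above two
-/

set_option autoImplicit false
set_option linter.all false

open Polynomial IsDedekindDomain NumberField

namespace Pool.Agent.Helper29J

open Pool.Agent.N352.PP (vv vv_coe dense_F)

section gen

variable {K Γ : Type} [Field K] [LinearOrderedCommGroupWithZero Γ] (ν : Valuation K Γ)

theorem mul_coef (A : AddSubgroup K) (hA : ∀ x y, ν x ≤ 1 → y ∈ A → x * y ∈ A) {p q : K[X]}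
    (hp : ∀ n, ν (p.coeff n) ≤ 1) (hq : ∀ n, q.coeff n ∈ A) (n : ℕ) : (p * q).coeff n ∈ A := by
  rw [coeff_mul]
  exact sum_mem fun x _ => hA _ _ (hp _) (hq _)

theorem lt_ok (γ : Γˣ) (x y : K) (hx : ν x ≤ 1) (hy : y ∈ ν.ltAddSubgroup γ) :
    x * y ∈ ν.ltAddSubgroup γ := by
  rw [Valuation.mem_ltAddSubgroup_iff] at hy ⊢
  rw [map_mul]
  calc ν x * ν y ≤ 1 * ν y := mul_le_mul_left hx _
    _ = ν y := one_mul _
    _ < γ := hy

/-- the quotient of integral polynomials by a monic one is integral -/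
theorem coef_quot (S : Subring K) {f u : K[X]} (hm : f.Monic) (hf : ∀ n, f.coeff n ∈ S)
    (h : ∀ n, (f * u).coeff n ∈ S) (n : ℕ) : u.coeff n ∈ S := by
  have h1 : ∀ p : K[X], (∀ n, p.coeff n ∈ S) → p ∈ lifts S.subtype := by
    intro p hp
    rw [lifts_iff_coeff_lifts]
    exact fun n => ⟨⟨_, hp n⟩, rfl⟩
  obtain ⟨f₀, hf₀, -, hf₀m⟩ := lifts_and_natDegree_eq_and_monic (h1 f hf) hm
  obtain ⟨p₀, hp₀⟩ := (mem_lifts _).1 (h1 _ h)
  have h2 := modByMonic_add_div p₀ f₀
  have h3 := congrArg (Polynomial.map S.subtype) h2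
  rw [Polynomial.map_add, Polynomial.map_mul, hf₀, hp₀] at h3
  have h4 : (Polynomial.map S.subtype (p₀ %ₘ f₀)).degree < f.degree := by
    refine lt_of_le_of_lt degree_map_le ?_
    have h5 := degree_modByMonic_lt p₀ hf₀m
    rw [← hf₀, degree_map_eq_of_injective S.subtype_injective]
    exact h5
  have h5 := (div_modByMonic_unique _ _ hm ⟨h3, h4⟩).1
  have h6 := (div_modByMonic_unique (f := f * u) u 0 hm ⟨by rw [zero_add], by
    rw [degree_zero]
    exact bot_lt_iff_ne_bot.2 (by rw [Ne, degree_eq_bot]; exact hm.ne_zero)⟩).1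
  rw [← h6, h5, coeff_map]
  exact Subtype.property _

end gen

section adic

variable {F : Type} [Field F] [NumberField F] (v : HeightOneSpectrum (𝓞 F))

/-- the embedding of the integers in the completion -/
noncomputable abbrev em : 𝓞 F →+* v.adicCompletion F :=
  (algebraMap F (v.adicCompletion F)).comp (algebraMap (𝓞 F) F)

theorem vv_em (r : 𝓞 F) : vv v (em v r) = v.intValuation r := by
  show vv v (algebraMap F (v.adicCompletion F) (algebraMap (𝓞 F) F r)) = _
  rw [vv_coe, HeightOneSpectrum.valuation_of_algebraMap]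

theorem vv_em_le (r : 𝓞 F) : vv v (em v r) ≤ 1 := by
  rw [vv_em]
  exact v.intValuation_le_one r

theorem approx {r : 𝓞 F} (hr : r ≠ 0) {x : v.adicCompletion F} (hx : vv v x ≤ 1) :
    ∃ b : 𝓞 F, vv v (x - em v b) < v.intValuation r := by
  have hr' : algebraMap (𝓞 F) F r ≠ 0 := by
    rwa [Ne, FaithfulSMul.algebraMap_eq_zero_iff]
  have hone : v.valuation F (algebraMap (𝓞 F) F r) ≤ 1 := by
    rw [HeightOneSpectrum.valuation_of_algebraMap]
    exact v.intValuation_le_one r
  obtain ⟨f, hf⟩ := dense_F v x hr'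
  have h1 : v.valuation F f ≤ 1 := by
    rw [← vv_coe]
    have e : algebraMap F (v.adicCompletion F) f =
        x - (x - algebraMap F (v.adicCompletion F) f) := by ring
    rw [e]
    exact (Valuation.map_sub _ _ _).trans (max_le hx (hf.le.trans hone))
  obtain ⟨b, hb⟩ := v.exists_valuation_sub_lt_of_integer (K := F) h1
    (Units.mk0 (v.valuation F (algebraMap (𝓞 F) F r)) ((Valuation.ne_zero_iff _).2 hr'))
  rw [Units.val_mk0] at hb
  refine ⟨b, ?_⟩
  have e : x - em v b = (x - algebraMap F (v.adicCompletion F) f) -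
        algebraMap F (v.adicCompletion F) (algebraMap (𝓞 F) F b - f) := by
    rw [map_sub]
    show x - algebraMap F (v.adicCompletion F) (algebraMap (𝓞 F) F b) = _
    ring
  rw [e, ← HeightOneSpectrum.valuation_of_algebraMap (K := F)]
  refine lt_of_le_of_lt (Valuation.map_sub _ _ _) (max_lt hf ?_)
  rw [vv_coe]
  exact hb

theorem approx_pol {r : 𝓞 F} (hr : r ≠ 0) {p : (v.adicCompletion F)[X]}
    (hp : ∀ n, vv v (p.coeff n) ≤ 1) : ∃ q : (𝓞 F)[X], q.natDegree ≤ p.natDegree ∧
      ∀ n, vv v ((p - q.map (em v)).coeff n) < v.intValuation r := by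
  have hr0 : 0 < v.intValuation r := zero_lt_iff.2 (v.intValuation_ne_zero r hr)
  choose b hb using fun n => approx v hr (hp n)
  have hc : ∀ n, (∑ i ∈ Finset.range (p.natDegree + 1), C (b i) * X ^ i).coeff n =
      if n ≤ p.natDegree then b n else 0 := by
    intro n
    rw [finset_sum_coeff]
    simp only [coeff_C_mul_X_pow]
    rw [Finset.sum_ite_eq]
    simp only [Finset.mem_range, Nat.lt_succ_iff]
  refine ⟨∑ i ∈ Finset.range (p.natDegree + 1), C (b i) * X ^ i, ?_, fun n => ?_⟩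
  · rw [natDegree_le_iff_coeff_eq_zero]
    intro n hn
    rw [hc, if_neg (not_le.2 hn)]
  · rw [coeff_sub, coeff_map, hc]
    split_ifs with h
    · exact hb n
    · rw [coeff_eq_zero_of_natDegree_lt (not_le.1 h), map_zero, sub_zero, map_zero]
      exact hr0

variable {v}

/-- the difference of `s ^ 2 + f u` and its approximation -/
theorem diff_coef {f : (𝓞 F)[X]} {r : 𝓞 F} (hr : r ≠ 0) {s u : (v.adicCompletion F)[X]}
    {s' u' : (𝓞 F)[X]} (hs : ∀ n, vv v (s.coeff n) ≤ 1)
    (hs' : ∀ n, vv v ((s - s'.map (em v)).coeff n) < v.intValuation r)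
    (hu' : ∀ n, vv v ((u - u'.map (em v)).coeff n) < v.intValuation r) (n : ℕ) :
    vv v ((s ^ 2 + f.map (em v) * u - (s' ^ 2 + f * u').map (em v)).coeff n) <
      v.intValuation r := by
  obtain ⟨γ, hγ⟩ : ∃ γ : (WithZero (Multiplicative ℤ))ˣ, (γ : WithZero (Multiplicative ℤ)) =
      v.intValuation r := ⟨Units.mk0 _ (v.intValuation_ne_zero r hr), rfl⟩
  have h1 : ∀ x : v.adicCompletion F, x ∈ (vv v).ltAddSubgroup γ ↔ vv v x < v.intValuation r := by
    intro x
    rw [Valuation.mem_ltAddSubgroup_iff, hγ]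
  have h2 : ∀ q : (𝓞 F)[X], ∀ n, vv v ((q.map (em v)).coeff n) ≤ 1 := by
    intro q n
    rw [coeff_map]
    exact vv_em_le v _
  have e : s ^ 2 + f.map (em v) * u - (s' ^ 2 + f * u').map (em v) =
      (s + s'.map (em v)) * (s - s'.map (em v)) + f.map (em v) * (u - u'.map (em v)) := by
    rw [Polynomial.map_add, Polynomial.map_mul, Polynomial.map_pow]
    ring
  rw [← h1, e, coeff_add]
  refine add_mem (mul_coef (vv v) _ (lt_ok (vv v) γ) (fun k => ?_) (fun k => (h1 _).2 (hs' k)) n)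
    (mul_coef (vv v) _ (lt_ok (vv v) γ) (h2 f) (fun k => (h1 _).2 (hu' k)) n)
  rw [coeff_add]
  exact (Valuation.map_add _ _ _).trans (max_le (hs k) (h2 _ k))

theorem no_sq {g : ℕ} {f : (𝓞 F)[X]} (hm : f.Monic) (hd : f.natDegree = 2 * g + 1)
    (hi : Irreducible (f.map (Ideal.Quotient.mk v.asIdeal))) (hno : NoSq v.asIdeal f)
    {a : v.adicCompletion F} (ha : vv v a ≤ 1) {s : (v.adicCompletion F)[X]}
    (h : f.map (em v) ∣ C a - X - s ^ 2) : False := by
  haveI := v.isPrime
  haveI : IsDomain (𝓞 F ⧸ v.asIdeal) := Ideal.Quotient.isDomain v.asIdeal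
  haveI : v.asIdeal.IsMaximal := v.isPrime.isMaximal v.ne_bot
  letI : Field (𝓞 F ⧸ v.asIdeal) := Ideal.Quotient.field v.asIdeal
  have hfm : (f.map (em v)).Monic := hm.map _
  have hfd : (f.map (em v)).natDegree = 2 * g + 1 := by rw [hm.natDegree_map, hd]
  have hfc : ∀ n, vv v ((f.map (em v)).coeff n) ≤ 1 := by
    intro n
    rw [coeff_map]
    exact vv_em_le v _
  -- reduction of the degree of `s`
  obtain ⟨s₀, hs₀d, hs₀⟩ : ∃ s₀ : (v.adicCompletion F)[X], s₀.natDegree < 2 * g + 1 ∧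
      f.map (em v) ∣ C a - X - s₀ ^ 2 := by
    refine ⟨s %ₘ f.map (em v), ?_, ?_⟩
    · rw [← hfd]
      exact natDegree_modByMonic_lt s hfm (by
        intro hc
        rw [hc, natDegree_one] at hfd
        omega)
    · have h1 := modByMonic_add_div s (f.map (em v))
      obtain ⟨w, hw⟩ := h
      refine ⟨w + (s /ₘ f.map (em v)) * (s + s %ₘ f.map (em v)), ?_⟩
      linear_combination hw - (s + s %ₘ f.map (em v)) * h1
  clear h
  -- division by `f`
  have hquot : ∀ w : (v.adicCompletion F)[X], (∀ n, vv v ((f.map (em v) * w).coeff n) ≤ 1) →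
      ∀ n, vv v (w.coeff n) ≤ 1 := fun w hw n =>
    coef_quot (vv v).integer hfm hfc hw n
  have hsq : ∀ t : (v.adicCompletion F)[X], (∀ n, vv v (t.coeff n) ≤ 1) →
      ∀ n, vv v ((t ^ 2).coeff n) ≤ 1 := by
    intro t ht n
    rw [pow_two]
    exact mul_coef (vv v) (vv v).integer.toAddSubgroup (fun x y hx hy => by
      show vv v (x * y) ≤ 1
      rw [map_mul]
      exact mul_le_one' hx hy) ht ht n
  -- `s₀` is integral
  have hint : ∀ n, vv v (s₀.coeff n) ≤ 1 := by
    by_contra hc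
    push Not at hc
    obtain ⟨n₀, hn₀⟩ := hc
    obtain ⟨i, -, hi2⟩ := Finset.exists_max_image (Finset.range (s₀.natDegree + 1))
      (fun i => vv v (s₀.coeff i)) ⟨0, Finset.mem_range.2 (Nat.succ_pos _)⟩
    have hmax : ∀ n, vv v (s₀.coeff n) ≤ vv v (s₀.coeff i) := by
      intro n
      rcases Nat.lt_or_ge n (s₀.natDegree + 1) with h1 | h1
      · exact hi2 n (Finset.mem_range.2 h1)
      · rw [coeff_eq_zero_of_natDegree_lt (by omega), map_zero]
        exact zero_le'
    obtain ⟨c, hc⟩ : ∃ c, c = s₀.coeff i := ⟨_, rfl⟩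
    rw [← hc] at hmax
    have hc1 : 1 < vv v c := lt_of_lt_of_le hn₀ (hmax n₀)
    have hc0 : c ≠ 0 := by
      intro h0
      rw [h0, map_zero] at hc1
      exact absurd hc1 (not_lt.2 zero_le')
    have hci : vv v c⁻¹ < 1 := by
      rw [map_inv₀]
      exact inv_lt_one_of_one_lt₀ hc1
    obtain ⟨s₁, hs₁⟩ : ∃ s₁, s₁ = C c⁻¹ * s₀ := ⟨_, rfl⟩
    have hs₁c : ∀ n, vv v (s₁.coeff n) ≤ 1 := by
      intro n
      rw [hs₁, coeff_C_mul, map_mul, map_inv₀]
      rw [inv_mul_le_iff₀ (zero_lt_iff.2 ((Valuation.ne_zero_iff _).2 hc0)), mul_one]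
      exact hmax n
    have hs₁i : s₁.coeff i = 1 := by
      rw [hs₁, coeff_C_mul, ← hc, inv_mul_cancel₀ hc0]
    obtain ⟨u, hu⟩ := hs₀
    obtain ⟨u₁, hu₁⟩ : ∃ u₁, u₁ = C (c⁻¹) ^ 2 * u := ⟨_, rfl⟩
    have hid : f.map (em v) * u₁ = C (c⁻¹) ^ 2 * (C a - X) - s₁ ^ 2 := by
      rw [hu₁, hs₁]
      linear_combination (-(C (c⁻¹) ^ 2)) * hu
    have hsm : ∀ n, vv v ((C (c⁻¹) ^ 2 * (C a - X)).coeff n) < 1 := by
      intro n
      have h1 : C (c⁻¹) ^ 2 * (C a - X) = C ((c⁻¹) ^ 2) * (C a - X) := by rw [C_pow]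
      rw [h1, coeff_C_mul, map_mul, map_pow]
      have h2 : vv v ((C a - X : (v.adicCompletion F)[X]).coeff n) ≤ 1 := by
        rw [coeff_sub, coeff_C, coeff_X]
        refine (Valuation.map_sub _ _ _).trans (max_le ?_ ?_)
        · split_ifs
          · exact ha
          · rw [map_zero]; exact zero_le'
        · split_ifs
          · rw [map_one]
          · rw [map_zero]; exact zero_le'
      calc vv v c⁻¹ ^ 2 * _ ≤ vv v c⁻¹ ^ 2 * 1 := mul_le_mul_right h2 _
        _ = vv v c⁻¹ ^ 2 := mul_one _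
        _ < 1 := pow_lt_one₀ zero_le' hci two_ne_zero
    have hu₁c : ∀ n, vv v (u₁.coeff n) ≤ 1 := by
      apply hquot
      intro n
      rw [hid, coeff_sub]
      exact (Valuation.map_sub _ _ _).trans (max_le (hsm n).le (hsq _ hs₁c n))
    obtain ⟨s', hs'd, hs'⟩ := approx_pol v (r := 1) one_ne_zero hs₁c
    obtain ⟨u', -, hu'⟩ := approx_pol v (r := 1) one_ne_zero hu₁c
    have hone : v.intValuation (1 : 𝓞 F) = 1 := map_one _
    have hT : (s' ^ 2 + f * u').map (Ideal.Quotient.mk v.asIdeal) = 0 := by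
      ext n
      rw [coeff_map, coeff_zero, Ideal.Quotient.eq_zero_iff_mem, ← v.intValuation_lt_one_iff_mem,
        ← vv_em, ← coeff_map]
      have h1 := diff_coef (f := f) one_ne_zero hs₁c hs' hu' n
      have h2 : s₁ ^ 2 + f.map (em v) * u₁ = C (c⁻¹) ^ 2 * (C a - X) := by rw [hid]; ring
      rw [h2, hone] at h1
      have e : ((s' ^ 2 + f * u').map (em v)).coeff n =
          (C (c⁻¹) ^ 2 * (C a - X)).coeff n -
            (C (c⁻¹) ^ 2 * (C a - X) - (s' ^ 2 + f * u').map (em v)).coeff n := by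
        rw [coeff_sub]
        ring
      rw [e]
      exact lt_of_le_of_lt (Valuation.map_sub _ _ _) (max_lt (hsm n) h1)
    rw [Polynomial.map_add, Polynomial.map_mul, Polynomial.map_pow] at hT
    have h3 : f.map (Ideal.Quotient.mk v.asIdeal) ∣ (s'.map (Ideal.Quotient.mk v.asIdeal)) ^ 2 :=
      ⟨-(u'.map (Ideal.Quotient.mk v.asIdeal)), by linear_combination hT⟩
    have h4 := hi.prime.dvd_of_dvd_pow h3
    have h5 : s'.map (Ideal.Quotient.mk v.asIdeal) = 0 := by
      apply eq_zero_of_dvd_of_natDegree_lt h4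
      rw [hm.natDegree_map, hd]
      refine lt_of_le_of_lt (natDegree_map_le.trans hs'd) ?_
      rw [hs₁]
      exact lt_of_le_of_lt (natDegree_C_mul_le _ _) hs₀d
    have h6 : s'.coeff i ∈ v.asIdeal := by
      rw [← Ideal.Quotient.eq_zero_iff_mem, ← coeff_map, h5, coeff_zero]
    rw [← v.intValuation_lt_one_iff_mem, ← vv_em] at h6
    have h7 := hs' i
    rw [coeff_sub, hs₁i, hone, coeff_map] at h7
    have h8 : vv v (1 : v.adicCompletion F) < 1 := by
      have e : (1 : v.adicCompletion F) = (1 - em v (s'.coeff i)) + em v (s'.coeff i) := by ring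
      rw [e]
      exact lt_of_le_of_lt (Valuation.map_add _ _ _) (max_lt h7 h6)
    rw [map_one] at h8
    exact lt_irrefl _ h8
  -- reduction modulo the square
  obtain ⟨u, hu⟩ := hs₀
  have hax : ∀ n, vv v ((C a - X : (v.adicCompletion F)[X]).coeff n) ≤ 1 := by
    intro n
    rw [coeff_sub, coeff_C, coeff_X]
    refine (Valuation.map_sub _ _ _).trans (max_le ?_ ?_)
    · split_ifs
      · exact ha
      · rw [map_zero]; exact zero_le'
    · split_ifs
      · rw [map_one]
      · rw [map_zero]; exact zero_le'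
  have huc : ∀ n, vv v (u.coeff n) ≤ 1 := by
    apply hquot
    intro n
    rw [← hu, coeff_sub]
    exact (Valuation.map_sub _ _ _).trans (max_le (hax n) (hsq _ hint n))
  obtain ⟨π, hπ⟩ := v.intValuation_exists_uniformizer
  have hπ0 : π ≠ 0 := by
    rintro rfl
    rw [map_zero] at hπ
    exact absurd hπ.symm (WithZero.exp_ne_zero)
  obtain ⟨s', -, hs'⟩ := approx_pol v hπ0 hint
  obtain ⟨u', -, hu'⟩ := approx_pol v hπ0 huc
  obtain ⟨a', ha'⟩ := approx v hπ0 ha
  refine hno a' s' u' fun n => ?_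
  rw [← v.intValuation_le_pow_iff_mem, ← vv_em, ← coeff_map]
  have h1 := diff_coef (f := f) hπ0 hint hs' hu' n
  have h2 : s₀ ^ 2 + f.map (em v) * u = C a - X := by linear_combination -hu
  rw [h2] at h1
  have e : ((C a' - X - (s' ^ 2 + f * u')).map (em v)).coeff n =
      (C a - X - (s' ^ 2 + f * u').map (em v)).coeff n - (C (a - em v a')).coeff n := by
    rw [← coeff_sub]
    congr 1
    rw [Polynomial.map_sub, Polynomial.map_sub, map_C, Polynomial.map_X, C_sub]
    ring
  have h3 : vv v ((C (a - em v a') : (v.adicCompletion F)[X]).coeff n) < v.intValuation π := by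
    rw [coeff_C]
    split_ifs
    · exact ha'
    · rw [map_zero, hπ]
      exact WithZero.exp_pos
  have h4 : vv v (((C a' - X - (s' ^ 2 + f * u')).map (em v)).coeff n) < v.intValuation π := by
    rw [e]
    exact lt_of_le_of_lt (Valuation.map_sub _ _ _) (max_lt h1 h3)
  rw [hπ] at h4
  generalize vv v (((C a' - X - (s' ^ 2 + f * u')).map (em v)).coeff n) = x at h4
  by_cases hx : x = 0
  · rw [hx]
    exact zero_le'
  · rw [← WithZero.log_lt_iff_lt_exp hx] at h4
    rw [← WithZero.log_le_iff_le_exp hx]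
    push_cast
    omega

theorem no_root {g : ℕ} (hg : 1 ≤ g) {f : (𝓞 F)[X]} (hm : f.Monic)
    (hd : f.natDegree = 2 * g + 1) (hi : Irreducible (f.map (Ideal.Quotient.mk v.asIdeal)))
    {a : v.adicCompletion F} (ha : vv v a ≤ 1) (h : (f.map (em v)).eval a = 0) : False := by
  haveI := v.isPrime
  haveI : IsDomain (𝓞 F ⧸ v.asIdeal) := Ideal.Quotient.isDomain v.asIdeal
  have hfc : ∀ n, vv v ((f.map (em v)).coeff n) ≤ 1 := by
    intro n
    rw [coeff_map]
    exact vv_em_le v _
  obtain ⟨q, hq⟩ := dvd_iff_isRoot.2 h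
  have hXc : ∀ n, vv v ((X - C a : (v.adicCompletion F)[X]).coeff n) ≤ 1 := by
    intro n
    rw [coeff_sub, coeff_X, coeff_C]
    refine (Valuation.map_sub _ _ _).trans (max_le ?_ ?_)
    · split_ifs
      · rw [map_one]
      · rw [map_zero]; exact zero_le'
    · split_ifs
      · exact ha
      · rw [map_zero]; exact zero_le'
  have hqc : ∀ n, vv v (q.coeff n) ≤ 1 := fun n =>
    coef_quot (vv v).integer (monic_X_sub_C a) hXc (fun k => by rw [← hq]; exact hfc k) n
  obtain ⟨q', -, hq'⟩ := approx_pol v (r := 1) one_ne_zero hqc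
  obtain ⟨a', ha'⟩ := approx v (r := 1) one_ne_zero ha
  rw [map_one] at ha'
  simp only [map_one] at hq'
  have h1 : ∀ x : v.adicCompletion F, x ∈ (vv v).ltAddSubgroup 1 ↔ vv v x < 1 := by
    intro x
    rw [Valuation.mem_ltAddSubgroup_iff, Units.val_one]
  have hred : f.map (Ideal.Quotient.mk v.asIdeal) =
      (X - C (Ideal.Quotient.mk v.asIdeal a')) * q'.map (Ideal.Quotient.mk v.asIdeal) := by
    have e1 : (X - C (Ideal.Quotient.mk v.asIdeal a')) * q'.map (Ideal.Quotient.mk v.asIdeal) =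
        ((X - C a') * q').map (Ideal.Quotient.mk v.asIdeal) := by
      rw [Polynomial.map_mul, Polynomial.map_sub, Polynomial.map_X, Polynomial.map_C]
    rw [e1]
    ext n
    rw [coeff_map, coeff_map, Ideal.Quotient.eq, ← v.intValuation_lt_one_iff_mem, ← vv_em,
      ← coeff_sub, ← coeff_map]
    have e2 : (f - (X - C a') * q').map (em v) = (X - C a) * (q - q'.map (em v)) +
        q'.map (em v) * C (-(a - em v a')) := by
      rw [Polynomial.map_sub, Polynomial.map_mul, Polynomial.map_sub, Polynomial.map_X,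
        Polynomial.map_C, hq, C_neg, C_sub]
      ring
    rw [e2, coeff_add, ← h1]
    refine add_mem (mul_coef (vv v) _ (lt_ok (vv v) 1) hXc (fun k => (h1 _).2 (hq' k)) n)
      (mul_coef (vv v) _ (lt_ok (vv v) 1) (fun k => ?_) (fun k => ?_) n)
    · rw [coeff_map]
      exact vv_em_le v _
    · rw [h1, coeff_C]
      split_ifs
      · rw [Valuation.map_neg]
        exact ha'
      · rw [map_zero]
        exact zero_lt_one
  have h3 := hi.isUnit_or_isUnit hred
  have hdeg : (f.map (Ideal.Quotient.mk v.asIdeal)).natDegree = 2 * g + 1 := by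
    rw [hm.natDegree_map, hd]
  rcases h3 with h3 | h3
  · exact not_isUnit_X_sub_C _ h3
  · have h4 := natDegree_eq_zero_of_isUnit h3
    rw [hred, (monic_X_sub_C _).natDegree_mul' (by
      intro h0
      rw [h0, mul_zero] at hred
      exact (hm.map (Ideal.Quotient.mk v.asIdeal)).ne_zero hred), natDegree_X_sub_C, h4] at hdeg
    omega

end adic

end Pool.Agent.Helper29J
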