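import Pool.Agent.Helper29J.LocalReal
import Pool.Agent.Helper29J.Defs
import Pool.Agent.Y228.SE.Pic

/-!
# The classes of points in terms of modules
-/

set_option autoImplicit false
set_option linter.all false

open Polynomial IsDedekindDomain NumberField

namespace Pool.Agent.Helper29J

open Pool.Agent.Y160.SE
open Pool.Agent.TH115.GD (incl rs ak)

section cls

variable {K L : Type} [Field K] [Field L] [Algebra K L] {f : K[X]} (hg : Good 2 (-1 : K) f)

include hg

theorem isCl_of_equiv {I : Ideal (CR 2 (f.map (algebraMap K L)))} (hI : I ≠ ⊥)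
    {y : CommRing.Pic (CR 2 (f.map (algebraMap K L)))}
    (h : Nonempty (I ≃ₗ[CR 2 (f.map (algebraMap K L))] y.AsModule)) :
    IsCl L I (Additive.ofMul y) := by
  haveI := hyps.ring 2 L _ _ (hg.up L)
  have hI' := mem_nonZeroDivisors_of_ne_zero hI
  haveI := Pool.Agent.Y228.SE.inv_ideal I hI'
  refine ⟨inferInstance, hI, ?_⟩
  rw [Pool.Agent.Y228.SE.equivPic_mk0 I hI']
  congr 1
  exact (CommRing.Pic.mk_eq_iff.2 h).symm

theorem equiv_of_isCl {I : Ideal (CR 2 (f.map (algebraMap K L)))}
    {x : Jac 2 f L} (h : IsCl L I x) :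
    Nonempty (I ≃ₗ[CR 2 (f.map (algebraMap K L))] (Additive.toMul x).AsModule) := by
  obtain ⟨h1, hI, hx⟩ := h
  have hI' := mem_nonZeroDivisors_of_ne_zero hI
  haveI := Pool.Agent.Y228.SE.inv_ideal I hI'
  rw [Pool.Agent.Y228.SE.equivPic_mk0 I hI'] at hx
  rw [hx]
  exact CommRing.Pic.mk_eq_iff.1 rfl

theorem isClass_some {P : Defs.Affine f L} {x : Defs.J f L} :
    Defs.IsClass f (some P : Defs.Curve f L) x ↔
      IsCl L (ptI 2 (f.map (algebraMap K L)) P.1.1 P.1.2) (-(Additive.ofMul x : Jac 2 f L)) := by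
  constructor
  · intro h
    exact isCl_of_equiv hg (pt_ne_bot P.1) h
  · intro h
    exact equiv_of_isCl hg h

end cls

end Pool.Agent.Helper29J
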