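import Pool.Agent.Helper29J.Grp
import Pool.Agent.N352.JB.All

/-!
# The descent map `x - T` at points which are divisible by two
-/

set_option autoImplicit false
set_option linter.all false

open Polynomial IsDedekindDomain

namespace Pool.Agent.Helper29J

open Pool.Agent.Y160.SE
open Pool.Agent.TH115.GD (incl rs ak)
open Pool.Agent.N424.JB (dvd_of_roots rt_up)

section sq

variable {K L Ω : Type} [Field K] [Field L] [Field Ω] [Algebra K L] [Algebra L Ω]
  [Algebra K Ω] [IsScalarTower K L Ω] [IsSepClosed Ω] [IsGalois L Ω] {f : K[X]}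
  (hg : Good 2 (-1 : K) f)

omit [IsScalarTower K L Ω] [IsSepClosed Ω] [IsGalois L Ω] [Algebra L Ω] [Algebra K L] in
theorem pe_two (P : Jac 2 f Ω) : pe hg Ω (1 - X) P = 2 • P := by
  have h1 := pe_nrm hyps hg P
  have h2 : nrm 2 = (1 : ℤ[X]) + X := by
    unfold nrm
    rw [Finset.sum_range_succ, Finset.sum_range_one, pow_zero, pow_one]
  rw [h2, pe_add, pe_one] at h1
  rw [pe_sub, pe_one, two_nsmul, sub_eq_add_neg]
  congr 1
  exact (eq_neg_of_add_eq_zero_left h1).symm

/-- the values of the norm of an ideal whose class is divisible by two -/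
theorem norm_sq {I : Ideal (CR 2 (f.map (algebraMap K L)))} {Q D : Jac 2 f L} (hQ : IsCl L I Q)
    (hI : I ⊔ Ideal.span {yy 2 (f.map (algebraMap K L))} = ⊤) {G : L[X]}
    (hG : IsCoprime G (f.map (algebraMap K L)))
    (hN : ∏ i ∈ Finset.range 2, I.map ((hg.up L).tw ^ i) = Ideal.span {xp 2 _ G})
    (hD : 2 • jm 2 f (incl K L Ω) D = jm 2 f (incl K L Ω) Q) :
    ∃ s : L[X], ∀ β : Ω, Rt f β → aeval β s ^ 2 *
      ((f.map (algebraMap K Ω)).roots.map fun β' => aeval β' G).prod =
        aeval β G ^ f.natDegree := by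
  obtain ⟨t, ht1, ht2⟩ := kcJ hyps hg hQ hI hG hN (P := jm 2 f (incl K L Ω) D) (by
    rw [pe_two hg, hD])
  have hfix : ∀ τ : Ω ≃ₐ[L] Ω, jm 2 f (rs K τ) (jm 2 f (incl K L Ω) D) =
      jm 2 f (incl K L Ω) D := by
    intro τ
    have e : (rs K τ).comp (incl K L Ω) = incl K L Ω := AlgHom.ext fun z => τ.commutes z
    rw [jm_jm, e]
  have heq : ∀ (τ : Ω ≃ₐ[L] Ω) (e : Ω), Rt (f.map (algebraMap K L)) e → τ (t e) = t (τ e) := by
    intro τ e he
    rw [rt_up] at he
    have h0 : jm 2 f (rs K τ) (jm 2 f (incl K L Ω) D) - jm 2 f (incl K L Ω) D = 0 := by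
      rw [hfix, sub_self]
    have h1 := ht2 τ e he (by rw [h0]; exact Tor.zero)
    have hτe : Rt f (τ e) := he.map (rs K τ)
    rw [h0, chi_zero hyps hg hτe, one_mul] at h1
    exact h1
  obtain ⟨s, hs⟩ := Pool.Agent.N615.JB.lag L Ω (f.map (algebraMap K L)) (hg.up L).sep t heq
  refine ⟨s, fun β hβ => ?_⟩
  have h1 := hs β ((rt_up f β).2 hβ)
  rw [h1]
  exact (ht1 β hβ).2.2

include hg in
/-- **The descent map at a point which is divisible by two.** -/
theorem point_sq (ho : Odd f.natDegree) {a b : L}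
    (hab : b ^ 2 = (f.map (algebraMap K L)).eval a) (hb : b ≠ 0) {Q D : Jac 2 f L}
    (hQ : IsCl L (ptI 2 (f.map (algebraMap K L)) a b) Q)
    (hD : 2 • jm 2 f (incl K L Ω) D = jm 2 f (incl K L Ω) Q) :
    ∃ s : L[X], f.map (algebraMap K L) ∣ C a - X - s ^ 2 := by
  have hfa : (f.map (algebraMap K L)).eval a ≠ 0 := by
    rw [← hab]
    exact pow_ne_zero 2 hb
  have hcop : IsCoprime (X - C a) (f.map (algebraMap K L)) := by
    rw [(irreducible_X_sub_C a).coprime_iff_not_dvd, dvd_iff_isRoot]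
    exact hfa
  obtain ⟨s, hs⟩ := norm_sq (Ω := Ω) hg hQ (ptI_cop hb) hcop (ptI_norm hyps.max (hg.up L) hab hb) hD
  -- the product of the values
  have hsp : (f.map (algebraMap K Ω)).Splits := splits_up hg
  have hmon : (f.map (algebraMap K Ω)).Monic := hg.monic.map _
  have hprod : ((f.map (algebraMap K Ω)).roots.map fun β' => aeval β' (X - C a)).prod =
      -(algebraMap L Ω b) ^ 2 := by
    have h1 : ((f.map (algebraMap K Ω)).roots.map fun β' => aeval β' (X - C a)) =
        ((f.map (algebraMap K Ω)).roots.map fun β' => (algebraMap L Ω a - β')).map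
          fun z => -1 * z := by
      rw [Multiset.map_map]
      apply Multiset.map_congr rfl
      intro β' _
      simp
    rw [h1, Multiset.prod_map_mul, Multiset.map_const', Multiset.prod_replicate,
      Multiset.card_map, Multiset.map_id', ← hsp.eval_eq_prod_roots_of_monic hmon,
      splits_iff_card_roots.1 hsp, natDegree_map, ho.neg_one_pow]
    have h2 : (f.map (algebraMap K Ω)).eval (algebraMap L Ω a) =
        algebraMap L Ω ((f.map (algebraMap K L)).eval a) := by
      rw [IsScalarTower.algebraMap_eq K L Ω, ← Polynomial.map_map, eval_map_apply]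
    rw [h2, ← hab, map_pow]
    ring
  -- `(a - X) ^ n` is a square
  have hdv : f.map (algebraMap K L) ∣ (C a - X) ^ f.natDegree - (C b * s) ^ 2 := by
    refine dvd_of_roots (Ω := Ω) (hg.up L).sep (by rw [map_L]; exact hsp) fun β hβ => ?_
    have h1 := hs β ((rt_up f β).1 hβ)
    rw [hprod] at h1
    simp only [map_sub, map_pow, map_mul, aeval_C, aeval_X] at h1 ⊢
    have h2 : (algebraMap L Ω a - β) ^ f.natDegree = -((β - algebraMap L Ω a) ^ f.natDegree) := by
      rw [← ho.neg_pow]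
      congr 1
      ring
    rw [h2, ← h1]
    ring
  obtain ⟨k, hk⟩ := ho
  obtain ⟨u, v, huv⟩ := hcop
  -- the inverse of `a - X`
  have hinv : f.map (algebraMap K L) ∣ (C a - X) * (-u) - 1 := ⟨-v, by linear_combination huv⟩
  refine ⟨C b * s * (-u) ^ k, ?_⟩
  obtain ⟨w, hw⟩ := hdv
  have h3 : f.map (algebraMap K L) ∣ ((C a - X) * (-u)) ^ (2 * k) - 1 := by
    have h4 := sub_dvd_pow_sub_pow ((C a - X) * (-u)) 1 (2 * k)
    rw [one_pow] at h4
    exact hinv.trans h4
  have e : C a - X - (C b * s * (-u) ^ k) ^ 2 =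
      -((C a - X) * (((C a - X) * (-u)) ^ (2 * k) - 1)) +
        ((C a - X) ^ f.natDegree - (C b * s) ^ 2) * ((-u) ^ k) ^ 2 := by
    have gen : ∀ Y U B S : L[X], Y - (B * S * U ^ k) ^ 2 =
        -(Y * ((Y * U) ^ (2 * k) - 1)) + (Y ^ (2 * k + 1) - (B * S) ^ 2) * (U ^ k) ^ 2 := by
      intro Y U B S
      rw [mul_pow Y U]
      ring
    rw [hk]
    exact gen _ _ _ _
  rw [e]
  refine dvd_add ((dvd_neg).2 (Dvd.dvd.mul_left h3 _)) (Dvd.dvd.mul_right ⟨w, hw⟩ _)

end sq

end Pool.Agent.Helper29J
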