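import Pool.Agent.N783.PF.Final
import Pool.Agent.Helper29J.NoSq

/-!
The family of polynomials with a prescribed residue modulo the squares of the primes above `2`
(the proof of the count is the one of `Pool.Agent.N951.PF.fam`, helper951).
-/

set_option autoImplicit false
set_option linter.all false

open Polynomial NumberField IsDedekindDomain
open scoped Classical

namespace Pool.Agent.Helper29J

open Pool.Agent.N951.PF
open Pool.Agent.N352.PJ (dd pol dis Dy D2)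
open Pool.Agent.N352.PF (dg Bal nv rv Bz Bx S_BX S_SML S_WK S_STR S_DSC S_GF S_PF)
open Pool.Agent.N783.PF (Bd Cg sp rd Ht GoodS GoodF Fam S_FAM)

theorem famX (h1 : S_BX) (h2 : S_SML) (h3 : S_WK) (h4 : S_STR) (h5 : S_DSC)
    (h7 : S_PF) (F : Type) [Field F] [NumberField F] (g : ℕ) (hg : 1 ≤ g) : ∃ M : ℕ,
    ∀ (W : ℕ) (f₁ : (𝓞 F)[X]), GoodF g W f₁ → (∀ p : ℕ, p.Prime → p ≤ M → p ∣ W) →
    ∃ c : ℝ, 0 < c ∧ ∀ (S : Finset ℕ) (𝔮 : ℕ → Ideal (𝓞 F)) (h P : ℕ → (𝓞 F)[X]),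
    GoodS g W S 𝔮 h P → ∃ B₀ : ℕ, ∀ B ≥ B₀,
    c * (B : ℝ) ^ (Module.finrank ℚ F * dd g) ≤
      (((∏ q ∈ S, q ^ (2 * g)) ^ Module.finrank ℚ F : ℕ) : ℝ) *
      ({f : (𝓞 F)[X] | Fam g B W f₁ S P f}.ncard : ℝ) := by
  obtain ⟨M, C₂, hC₂, hM⟩ := h2 F g hg
  obtain ⟨C₁, hC₁, hBX⟩ := h1 F g
  refine ⟨max M (2 * g + 1), fun W f₁ hgood hW => ?_⟩
  have hmon := hgood.mon
  have hdeg := hgood.deg
  have htr := hgood.tr
  have hW0 := hgood.pos
  have hsep : ∀ v : HeightOneSpectrum (𝓞 F), (W : 𝓞 F) ∈ v.asIdeal → (rv v f₁).Separable :=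
    fun v hv => hgood.sep v.asIdeal v.isPrime hv
  have hne : ∀ (𝔭 : Ideal (𝓞 F)) (n : ℕ), 0 < n → (n : 𝓞 F) ∈ 𝔭 → 𝔭 ≠ ⊥ := by
    intro 𝔭 n hn hm h0
    rw [h0, Ideal.mem_bot] at hm
    have : n = 0 := by exact_mod_cast hm
    omega
  refine ⟨1 / (2 * C₁ * (W : ℝ) ^ (2 * g * dg F)), by positivity,
    fun S 𝔮 h P hS => ?_⟩
  obtain ⟨Q, hQ⟩ : ∃ Q : ℕ, Q = ∏ q ∈ S, q := ⟨_, rfl⟩
  have hQ0 : 0 < Q := by
    rw [hQ]
    exact Finset.prod_pos fun q hq => (hS q hq).1.pos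
  have hWQ : 0 < W * Q := Nat.mul_pos hW0 hQ0
  -- residues
  have hcrt : ∀ j : Fin (2 * g), ∃ x : 𝓞 F, (W : 𝓞 F) ∣ x - f₁.coeff j ∧
      ∀ q ∈ S, (q : 𝓞 F) ∣ x - (P q).coeff j := fun j =>
    crt W S (fun q hq => ⟨(hS q hq).1, fun hd =>
      absurd (Nat.le_of_dvd hW0 hd) (by have := (hS q hq).2.1; omega)⟩) _ _
  choose A hA1 hA2 using hcrt
  obtain ⟨B₁, hB₁⟩ := h4 F g hg (1 / (4 * C₁ * ((W * Q : ℕ) : ℝ) ^ (2 * g * dg F))) (by positivity)
  refine ⟨max B₁ (max (C₁ * (W * Q)) (C₂ * (W * Q))), fun B hB => ?_⟩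
  have hBB1 : B₁ ≤ B := (le_max_left _ _).trans hB
  have hBC1 : C₁ * (W * Q) ≤ B := ((le_max_left _ _).trans (le_max_right _ _)).trans hB
  have hBC2 : C₂ * (W * Q) ≤ B := ((le_max_right _ _).trans (le_max_right _ _)).trans hB
  obtain ⟨hfin, hcard, -⟩ := hBX B (W * Q) A hWQ hBC1
  obtain ⟨hfin0, -, -⟩ := hBX B 1 (fun _ => 0) one_pos
    (le_trans (Nat.mul_le_mul_left C₁ hWQ) hBC1)
  have hBz : (Bz F g B).Finite := by
    refine hfin0.subset ?_
    intro a ha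
    exact ⟨ha, fun j => by simp⟩
  have hsml := hM B (W * Q) A hWQ hBC2
  have hstr := hB₁ B hBB1
  set U := Bx g B (W * Q) A with hU
  set U1 := {a ∈ U | ∃ v : HeightOneSpectrum (𝓞 F), M < nv v ∧ nv v ^ 2 < B ^ dg F ∧
    ((W * Q : ℕ) : 𝓞 F) ∉ v.asIdeal ∧ dis a ∈ v.asIdeal ^ 2} with hU1
  set U2 := {a ∈ Bz F g B | ∃ v : HeightOneSpectrum (𝓞 F), B ^ dg F ≤ nv v ^ 2 ∧
    dis a ∈ v.asIdeal ∧ D2 a ∈ v.asIdeal} with hU2
  have hU1f : U1.Finite := hfin.subset (Set.sep_subset _ _)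
  have hU2f : U2.Finite := hBz.subset (Set.sep_subset _ _)
  -- the good ones are in the family
  have key : pol '' (U \ (U1 ∪ U2)) ⊆ {f : (𝓞 F)[X] | Fam g B W f₁ S P f} := by
    rintro _ ⟨a, ⟨haU, ha⟩, rfl⟩
    have haB : a ∈ Bz F g B := haU.1
    have haR : ∀ j, ((W * Q : ℕ) : 𝓞 F) ∣ a j - A j := haU.2
    have hone : Cg (sp F W) (pol a) f₁ := by
      apply cg_pol a hmon hdeg htr
      intro j
      rw [Ideal.mem_span_singleton]
      have e1 : (W : 𝓞 F) ∣ a j - A j := dvd_trans (by push_cast; exact dvd_mul_right _ _) (haR j)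
      have e2 : a j - f₁.coeff j = (a j - A j) + (A j - f₁.coeff j) := by ring
      rw [e2]
      exact dvd_add e1 (hA1 j)
    have hcon : ∀ q ∈ S, Cg (sp F q) (pol a) (P q) := by
      intro q hq
      obtain ⟨hq1, hq2, hq3, hq4, hq5, hq6, hq7, hq8, hq9, hq10, hq11, hq12, hq13, hq14, hq15⟩ :=
        hS q hq
      apply cg_pol a hq11 hq12 hq13
      intro j
      rw [Ideal.mem_span_singleton]
      have e0 : (q : 𝓞 F) ∣ ((W * Q : ℕ) : 𝓞 F) := by
        have e3 : q ∣ W * Q := by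
          rw [hQ]
          exact Dvd.dvd.mul_left (Finset.dvd_prod_of_mem (fun q => q) hq) W
        exact Nat.cast_dvd_cast e3
      have e1 : (q : 𝓞 F) ∣ a j - A j := dvd_trans e0 (haR j)
      have e2 : a j - (P q).coeff j = (a j - A j) + (A j - (P q).coeff j) := by ring
      rw [e2]
      exact dvd_add e1 (hA2 j q hq)
    refine ⟨ht_pol haB, hone, hcon, fun 𝔭 hp hb hPd => ?_⟩
    obtain ⟨v, hv⟩ : ∃ v : HeightOneSpectrum (𝓞 F), v.asIdeal = 𝔭 := ⟨⟨𝔭, hp, hb⟩, rfl⟩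
    subst hv
    have hPd' : dis a ∈ v.asIdeal ^ 2 := hPd
    have hPd1 : Pool.Agent.N352.PF.dsc g (pol a) ∈ v.asIdeal :=
      Ideal.pow_le_self two_ne_zero hPd
    haveI : Finite (𝓞 F ⧸ v.asIdeal) := v.asIdeal.finiteQuotientOfFreeOfNeBot v.ne_bot
    haveI : IsDomain (𝓞 F ⧸ v.asIdeal) := Ideal.Quotient.isDomain v.asIdeal
    have hPW : (W : 𝓞 F) ∉ v.asIdeal := by
      intro hd
      refine h5 F g v (pol a) f₁ hg (pol_monic a) (pol_natDegree a) ?_ (hsep v hd) hPd1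
      intro j
      exact (Ideal.span_singleton_le_iff_mem _).2 hd (hone j)
    have hPS : ∀ q ∈ S, (q : 𝓞 F) ∉ v.asIdeal := by
      intro q hq hd
      obtain ⟨hq1, hq2, hq3, hq4, hq5, hq6, hq7, hq8, hq9, hq10, hq11, hq12, hq13, hq14, hq15⟩ :=
        hS q hq
      have hc : ∀ j, (pol a).coeff j - (P q).coeff j ∈ v.asIdeal := fun j =>
        (Ideal.span_singleton_le_iff_mem _).2 hd (hcon q hq j)
      by_cases hv : v.asIdeal = 𝔮 q
      · refine h5 F g v (pol a) (X * h q) hg (pol_monic a) (pol_natDegree a) ?_ ?_ hPd1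
        · intro j
          have e1 : (pol a).coeff j - (X * h q).coeff j =
              ((pol a).coeff j - (P q).coeff j) + ((P q).coeff j - (X * h q).coeff j) := by ring
          rw [e1]
          refine Ideal.add_mem _ (hc j) ?_
          rw [hv]
          exact hq14 j
        · have e1 : rv v (X * h q) = X * rv v (h q) := by
            rw [rv, rv, Polynomial.map_mul, Polynomial.map_X]
          rw [e1]
          have e2 : Irreducible (rv v (h q)) := by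
            have e3 : Irreducible (rd v.asIdeal (h q)) := by
              rw [hv]
              exact hq10
            exact e3
          refine sep_X_mul e2 ?_
          rw [rv, hq8.natDegree_map, hq9]
          omega
      · refine h5 F g v (pol a) (P q) hg (pol_monic a) (pol_natDegree a) hc ?_ hPd1
        exact sep_of_irr (hq15 v.asIdeal v.isPrime hd hv)
    have hPQ : ((W * Q : ℕ) : 𝓞 F) ∉ v.asIdeal := by
      intro hd
      rw [Nat.cast_mul] at hd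
      rcases v.isPrime.mem_or_mem hd with hd | hd
      · exact hPW hd
      · rw [hQ, Nat.cast_prod] at hd
        obtain ⟨q, hq, hqm⟩ := (Ideal.IsPrime.prod_mem_iff (hp := v.isPrime)).1 hd
        exact hPS q hq hqm
    have hsmall : ∀ n : ℕ, 0 < n → (n : 𝓞 F) ∈ v.asIdeal →
        (∀ p : ℕ, p.Prime → p ∣ n → p ≤ max M (2 * g + 1)) → False := by
      intro n hn hm hle
      obtain ⟨p, hp1, hp2, hp3⟩ := prime_factor v.asIdeal v.isPrime n hn hm
      have e1 := hW p hp1 (hle p hp1 hp2)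
      apply hPW
      obtain ⟨m, hm⟩ := e1
      rw [hm, Nat.cast_mul]
      exact Ideal.mul_mem_right _ _ hp3
    have hfac : ((2 * g + 1).factorial : 𝓞 F) ∉ v.asIdeal := by
      intro hd
      refine hsmall _ (Nat.factorial_pos _) hd fun p hp hpd => ?_
      exact ((hp.dvd_factorial).1 hpd).trans (le_max_right _ _)
    have hPM1 : M < nv v := by
      by_contra hc
      have hnv2 : 2 ≤ nv v := (h7 F).2.2 v
      refine hsmall (nv v) (by omega) (Ideal.absNorm_mem v.asIdeal) fun p hp hpd => ?_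
      have e1 := Nat.le_of_dvd (by omega) hpd
      exact (e1.trans (not_lt.1 hc)).trans (le_max_left _ _)
    have hBP : B ^ dg F ≤ nv v ^ 2 := by
      by_contra hc
      exact ha (Or.inl ⟨haU, v, hPM1, not_le.1 hc, hPQ, hPd'⟩)
    refine ⟨hBP, h3 F g v hg hfac a hPd' fun hD => ?_⟩
    exact ha (Or.inr ⟨haB, v, hBP, hPd1, hD⟩)
  -- finiteness of the family
  have hFf : {f : (𝓞 F)[X] | Fam g B W f₁ S P f}.Finite := by
    refine (hBz.image pol).subset ?_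
    intro f hf
    exact ⟨fun j => f.coeff j, bz_coeff hf.ht, (eq_pol hf.ht).symm⟩
  -- counting
  have c1 : (U \ (U1 ∪ U2)).ncard ≤ {f : (𝓞 F)[X] | Fam g B W f₁ S P f}.ncard := by
    rw [← Set.ncard_image_of_injective _ pol_inj]
    exact Set.ncard_le_ncard key hFf
  have c2 : U.ncard ≤ (U \ (U1 ∪ U2)).ncard + (U1.ncard + U2.ncard) := by
    have e1 := Set.ncard_le_ncard_diff_add_ncard U (U1 ∪ U2) (hU1f.union hU2f)
    have e2 := Set.ncard_union_le U1 U2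
    omega
  have c3 : (4 : ℝ) * U1.ncard ≤ U.ncard := by exact_mod_cast hsml
  have hC0 : (0 : ℝ) < C₁ := by exact_mod_cast hC₁
  have c4 : (B : ℝ) ^ (dg F * dd g) ≤
      C₁ * U.ncard * ((W * Q : ℕ) : ℝ) ^ (2 * g * dg F) := by exact_mod_cast hcard
  have hP0 : (0 : ℝ) < ((W * Q : ℕ) : ℝ) ^ (2 * g * dg F) := by positivity
  have c5 : (4 : ℝ) * U2.ncard ≤ U.ncard := by
    have e1 : (U2.ncard : ℝ) ≤ 1 / (4 * C₁ * ((W * Q : ℕ) : ℝ) ^ (2 * g * dg F)) *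
        (C₁ * U.ncard * ((W * Q : ℕ) : ℝ) ^ (2 * g * dg F)) :=
      hstr.trans (mul_le_mul_of_nonneg_left c4 (by positivity))
    have e2 : 1 / (4 * C₁ * ((W * Q : ℕ) : ℝ) ^ (2 * g * dg F)) *
        (C₁ * U.ncard * ((W * Q : ℕ) : ℝ) ^ (2 * g * dg F)) = U.ncard / 4 := by
      field_simp
    rw [e2] at e1
    linarith
  have c6 : (U.ncard : ℝ) ≤ 2 * ({f : (𝓞 F)[X] | Fam g B W f₁ S P f}.ncard : ℝ) := by
    have e1 : (U.ncard : ℝ) ≤ ((U \ (U1 ∪ U2)).ncard : ℝ) + (U1.ncard + U2.ncard) := by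
      exact_mod_cast c2
    have e2 : ((U \ (U1 ∪ U2)).ncard : ℝ) ≤
        ({f : (𝓞 F)[X] | Fam g B W f₁ S P f}.ncard : ℝ) := by
      exact_mod_cast c1
    linarith
  have c7 : (((∏ q ∈ S, q ^ (2 * g)) ^ Module.finrank ℚ F : ℕ) : ℝ) =
      (Q : ℝ) ^ (2 * g * dg F) := by
    rw [hQ, Finset.prod_pow]
    push_cast
    rw [← pow_mul]
  rw [c7]
  have hW1 : (0 : ℝ) < (W : ℝ) ^ (2 * g * dg F) := by positivity
  have c8 : (B : ℝ) ^ (dg F * dd g) ≤
      C₁ * (2 * ({f : (𝓞 F)[X] | Fam g B W f₁ S P f}.ncard : ℝ)) *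
      ((W * Q : ℕ) : ℝ) ^ (2 * g * dg F) :=
    c4.trans (mul_le_mul_of_nonneg_right (mul_le_mul_of_nonneg_left c6 hC0.le) hP0.le)
  rw [one_div_mul_eq_div, div_le_iff₀ (by positivity)]
  refine c8.trans (le_of_eq ?_)
  push_cast
  rw [mul_pow]
  ring


theorem nonbot {F : Type} [Field F] [NumberField F] (𝔭 : Ideal (𝓞 F)) (n : ℕ) (hn : 0 < n)
    (hm : (n : 𝓞 F) ∈ 𝔭) : 𝔭 ≠ ⊥ := by
  intro h0
  rw [h0, Ideal.mem_bot] at hm
  have : n = 0 := by exact_mod_cast hm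
  omega

/-- a good polynomial with the property `NoSq` at all primes above `2` -/
theorem exists_f₂ {F : Type} [Field F] [NumberField F] {g W : ℕ} (hg : 1 ≤ g) {f₁ : (𝓞 F)[X]}
    (h : GoodF g W f₁) : ∃ f₂ : (𝓞 F)[X], GoodF g (8 * W) f₂ ∧
      ∀ v : HeightOneSpectrum (𝓞 F), (2 : 𝓞 F) ∈ v.asIdeal → NoSq v.asIdeal f₂ := by
  have hW0 : (W : 𝓞 F) ≠ 0 := by exact_mod_cast h.pos.ne'
  have hWi : Ideal.span {(W : 𝓞 F)} ≠ 0 := by
    rw [Ne, Ideal.zero_eq_bot, Ideal.span_singleton_eq_bot]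
    exact hW0
  have hfin := Ideal.finite_factors hWi
  -- the local targets
  have hloc : ∀ v : HeightOneSpectrum (𝓞 F), ∃ t : (𝓞 F)[X], t.Monic ∧ t.natDegree = 2 * g + 1 ∧
      t.coeff (2 * g) = 0 ∧ (∀ n, t.coeff n - f₁.coeff n ∈ v.asIdeal) ∧
      ((2 : 𝓞 F) ∈ v.asIdeal → NoSq v.asIdeal t) := by
    intro v
    by_cases h2 : (2 : 𝓞 F) ∈ v.asIdeal
    · haveI : Finite (𝓞 F ⧸ v.asIdeal) := v.asIdeal.finiteQuotientOfFreeOfNeBot v.ne_bot
      haveI := v.isPrime.isMaximal v.ne_bot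
      obtain ⟨p, hp1, hp2⟩ := v.asIdeal.exists_mem_pow_notMem_pow_succ v.ne_bot v.isPrime.ne_top 1
      rw [pow_one] at hp1
      obtain ⟨b, c, hbc⟩ := exists_noSq v.asIdeal h2 hp1 hp2 hg h.mon h.deg
        (h.irr v.asIdeal v.isPrime h2)
      have h1 : (C p * (C b + C c * X)).natDegree ≤ 1 := by
        refine (natDegree_C_mul_le _ _).trans ?_
        compute_degree
      have hdl : (C p * (C b + C c * X)).degree < f₁.degree := by
        rw [degree_eq_natDegree h.mon.ne_zero, h.deg]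
        refine lt_of_le_of_lt degree_le_natDegree ?_
        exact_mod_cast (by omega : (C p * (C b + C c * X)).natDegree < 2 * g + 1)
      refine ⟨_, h.mon.add_of_left hdl, ?_, ?_, fun n => ?_, fun _ => hbc⟩
      · rw [natDegree_add_eq_left_of_degree_lt hdl, h.deg]
      · rw [coeff_add, h.tr, zero_add]
        exact coeff_eq_zero_of_natDegree_lt (by omega)
      · rw [coeff_add, add_sub_cancel_left, coeff_C_mul]
        exact Ideal.mul_mem_right _ _ hp1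
    · exact ⟨f₁, h.mon, h.deg, h.tr, fun n => by rw [sub_self]; exact Ideal.zero_mem _,
        fun h3 => absurd h3 h2⟩
  choose t ht1 ht2 ht3 ht4 ht5 using hloc
  -- Chinese remainder theorem
  have hcrt : ∀ j : Fin (2 * g), ∃ y : 𝓞 F, ∀ v : HeightOneSpectrum (𝓞 F),
      (W : 𝓞 F) ∈ v.asIdeal → y - (t v).coeff j ∈ v.asIdeal ^ 2 := by
    intro j
    obtain ⟨y, hy⟩ := IsDedekindDomain.exists_forall_sub_mem_ideal (s := hfin.toFinset)
      (fun v : HeightOneSpectrum (𝓞 F) => v.asIdeal) (fun _ => 2)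
      (fun v _ => v.prime) (fun v _ w _ hvw hh => hvw (HeightOneSpectrum.ext hh))
      (fun v => (t v).coeff j)
    refine ⟨y, fun v hv => hy v ?_⟩
    rw [Set.Finite.mem_toFinset, Set.mem_ofPred_eq, Ideal.dvd_span_singleton]
    exact hv
  choose A hA using hcrt
  have hc : ∀ v : HeightOneSpectrum (𝓞 F), (W : 𝓞 F) ∈ v.asIdeal →
      ∀ n, (pol A).coeff n - (t v).coeff n ∈ v.asIdeal ^ 2 := fun v hv =>
    cg_pol A (ht1 v) (ht2 v) (ht3 v) _ fun j => hA j v hv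
  have hc1 : ∀ v : HeightOneSpectrum (𝓞 F), (W : 𝓞 F) ∈ v.asIdeal →
      rd v.asIdeal (pol A) = rd v.asIdeal f₁ := by
    intro v hv
    ext n
    rw [coeff_map, coeff_map, Ideal.Quotient.eq]
    have e : (pol A).coeff n - f₁.coeff n =
        ((pol A).coeff n - (t v).coeff n) + ((t v).coeff n - f₁.coeff n) := by ring
    rw [e]
    exact Ideal.add_mem _ (Ideal.pow_le_self two_ne_zero (hc v hv n)) (ht4 v n)
  have h2W : ∀ 𝔭 : Ideal (𝓞 F), (2 : 𝓞 F) ∈ 𝔭 → (W : 𝓞 F) ∈ 𝔭 := by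
    intro 𝔭 h2
    obtain ⟨m, hm⟩ := h.two
    rw [hm, Nat.cast_mul]
    exact Ideal.mul_mem_right _ _ (by exact_mod_cast h2)
  refine ⟨pol A, ⟨pol_monic A, pol_natDegree A, pol_coeff_tr A, ?_, ?_, ?_, ?_⟩, ?_⟩
  · exact Nat.mul_pos (by norm_num) h.pos
  · exact (by norm_num : 2 ∣ 8).mul_right W
  · intro 𝔭 hp h2
    have hb : 𝔭 ≠ ⊥ := nonbot 𝔭 2 two_pos (by exact_mod_cast h2)
    have h1 := hc1 ⟨𝔭, hp, hb⟩ (h2W _ h2)
    have h3 : rd 𝔭 (pol A) = rd 𝔭 f₁ := h1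
    rw [h3]
    exact h.irr 𝔭 hp h2
  · intro 𝔭 hp hW
    have h3 : (W : 𝓞 F) ∈ 𝔭 := by
      rw [Nat.cast_mul] at hW
      rcases hp.mem_or_mem hW with h4 | h4
      · apply h2W
        have h5 : ((2 : 𝓞 F)) ^ 3 ∈ 𝔭 := by
          have h6 : ((8 : ℕ) : 𝓞 F) = 2 ^ 3 := by norm_num
          rwa [h6] at h4
        exact hp.mem_of_pow_mem 3 h5
      · exact h4
    have hb : 𝔭 ≠ ⊥ := nonbot 𝔭 W h.pos h3
    have h1 := hc1 ⟨𝔭, hp, hb⟩ h3
    have h4 : rd 𝔭 (pol A) = rd 𝔭 f₁ := h1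
    rw [h4]
    exact h.sep 𝔭 hp h3
  · intro v h2
    exact (ht5 v h2).congr (hc v (h2W _ h2))

end Pool.Agent.Helper29J
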