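import Pool.Agent.Helper29J.Cls
import Pool.Agent.N783.PF.Jac

/-!
# The 2-primary Selmer sets of a curve whose Jacobian has no 2-Selmer group
-/

set_option autoImplicit false
set_option linter.all false

open Polynomial IsDedekindDomain NumberField

namespace Pool.Agent.Helper29J

open Pool.Agent.Y160.SE
open Pool.Agent.TH115.GD (incl rs ak exists_restrict)
open Pool.Agent.N106.JB (crMap_eq')

section gen

variable {K L L' : Type} [Field K] [Field L] [Algebra K L] [Field L'] [Algebra K L'] {f : K[X]}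

/-- additive notation -/
def ad (x : Defs.J f L) : Jac 2 f L := Additive.ofMul (α := CommRing.Pic _) x

/-- multiplicative notation -/
def mu (x : Jac 2 f L) : Defs.J f L := Additive.toMul x

theorem ad_mu (x : Jac 2 f L) : ad (mu x) = x := rfl

theorem mu_ad (x : Defs.J f L) : mu (ad x) = x := rfl

theorem ad_inj {x y : Defs.J f L} (h : ad x = ad y) : x = y := h

theorem ad_mul (x y : Defs.J f L) : ad (x * y) = ad x + ad y := rfl

theorem ad_div (x y : Defs.J f L) : ad (x / y) = ad x - ad y := rfl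

theorem ad_pow (x : Defs.J f L) (n : ℕ) : ad (x ^ n) = n • ad x := rfl

theorem ad_one : ad (1 : Defs.J f L) = 0 := rfl

theorem ad_mapJ (φ : L →ₐ[K] L') (x : Defs.J f L) : ad (Defs.mapJ f φ x) = jm 2 f φ (ad x) :=
  Pool.Agent.N106.JB.ad_mapJ (ℓ := 2) φ x

end gen

theorem pow_surj {A : Type} [AddCommGroup A] (h : ∀ y : A, ∃ z, 2 • z = y) (k : ℕ) (y : A) :
    ∃ s : A, (2 ^ k : ℕ) • s = y := by
  induction k generalizing y with
  | zero => exact ⟨y, by rw [pow_zero, one_nsmul]⟩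
  | succ k ih =>
    obtain ⟨z, hz⟩ := h y
    obtain ⟨s, hs⟩ := ih z
    exact ⟨s, by rw [pow_succ, mul_comm, mul_nsmul', hs, hz]⟩

section glob

variable {F : Type} [Field F] [NumberField F] {f : F[X]} (hg : Good 2 (-1 : F) f)

include hg

/-- the cocycles in the Selmer set are coboundaries of points of order a power of two -/
theorem selmer_trivial (h1 : Pool.Agent.N874.Jac.UniquelyTwoDivisible f)
    (h2 : Pool.Agent.N874.Jac.ShaTwoTrivialReal f (𝓞 F)) {k : ℕ}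
    {ξ : Defs.Gal F → Defs.J f (SeparableClosure F)} (hξ : ξ ∈ Defs.SelmerSet f (2 ^ k)) :
    ∃ T : Defs.J f (SeparableClosure F), T ^ 2 ^ k = 1 ∧
      ∀ σ : Defs.Gal F, ξ σ = Defs.mapJ f σ.toAlgHom T / T := by
  obtain ⟨⟨hc1, hc2⟩, ht, hv, hr⟩ := hξ
  obtain ⟨R, hR⟩ : ∃ R : Defs.J f (SeparableClosure F),
      ∀ σ : Defs.Gal F, ξ σ = Defs.mapJ f σ.toAlgHom R / R := by
    refine h2 ξ k ⟨hc1, hc2⟩ (fun v => ?_) (fun ρ => ?_) ⟨1, fun σ => ?_⟩
    · obtain ⟨P, ι, Q, -, hQ⟩ := hv v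
      exact ⟨ι, Q, hQ⟩
    · obtain ⟨P, ι, Q, -, hQ⟩ := hr ρ
      exact ⟨ι, Q, hQ⟩
    · have e : ξ σ ^ 2 ^ k = Defs.mapJ f σ.toAlgHom 1 / 1 := by
        rw [ht, map_one, div_one]
      exact e
  obtain ⟨r, hr'⟩ : ∃ r : Jac 2 f (SeparableClosure F), r = ad R := ⟨_, rfl⟩
  have hcr : ∀ σ : Defs.Gal F, ad (ξ σ) = jm 2 f (rs F σ) r - r := by
    intro σ
    rw [hR σ, ad_div, ad_mapJ, hr']
    rfl
  have hfix : ∀ σ : Defs.Gal F, jm 2 f (rs F σ) ((2 ^ k : ℕ) • r) = (2 ^ k : ℕ) • r := by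
    intro σ
    have h3 : (2 ^ k : ℕ) • ad (ξ σ) = 0 := by
      rw [← ad_pow, ht, ad_one]
    rw [hcr, smul_sub, sub_eq_zero, ← map_nsmul] at h3
    exact h3
  obtain ⟨y, hy⟩ := fixed_class (E := F) hyps hg _ hfix
  have hsurj : ∀ y : Jac 2 f F, ∃ z, 2 • z = y := by
    intro y
    obtain ⟨z, hz⟩ := h1.2 (mu y)
    exact ⟨Additive.ofMul (α := CommRing.Pic _) z, hz⟩
  obtain ⟨s, hs⟩ := pow_surj hsurj k y
  obtain ⟨t, ht'⟩ : ∃ t : Jac 2 f (SeparableClosure F),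
      t = r - jm 2 f (incl F F (SeparableClosure F)) s := ⟨_, rfl⟩
  refine ⟨mu t, ?_, fun σ => ?_⟩
  · apply ad_inj
    rw [ad_pow, ad_mu, ad_one, ht', smul_sub, ← hy, ← map_nsmul, hs, sub_self]
  · apply ad_inj
    rw [ad_div, ad_mapJ, ad_mu, hcr, ht', map_sub]
    have e1 : jm 2 f σ.toAlgHom (jm 2 f (incl F F (SeparableClosure F)) s) =
        jm 2 f (incl F F (SeparableClosure F)) s := by
      have e2 : σ.toAlgHom.comp (incl F F (SeparableClosure F)) =
          incl F F (SeparableClosure F) := AlgHom.ext fun z => σ.commutes z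
      rw [jm_jm, e2]
    have e3 : jm 2 f (rs F σ) r = jm 2 f σ.toAlgHom r := rfl
    rw [e1, e3]
    abel

/-- a point which lifts to a covering in the Selmer set is divisible -/
theorem lifts_div {k : ℕ} {ξ : Defs.Gal F → Defs.J f (SeparableClosure F)}
    {T : Defs.J f (SeparableClosure F)} (hT : T ^ 2 ^ k = 1)
    (hξ : ∀ σ : Defs.Gal F, ξ σ = Defs.mapJ f σ.toAlgHom T / T)
    {E : Type} [Field E] [Algebra F E] {P : Defs.Curve f E}
    (h : Defs.Lifts (2 ^ k) ξ E P) :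
    ∃ (D : Jac 2 f E) (Q : Jac 2 f (SeparableClosure E)),
      Defs.IsClass f (Defs.liftPoint f (SeparableClosure E) P) (mu Q) ∧
      (2 ^ k : ℕ) • jm 2 f (incl F E (SeparableClosure E)) D = Q := by
  obtain ⟨ι, Q, hQ1, hQ2⟩ := h
  have key : ∀ τ : SeparableClosure E ≃ₐ[E] SeparableClosure E,
      jm 2 f (rs F τ) (ad Q - jm 2 f ι (ad T)) = ad Q - jm 2 f ι (ad T) := by
    intro τ
    obtain ⟨σ, hσ⟩ := exists_restrict (F := F) (Ω := SeparableClosure F) (L := E)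
      (Ω' := SeparableClosure E) ι τ
    have h1 := congrArg ad (hQ2 τ σ hσ)
    rw [ad_mapJ, hξ σ, ad_div, ad_div, ad_mapJ, ad_mapJ, map_sub, jm_jm] at h1
    have h2 : (rs F τ).comp ι = ι.comp σ.toAlgHom := AlgHom.ext fun z => hσ z
    have h3 : jm 2 f (AlgHom.restrictScalars F τ.toAlgHom) (ad Q) = jm 2 f (rs F τ) (ad Q) := rfl
    rw [h3] at h1
    rw [map_sub, jm_jm, h2]
    have h4 : jm 2 f (rs F τ) (ad Q) = ad Q + (jm 2 f (ι.comp σ.toAlgHom) (ad T) -
        jm 2 f ι (ad T)) := by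
      rw [h1]
      abel
    rw [h4]
    abel
  obtain ⟨D, hD⟩ := fixed_class (E := E) hyps hg _ key
  refine ⟨D, ad (Q ^ 2 ^ k), by rw [mu_ad]; exact hQ1, ?_⟩
  rw [hD, smul_sub, ← map_nsmul, ← ad_pow, ← ad_pow, hT, ad_one, map_zero, sub_zero]

end glob

end Pool.Agent.Helper29J
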