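import Pool.Agent.Helper29J.Pts

/-!
# The subgroups of the Jacobian generated by the points near infinity
-/

set_option autoImplicit false
set_option linter.all false

open Polynomial IsDedekindDomain
open scoped nonZeroDivisors

namespace Pool.Agent.Helper29J

open Pool.Agent.Y160.SE

section cls

variable {K W : Type} [Field K] [Field W] [Algebra K W] {f : K[X]} (hg : Good 2 (-1 : K) f)

/-- the polynomial over the extension -/
noncomputable abbrev fu (f : K[X]) (W : Type) [Field W] [Algebra K W] : Polynomial W :=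
  f.map (algebraMap K W)

include hg

theorem gup : Good 2 (-1 : W) (fu f W) := by
  have h := hg.up W
  rw [map_neg, map_one] at h
  exact h

open Classical in
/-- the class of an ideal -/
noncomputable def cl (I : Ideal (CR 2 (fu f W))) : Jac 2 f W :=
  if h : I ≠ ⊥ then (cl_exists hyps hg h).choose else 0

theorem is_cl {I : Ideal (CR 2 (fu f W))} (h : I ≠ ⊥) : IsCl W I (cl hg I) := by
  unfold cl
  rw [dif_pos h]
  exact (cl_exists hyps hg h).choose_spec

theorem dom : IsDedekindDomain (CR 2 (fu f W)) := hyps.ring 2 W _ _ (gup (W := W) hg)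

theorem cl_eq {I : Ideal (CR 2 (fu f W))} {x : Jac 2 f W} (h : IsCl W I x) : cl hg I = x :=
  (cl_eq_iff hyps hg (is_cl hg h.ne) h).2 ⟨1, 1, by
    haveI := dom (W := W) hg
    exact one_ne_zero, by
    haveI := dom (W := W) hg
    exact one_ne_zero, rfl⟩

theorem cl_mul' {I J : Ideal (CR 2 (fu f W))} (hI : I ≠ ⊥) (hJ : J ≠ ⊥) :
    cl hg (I * J) = cl hg I + cl hg J :=
  cl_eq hg (cl_mul hyps hg (is_cl hg hI) (is_cl hg hJ))

theorem cl_span {z : CR 2 (fu f W)} (hz : z ≠ 0) : cl hg (Ideal.span {z}) = 0 := by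
  haveI := dom (W := W) hg
  refine (cl_zero_iff hyps hg (is_cl hg (by rwa [Ne, Ideal.span_singleton_eq_bot]))).2
    ⟨1, z, one_ne_zero, hz, ?_⟩
  rw [Ideal.span_singleton_one, Ideal.mul_top, Ideal.top_mul]

/-- a class is trivial if and only if the ideal is principal -/
theorem cl_zero {I : Ideal (CR 2 (fu f W))} (hI : I ≠ ⊥) (h : cl hg I = 0) :
    ∃ z, z ≠ 0 ∧ Ideal.span {z} = I := by
  haveI := dom (W := W) hg
  obtain ⟨a, b, ha, hb, hab⟩ := (cl_zero_iff hyps hg (is_cl hg hI)).1 h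
  rw [Ideal.mul_top] at hab
  have h1 : b ∈ Ideal.span {a} := by
    have h2 : b ∈ Ideal.span {b} := Ideal.mem_span_singleton_self b
    rw [← hab] at h2
    exact Ideal.mul_le_left h2
  obtain ⟨c, rfl⟩ := Ideal.mem_span_singleton.1 h1
  have hc : c ≠ 0 := fun h => hb (by rw [h, mul_zero])
  refine ⟨c, hc, ?_⟩
  rw [← Ideal.span_singleton_mul_span_singleton] at hab
  exact (mul_left_cancel₀ (by rwa [Ne, Ideal.zero_eq_bot, Ideal.span_singleton_eq_bot]) hab).symm

/-- the class of a divisor -/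
noncomputable def dc (S : Multiset (W × W)) : Jac 2 f W := cl hg (dvI 2 (fu f W) S)

theorem dv_ne (S : Multiset (W × W)) : dvI 2 (fu f W) S ≠ ⊥ := by
  haveI := dom (W := W) hg
  exact dv_ne_bot S

omit hg in
theorem dv_add (S T : Multiset (W × W)) :
    dvI 2 (fu f W) (S + T) = dvI 2 (fu f W) S * dvI 2 (fu f W) T := by
  unfold dvI
  rw [Multiset.map_add, Multiset.prod_add]

theorem dc_add (S T : Multiset (W × W)) : dc hg (S + T) = dc hg S + dc hg T := by
  unfold dc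
  rw [dv_add, cl_mul' hg (dv_ne hg S) (dv_ne hg T)]

theorem dc_zero : dc hg (0 : Multiset (W × W)) = 0 := by
  have h := dc_add hg (0 : Multiset (W × W)) 0
  rw [add_zero] at h
  exact (add_eq_left.1 h.symm)

theorem dc_cons (P : W × W) (S : Multiset (W × W)) : dc hg (P ::ₘ S) = dc hg {P} + dc hg S := by
  rw [← dc_add, Multiset.singleton_add]

theorem dc_cj {S : Multiset (W × W)} (hS : ∀ P ∈ S, On (fu f W) P) :
    dc hg S + dc hg (S.map cj) = 0 := by
  unfold dc
  rw [← cl_mul' hg (dv_ne hg S) (dv_ne hg _), dv_mul_cj (gup (W := W) hg) hS]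
  apply cl_span
  intro h
  have h1 := xp_inj (f := fu f W) two_ne_zero (h.trans xp_zero.symm)
  unfold dvP at h1
  rw [Multiset.prod_eq_zero_iff, Multiset.mem_map] at h1
  obtain ⟨P, _, hP⟩ := h1
  exact X_sub_C_ne_zero _ hP

theorem dc_cj' {S : Multiset (W × W)} (hS : ∀ P ∈ S, On (fu f W) P) :
    dc hg (S.map cj) = -dc hg S := (neg_eq_of_add_eq_zero_right (dc_cj hg hS)).symm

omit hg in
theorem on_map_cj {S : Multiset (W × W)} (hS : ∀ P ∈ S, On (fu f W) P) :
    ∀ P ∈ S.map cj, On (fu f W) P := by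
  intro P hP
  obtain ⟨Q, hQ, rfl⟩ := Multiset.mem_map.1 hP
  exact (hS Q hQ).cj

/-- the divisor of a function is trivial -/
theorem dc_fn {α β : Polynomial W} {S : Multiset (W × W)} (h0 : fn (fu f W) α β ≠ 0)
    (h : Ideal.span {fn (fu f W) α β} = dvI 2 (fu f W) S) : dc hg S = 0 := by
  unfold dc
  rw [← h]
  exact cl_span hg h0

end cls

section G

variable {K W : Type} [Field K] [Field W] [Algebra K W] {f : K[X]} (hg : Good 2 (-1 : K) f)
  (w : AbsoluteValue W ℝ)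

/-- the subgroup generated by the points with `|x| > ρ` -/
noncomputable def GG (ρ : ℝ) : AddSubgroup (Jac 2 f W) where
  carrier := {x | ∃ S : Multiset (W × W), (∀ P ∈ S, On (fu f W) P ∧ ρ < w P.1) ∧ x = dc hg S}
  zero_mem' := ⟨0, fun P hP => absurd hP (Multiset.notMem_zero P), (dc_zero hg).symm⟩
  add_mem' := by
    rintro _ _ ⟨S, hS, rfl⟩ ⟨T, hT, rfl⟩
    refine ⟨S + T, fun P hP => ?_, (dc_add hg S T).symm⟩
    rcases Multiset.mem_add.1 hP with h | h
    · exact hS P h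
    · exact hT P h
  neg_mem' := by
    rintro _ ⟨S, hS, rfl⟩
    refine ⟨S.map cj, fun P hP => ?_, (dc_cj' hg fun P hP => (hS P hP).1).symm⟩
    obtain ⟨Q, hQ, rfl⟩ := Multiset.mem_map.1 hP
    exact ⟨(hS Q hQ).1.cj, (hS Q hQ).2⟩

theorem GG_mono {ρ ρ' : ℝ} (h : ρ ≤ ρ') : GG hg w ρ' ≤ GG hg w ρ := by
  rintro _ ⟨S, hS, rfl⟩
  exact ⟨S, fun P hP => ⟨(hS P hP).1, lt_of_le_of_lt h (hS P hP).2⟩, rfl⟩

theorem pt_mem {ρ : ℝ} {P : W × W} (h : On (fu f W) P) (hP : ρ < w P.1) : dc hg {P} ∈ GG hg w ρ :=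
  ⟨{P}, fun Q hQ => by rw [Multiset.mem_singleton.1 hQ]; exact ⟨h, hP⟩, rfl⟩

variable {w}

/-- the degree of `f` is `2 g + 1`, the coefficients are integral -/
structure Int (w : AbsoluteValue W ℝ) (f : K[X]) (g : ℕ) : Prop where
  mon : f.Monic
  deg : f.natDegree = 2 * g + 1
  pos : 1 ≤ g
  int : ∀ j, w ((fu f W).coeff j) ≤ 1

theorem Int.mon' {g : ℕ} (h : Int w f g) : (fu f W).Monic := h.mon.map _

theorem Int.deg' {g : ℕ} (h : Int w f g) : (fu f W).natDegree = 2 * g + 1 := by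
  rw [natDegree_map]
  exact h.deg

theorem Int.top {g : ℕ} (h : Int w f g) {ρ : ℝ} (hρ : 1 ≤ ρ) : Top w ρ (fu f W) (2 * g + 1) := by
  rw [← h.deg']
  exact top_monic hρ h.mon' h.int

/-- a point is not a sum of points which are closer to infinity -/
theorem sep_pt (hna : Na w) {g : ℕ} (hf : Int w f g) {ρ : ℝ} (hρ : 1 ≤ ρ) {P : W × W}
    (hP : On (fu f W) P) (hPρ : w P.1 ≤ ρ) (h : dc hg {P} ∈ GG hg w ρ) : False := by
  classical
  haveI := dom (W := W) hg
  obtain ⟨S, hS, hPS⟩ := h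
  have hρ0 : 0 < ρ := by linarith
  have hon : ∀ Q ∈ P ::ₘ S.map cj, On (fu f W) Q := by
    intro Q hQ
    rcases Multiset.mem_cons.1 hQ with rfl | hQ
    · exact hP
    · exact on_map_cj (fun P hP => (hS P hP).1) Q hQ
  have h1 : dc hg (P ::ₘ S.map cj) = 0 := by
    rw [dc_cons, hPS]
    exact dc_cj hg fun P hP => (hS P hP).1
  obtain ⟨z, hz, hzI⟩ := cl_zero hg (dv_ne hg _) h1
  obtain ⟨α, β, rfl⟩ := exists_fn (gup (W := W) hg) z
  obtain ⟨c, hc, hN⟩ := norm_of_dv (gup (W := W) hg) hon hzI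
  have h2 : Top w ρ (dvP (P ::ₘ S.map cj)) 1 := by
    have e : dvP (P ::ₘ S.map cj) =
        (((P ::ₘ S.map cj).map Prod.fst).map fun a => X - C a).prod := by
      unfold dvP
      rw [Multiset.map_map]
      rfl
    rw [e]
    have h3 := top_prod hna hρ0 ((P ::ₘ S.map cj).map Prod.fst)
    have h4 : (Multiset.filter (fun a => w a ≤ ρ) ((P ::ₘ S.map cj).map Prod.fst)).card = 1 := by
      rw [Multiset.map_cons, Multiset.filter_cons_of_pos (p := fun a => w a ≤ ρ) _ hPρ,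
        Multiset.card_cons, Multiset.card_eq_zero.2]
      rw [Multiset.filter_eq_nil]
      intro a ha
      rw [Multiset.map_map, Multiset.mem_map] at ha
      obtain ⟨Q, hQ, rfl⟩ := ha
      exact not_le.2 (hS Q hQ).2
    rwa [h4] at h3
  have h5 : Top w ρ (α ^ 2 - β ^ 2 * fu f W) 1 := by
    rw [hN]
    have := (top_C (w := w) (ρ := ρ) hc).mul hna hρ0 h2
    rwa [zero_add] at this
  exact no_top_one hna hρ0 hf.pos (hf.top hρ) h5

/-- the points on a line -/
theorem line [IsAlgClosed W] (hna : Na w) {g : ℕ} (hf : Int w f g) {ρ : ℝ} (hρ : 1 ≤ ρ) {x₀ y₀ x₁ y₁ c : W}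
    (h₀ : On (fu f W) (x₀, y₀)) (h₁ : On (fu f W) (x₁, y₁)) (hc : c ≠ 0)
    (hl : (x₁ - x₀) + c * (y₁ + y₀) = 0)
    (hd : (X - C x₀) * (X - C x₁) ∣ (X - C (x₀ - c * y₀)) ^ 2 - (C c) ^ 2 * fu f W)
    (hx₀ : w x₀ ≤ ρ) (hx₁ : w x₁ ≤ ρ) (hcy : w (c * y₀) ≤ ρ) (hcρ : w c ^ 2 * ρ ^ (2 * g - 1) < 1) :
    dc hg {(x₁, y₁)} - dc hg {(x₀, y₀)} ∈ GG hg w ρ := by
  classical
  haveI := dom (W := W) hg
  have hρ0 : 0 < ρ := by linarith
  have hg1 := hf.pos
  -- the norm
  have htop : Top w ρ ((X - C (x₀ - c * y₀)) ^ 2 - (C c) ^ 2 * fu f W) 2 := by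
    have h1 : Top w ρ ((X - C (x₀ - c * y₀)) ^ 2) 2 := by
      have h2 := top_X_sub_C (w := w) hρ0 ((w_sub_le hna _ _).trans (max_le hx₀ hcy))
      rw [pow_two]
      exact h2.mul hna hρ0 h2
    refine h1.sub_small hna hρ0 fun k => ?_
    have e1 : ((X - C (x₀ - c * y₀)) ^ 2 : Polynomial W).coeff 2 = 1 := by
      have hm : ((X - C (x₀ - c * y₀)) ^ 2 : Polynomial W).Monic := (monic_X_sub_C _).pow 2
      have hn : ((X - C (x₀ - c * y₀)) ^ 2 : Polynomial W).natDegree = 2 := by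
        rw [natDegree_pow, natDegree_X_sub_C]
      have h9 := hm.coeff_natDegree
      rwa [hn] at h9
    rw [e1, map_one, one_mul, ← C_pow, coeff_C_mul, map_mul, map_pow]
    have h3 := (hf.top hρ).le k
    have e2 : (fu f W).coeff (2 * g + 1) = 1 := by
      rw [← hf.deg']
      exact hf.mon'
    rw [e2, map_one, one_mul] at h3
    have hc2 : 0 < w c ^ 2 := pow_pos (w.pos hc) 2
    calc w c ^ 2 * w ((fu f W).coeff k) * ρ ^ k = w c ^ 2 * (w ((fu f W).coeff k) * ρ ^ k) := by ring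
      _ ≤ w c ^ 2 * ρ ^ (2 * g + 1) := mul_le_mul_of_nonneg_left h3 hc2.le
      _ = (w c ^ 2 * ρ ^ (2 * g - 1)) * ρ ^ 2 := by
        rw [mul_assoc, ← pow_add]
        congr 2
        omega
      _ < 1 * ρ ^ 2 := mul_lt_mul_of_pos_right hcρ (by positivity)
      _ = ρ ^ 2 := one_mul _
  have hfn : fn (fu f W) (X - C (x₀ - c * y₀)) (C c) ≠ 0 := by
    intro h
    have h1 := fn_mul_cj (f := fu f W) (X - C (x₀ - c * y₀)) (C c)
    rw [h, zero_mul] at h1
    exact htop.ne_zero (xp_inj two_ne_zero (h1.symm.trans xp_zero.symm))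
  obtain ⟨S, c', hS, hI, hc', hN⟩ := dv_fn (gup (W := W) hg) (by rw [hf.deg']; omega) htop.ne_zero
  -- the first point
  have hval : ∀ Q ∈ S, (Q.1 - (x₀ - c * y₀)) + c * Q.2 = 0 := by
    intro Q hQ
    have h1 := fn_mem hI hQ (hS Q hQ)
    rw [eval_sub, eval_X, eval_C, eval_C] at h1
    exact h1
  have hdv : (X - C x₀) * (X - C x₁) ∣ dvP S := by
    rw [hN] at hd
    have hu : IsUnit (C c' : Polynomial W) := isUnit_C.2 (isUnit_iff_ne_zero.2 hc')
    exact (IsUnit.dvd_mul_left hu).1 hd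
  have hex : ∀ (a : W) (T : Multiset (W × W)), (X - C a) ∣ dvP T → ∃ Q ∈ T, Q.1 = a := by
    intro a T h
    rw [dvd_iff_isRoot, IsRoot.def] at h
    unfold dvP at h
    rw [eval_multiset_prod, Multiset.map_map, Multiset.prod_eq_zero_iff, Multiset.mem_map] at h
    obtain ⟨Q, hQ, hQ2⟩ := h
    refine ⟨Q, hQ, ?_⟩
    rw [Function.comp_apply, eval_sub, eval_X, eval_C] at hQ2
    exact (sub_eq_zero.1 hQ2).symm
  obtain ⟨Q₀, hQ₀, hQx₀⟩ := hex x₀ S ((Dvd.intro _ rfl).trans hdv)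
  obtain ⟨S₁, rfl⟩ := Multiset.exists_cons_of_mem hQ₀
  have hdv1 : (X - C x₁) ∣ dvP S₁ := by
    have e : dvP (Q₀ ::ₘ S₁) = (X - C x₀) * dvP S₁ := by
      unfold dvP
      rw [Multiset.map_cons, Multiset.prod_cons, hQx₀]
    rw [e] at hdv
    exact (mul_dvd_mul_iff_left (X_sub_C_ne_zero x₀)).1 hdv
  obtain ⟨Q₁, hQ₁, hQx₁⟩ := hex x₁ S₁ hdv1
  obtain ⟨S₂, rfl⟩ := Multiset.exists_cons_of_mem hQ₁
  have hv0 := hval Q₀ (Multiset.mem_cons_self _ _)
  have hv1 := hval Q₁ (Multiset.mem_cons_of_mem (Multiset.mem_cons_self _ _))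
  have hQ0 : Q₀ = cj (x₀, y₀) := by
    unfold cj
    apply Prod.ext
    · exact hQx₀
    · rw [hQx₀] at hv0
      have : c * (Q₀.2 + y₀) = 0 := by linear_combination hv0
      rcases mul_eq_zero.1 this with h | h
      · exact absurd h hc
      · exact eq_neg_of_add_eq_zero_left h
  have hQ1 : Q₁ = (x₁, y₁) := by
    apply Prod.ext
    · exact hQx₁
    · rw [hQx₁] at hv1
      have : c * (Q₁.2 - y₁) = 0 := by linear_combination hv1 - hl
      rcases mul_eq_zero.1 this with h | h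
      · exact absurd h hc
      · exact sub_eq_zero.1 h
  -- the other points
  have hcard : (Multiset.filter (fun a => w a ≤ ρ) ((Q₀ ::ₘ Q₁ ::ₘ S₂).map Prod.fst)).card = 2 := by
    have h3 := top_prod hna hρ0 ((Q₀ ::ₘ Q₁ ::ₘ S₂).map Prod.fst)
    have e : (((Q₀ ::ₘ Q₁ ::ₘ S₂).map Prod.fst).map fun a => X - C a).prod =
        dvP (Q₀ ::ₘ Q₁ ::ₘ S₂) := by
      unfold dvP
      rw [Multiset.map_map]
      rfl
    rw [e] at h3
    have h4 := (top_C (w := w) (ρ := ρ) hc').mul hna hρ0 h3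
    rw [← hN, zero_add] at h4
    exact h4.unique htop
  have hbig : ∀ Q ∈ S₂, ρ < w Q.1 := by
    rw [Multiset.map_cons, Multiset.map_cons,
      Multiset.filter_cons_of_pos (p := fun a => w a ≤ ρ) _ (by rw [hQx₀]; exact hx₀),
      Multiset.filter_cons_of_pos (p := fun a => w a ≤ ρ) _ (by rw [hQx₁]; exact hx₁),
      Multiset.card_cons, Multiset.card_cons] at hcard
    have h5 : (Multiset.filter (fun a => w a ≤ ρ) (S₂.map Prod.fst)).card = 0 := by omega
    rw [Multiset.card_eq_zero, Multiset.filter_eq_nil] at h5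
    intro Q hQ
    exact not_le.1 (h5 Q.1 (Multiset.mem_map_of_mem _ hQ))
  have h6 := dc_fn hg hfn hI
  rw [dc_cons, dc_cons, hQ0, hQ1] at h6
  have h7 : dc hg {cj (x₀, y₀)} = -dc hg {(x₀, y₀)} := by
    have := dc_cj' hg (S := {(x₀, y₀)}) (fun P hP => by rw [Multiset.mem_singleton.1 hP]; exact h₀)
    rwa [Multiset.map_singleton] at this
  have h8 : dc hg {(x₁, y₁)} - dc hg {(x₀, y₀)} = -dc hg S₂ := by
    rw [h7] at h6
    rw [eq_neg_iff_add_eq_zero, ← h6]
    abel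
  rw [h8]
  apply AddSubgroup.neg_mem
  exact ⟨S₂, fun Q hQ => ⟨hS Q (Multiset.mem_cons_of_mem (Multiset.mem_cons_of_mem hQ)),
    hbig Q hQ⟩, rfl⟩

/-- the tangent -/
theorem dbl_pt [IsAlgClosed W] (hna : Na w) (h2 : w 2 < 1) {g : ℕ} (hf : Int w f g) {x₀ y₀ : W}
    (h₀ : On (fu f W) (x₀, y₀)) (hx₀ : 1 < w x₀) {ρ : ℝ} (hρ : w x₀ ≤ ρ)
    (hρ2 : w 2 ^ 2 * ρ ^ (2 * g - 1) < w x₀ ^ (2 * g - 1)) : (2 : ℕ) • dc hg {(x₀, y₀)} ∈ GG hg w ρ := by
  have hg1 := hf.pos
  have hx0 : 0 < w x₀ := by linarith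
  have hρ1 : 1 ≤ ρ := by linarith
  -- the derivative
  have hn1 : w ((2 * g + 1 : ℕ) : W) = 1 := by
    push_cast
    rw [add_comm]
    have e : w ((2 : W) * g) < w 1 := by
      rw [map_one, map_mul]
      have : w (g : W) ≤ 1 := by
        clear hf hρ2 hg1
        induction g with
        | zero => simp
        | succ n ih =>
          push_cast
          exact (hna _ _).trans (max_le ih (by rw [map_one]))
      calc w 2 * w (g : W) ≤ w 2 * 1 := mul_le_mul_of_nonneg_left this (w.nonneg _)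
        _ < 1 := by linarith
    rw [w_add_eq hna e, map_one]
  have hdeg : (derivative (fu f W)).natDegree = 2 * g := by
    apply natDegree_eq_of_le_of_coeff_ne_zero
    · have := natDegree_derivative_le (fu f W)
      rw [hf.deg'] at this
      omega
    · rw [coeff_derivative]
      have e : (fu f W).coeff (2 * g + 1) = 1 := by
        rw [← hf.deg']
        exact hf.mon'
      rw [e, one_mul]
      intro h
      have h5 : ((2 * g + 1 : ℕ) : W) = 0 := by
        push_cast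
        push_cast at h
        exact h
      rw [h5, map_zero] at hn1
      exact zero_ne_one hn1
  have hint : ∀ j, w ((derivative (fu f W)).coeff j) ≤ 1 := by
    intro j
    rw [coeff_derivative, map_mul]
    have h3 : w ((j : W) + 1) ≤ 1 := by
      induction j with
      | zero => simp
      | succ n ih =>
        push_cast
        exact (hna _ _).trans (max_le ih (by rw [map_one]))
    exact mul_le_one₀ (hf.int _) (w.nonneg _) h3
  have hlead : w ((derivative (fu f W)).coeff (derivative (fu f W)).natDegree) = 1 := by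
    rw [hdeg, coeff_derivative]
    have e : (fu f W).coeff (2 * g + 1) = 1 := by
      rw [← hf.deg']
      exact hf.mon'
    rw [e, one_mul]
    rw [← hn1]
    push_cast
    rfl
  have hder := w_eval hna hlead hint hx₀
  rw [hdeg] at hder
  have hfx : w y₀ ^ 2 = w x₀ ^ (2 * g + 1) := by
    have h3 := w_eval hna (f := fu f W) (by rw [hf.mon'.coeff_natDegree, map_one]) hf.int hx₀
    rw [hf.deg'] at h3
    rw [← h3, ← map_pow]
    congr 1
  obtain ⟨d, hd⟩ : ∃ d, d = (derivative (fu f W)).eval x₀ := ⟨_, rfl⟩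
  rw [← hd] at hder
  have hd0 : d ≠ 0 := by
    intro h
    rw [h, map_zero] at hder
    have : 0 < w x₀ ^ (2 * g) := by positivity
    linarith
  have hy0 : y₀ ≠ 0 := by
    intro h
    rw [h, map_zero] at hfx
    have : 0 < w x₀ ^ (2 * g + 1) := by positivity
    norm_num at hfx
    linarith
  have h20 : (2 : W) ≠ 0 := two_ne (gup (W := W) hg)
  set c : W := 2 * y₀ / d with hc
  have hc0 : c ≠ 0 := div_ne_zero (mul_ne_zero h20 hy0) hd0
  have hcd : c * d = 2 * y₀ := div_mul_cancel₀ _ hd0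
  have hwc : w c ^ 2 * w x₀ ^ (2 * g - 1) = w 2 ^ 2 := by
    have h3 : w c * w d = w 2 * w y₀ := by rw [← map_mul, hcd, map_mul]
    have h4 : (w c ^ 2 * w x₀ ^ (2 * g - 1)) * w x₀ ^ (2 * g + 1) = w 2 ^ 2 * w x₀ ^ (2 * g + 1) := by
      rw [← hfx]
      calc (w c ^ 2 * w x₀ ^ (2 * g - 1)) * w y₀ ^ 2
          = w c ^ 2 * (w x₀ ^ (2 * g - 1) * w x₀ ^ (2 * g + 1)) := by rw [hfx]; ring
        _ = (w c * w d) ^ 2 := by
            rw [hder, ← pow_add, mul_pow, ← pow_mul]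
            congr 2
            omega
        _ = w 2 ^ 2 * w y₀ ^ 2 := by rw [h3, mul_pow]
    exact mul_right_cancel₀ (by positivity) h4
  have h3 := line hg hna hf hρ1 (x₀ := x₀) (y₀ := y₀) (x₁ := x₀) (y₁ := -y₀) (c := c) h₀ h₀.cj hc0
    (by ring) ?_ hρ hρ ?_ ?_
  · have h7 : dc hg {(x₀, -y₀)} = -dc hg {(x₀, y₀)} := by
      have := dc_cj' hg (S := {(x₀, y₀)}) (fun P hP => by rw [Multiset.mem_singleton.1 hP]; exact h₀)
      rwa [Multiset.map_singleton] at this
    rw [h7] at h3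
    have h8 := AddSubgroup.neg_mem _ h3
    have e : -(-dc hg {(x₀, y₀)} - dc hg {(x₀, y₀)}) = (2 : ℕ) • dc hg {(x₀, y₀)} := by
      rw [two_nsmul]
      abel
    rwa [e] at h8
  · -- the tangent
    set N : Polynomial W := (X - C (x₀ - c * y₀)) ^ 2 - (C c) ^ 2 * fu f W with hN
    have hy : y₀ ^ 2 = (fu f W).eval x₀ := h₀
    have hN0 : N.eval x₀ = 0 := by
      rw [hN]
      simp only [eval_sub, eval_pow, eval_mul, eval_X, eval_C]
      rw [← hy]
      ring
    have hN1 : (derivative N).eval x₀ = 0 := by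
      rw [hN]
      simp only [derivative_sub, derivative_pow, derivative_mul, derivative_X, derivative_C,
        eval_sub, eval_pow, eval_mul, eval_X, eval_C, eval_add, eval_zero, eval_one]
      rw [← hd]
      norm_num
      linear_combination (-c) * hcd
    obtain ⟨q, hq⟩ := dvd_iff_isRoot.2 hN0
    have hq0 : q.eval x₀ = 0 := by
      rw [hq] at hN1
      simpa [derivative_mul] using hN1
    obtain ⟨r, hr⟩ := dvd_iff_isRoot.2 hq0
    exact ⟨r, by rw [hq, hr]; ring⟩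
  · -- `|c y₀|`
    have h4 : w (c * y₀) * w x₀ ^ (2 * g) = w 2 * w x₀ * w x₀ ^ (2 * g) := by
      have h5 : w c * w d = w 2 * w y₀ := by rw [← map_mul, hcd, map_mul]
      rw [map_mul]
      calc w c * w y₀ * w x₀ ^ (2 * g) = (w c * w d) * w y₀ := by rw [hder]; ring
        _ = w 2 * w y₀ ^ 2 := by rw [h5]; ring
        _ = w 2 * w x₀ * w x₀ ^ (2 * g) := by rw [hfx, pow_succ]; ring
    have h5 : w (c * y₀) = w 2 * w x₀ := mul_right_cancel₀ (by positivity) h4
    rw [h5]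
    calc w 2 * w x₀ ≤ 1 * w x₀ := mul_le_mul_of_nonneg_right h2.le hx0.le
      _ ≤ ρ := by linarith
  · have h5 : 0 < w x₀ ^ (2 * g - 1) := by positivity
    have h6 : (w c ^ 2 * ρ ^ (2 * g - 1)) * w x₀ ^ (2 * g - 1) < 1 * w x₀ ^ (2 * g - 1) := by
      calc (w c ^ 2 * ρ ^ (2 * g - 1)) * w x₀ ^ (2 * g - 1)
          = (w c ^ 2 * w x₀ ^ (2 * g - 1)) * ρ ^ (2 * g - 1) := by ring
        _ = w 2 ^ 2 * ρ ^ (2 * g - 1) := by rw [hwc]
        _ < 1 * w x₀ ^ (2 * g - 1) := by rw [one_mul]; exact hρ2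
    exact lt_of_mul_lt_mul_right h6 h5.le

/-- multiplication by two moves the points to infinity -/
theorem dbl_GG [IsAlgClosed W] (hna : Na w) (h2 : w 2 < 1) {g : ℕ} (hf : Int w f g) {ρ l : ℝ}
    (hρ : 1 ≤ ρ) (hl : 1 ≤ l) (hl2 : w 2 ^ 2 * l ^ (2 * g - 1) < 1) {z : Jac 2 f W}
    (hz : z ∈ GG hg w ρ) : (2 : ℕ) • z ∈ GG hg w (l * ρ) := by
  obtain ⟨S, hS, rfl⟩ := hz
  induction S using Multiset.induction_on with
  | empty =>
    rw [dc_zero, nsmul_zero]
    exact AddSubgroup.zero_mem _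
  | cons P S ih =>
    rw [dc_cons, nsmul_add]
    refine AddSubgroup.add_mem _ ?_ (ih fun Q hQ => hS Q (Multiset.mem_cons_of_mem hQ))
    obtain ⟨hP, hPρ⟩ := hS P (Multiset.mem_cons_self P S)
    obtain ⟨x, y⟩ := P
    simp only at hPρ
    have hx : 1 < w x := by linarith
    have h3 := dbl_pt hg hna h2 hf hP hx (ρ := l * w x) (by nlinarith) (by
      rw [mul_pow, ← mul_assoc]
      have : 0 < w x ^ (2 * g - 1) := by positivity
      nlinarith)
    exact GG_mono hg w (by nlinarith) h3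

theorem dbl_pow [IsAlgClosed W] (hna : Na w) (h2 : w 2 < 1) {g : ℕ} (hf : Int w f g) {ρ l : ℝ}
    (hρ : 1 ≤ ρ) (hl : 1 ≤ l) (hl2 : w 2 ^ 2 * l ^ (2 * g - 1) < 1) {z : Jac 2 f W}
    (hz : z ∈ GG hg w ρ) (k : ℕ) : (2 ^ k : ℕ) • z ∈ GG hg w (l ^ k * ρ) := by
  induction k with
  | zero => simpa using hz
  | succ k ih =>
    have h3 := dbl_GG hg hna h2 hf (ρ := l ^ k * ρ) (by
      have : 1 ≤ l ^ k := one_le_pow₀ hl
      nlinarith) hl hl2 ih
    have e1 : (2 ^ (k + 1) : ℕ) • z = (2 : ℕ) • (2 ^ k : ℕ) • z := by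
      rw [smul_smul, ← pow_succ']
    have e2 : l ^ (k + 1) * ρ = l * (l ^ k * ρ) := by ring
    rw [e1, e2]
    exact h3

end G

end Pool.Agent.Helper29J
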