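import Pool.Agent.Helper29J.LocalTwo

/-!
# Real points which are divisible by two
-/

set_option autoImplicit false
set_option linter.all false

open Polynomial IsDedekindDomain NumberField

namespace Pool.Agent.Helper29J

open Pool.Agent.Y160.SE
open Pool.Agent.TH115.GD (incl rs ak)

theorem local_real {K : Type} [Field K] [Algebra K ℝ] {f : K[X]} (hg : Good 2 (-1 : K) f)
    (ho : Odd f.natDegree) {a b : ℝ} (hab : b ^ 2 = (fu f ℝ).eval a)
    (h : ∃ D : Jac 2 f ℝ, 2 • jm 2 f (incl K ℝ (SeparableClosure ℝ)) D =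
      dc hg {(algebraMap ℝ (SeparableClosure ℝ) a, algebraMap ℝ (SeparableClosure ℝ) b)})
    {e : ℝ} (he : (fu f ℝ).eval e = 0) : e ≤ a := by
  obtain ⟨D, hD⟩ := h
  have hpt : ptI 2 (f.map (algebraMap K ℝ)) a b ≠ ⊥ := pt_ne_bot (a, b)
  obtain ⟨Q, hQ⟩ := cl_exists hyps hg hpt
  rw [← jm_pt hg hQ] at hD
  by_cases hb : b = 0
  · subst hb
    rw [zero_pow two_ne_zero] at hab
    have h1 := weier_sq (Ω := SeparableClosure ℝ) hg ho hab.symm hQ hD he
    linarith [h1.nonneg]
  · obtain ⟨s, u, hu⟩ := point_sq (Ω := SeparableClosure ℝ) hg ho hab hb hQ hD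
    have h1 := congrArg (Polynomial.eval e) hu
    have he' : (f.map (algebraMap K ℝ)).eval e = 0 := he
    rw [eval_mul, he', zero_mul, eval_sub, eval_sub, eval_C, eval_X, eval_pow] at h1
    nlinarith [sq_nonneg (s.eval e)]

end Pool.Agent.Helper29J
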