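import Mathlib

/-!
# The largest dominating term of a polynomial at a radius

`w` is a nonarchimedean absolute value. `Top w ρ p m`: at the radius `ρ` the term of degree `m` of `p`
dominates, and strictly the terms of larger degree.
-/

set_option autoImplicit false

open Polynomial

namespace Pool.Agent.Helper29J

variable {E : Type} [Field E] (w : AbsoluteValue E ℝ)

/-- the absolute value is nonarchimedean -/
def Na : Prop := ∀ x y, w (x + y) ≤ max (w x) (w y)

/-- the term of degree `m` dominates -/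
structure Top (ρ : ℝ) (p : E[X]) (m : ℕ) : Prop where
  ne : p.coeff m ≠ 0
  le : ∀ j, w (p.coeff j) * ρ ^ j ≤ w (p.coeff m) * ρ ^ m
  lt : ∀ j, m < j → w (p.coeff j) * ρ ^ j < w (p.coeff m) * ρ ^ m

variable {w}

theorem Top.pos {ρ : ℝ} (hρ : 0 < ρ) {p : E[X]} {m : ℕ} (h : Top w ρ p m) :
    0 < w (p.coeff m) * ρ ^ m := mul_pos (w.pos h.ne) (pow_pos hρ m)

theorem Top.unique {ρ : ℝ} {p : E[X]} {m n : ℕ} (h : Top w ρ p m) (h' : Top w ρ p n) : m = n := by
  rcases lt_trichotomy m n with h1 | h1 | h1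
  · have h2 := h.lt n h1
    have h3 := h'.le m
    linarith
  · exact h1
  · have h2 := h'.lt m h1
    have h3 := h.le n
    linarith

theorem Top.ne_zero {ρ : ℝ} {p : E[X]} {m : ℕ} (h : Top w ρ p m) : p ≠ 0 := by
  rintro rfl
  exact h.ne (coeff_zero m)

theorem exists_top {ρ : ℝ} (hρ : 0 < ρ) {p : E[X]} (hp : p ≠ 0) : ∃ m, Top w ρ p m := by
  classical
  have hne : p.support.Nonempty := support_nonempty.2 hp
  obtain ⟨i, hi, hmax⟩ := Finset.exists_max_image p.support (fun j => w (p.coeff j) * ρ ^ j) hne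
  set s := p.support.filter fun j => w (p.coeff j) * ρ ^ j = w (p.coeff i) * ρ ^ i with hs
  have hsne : s.Nonempty := ⟨i, by rw [hs, Finset.mem_filter]; exact ⟨hi, rfl⟩⟩
  have hm := s.max'_mem hsne
  set m := s.max' hsne with hmdef
  rw [hs, Finset.mem_filter] at hm
  have hle : ∀ j, w (p.coeff j) * ρ ^ j ≤ w (p.coeff m) * ρ ^ m := by
    intro j
    rw [hm.2]
    by_cases hj : j ∈ p.support
    · exact hmax j hj
    · rw [notMem_support_iff.1 hj, map_zero, zero_mul]
      exact mul_nonneg (w.nonneg _) (pow_nonneg hρ.le _)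
  refine ⟨m, mem_support_iff.1 hm.1, hle, fun j hj => lt_of_le_of_ne (hle j) fun he => ?_⟩
  have hj0 : p.coeff j ≠ 0 := by
    intro h0
    rw [h0, map_zero, zero_mul] at he
    have : 0 < w (p.coeff m) * ρ ^ m := mul_pos (w.pos (mem_support_iff.1 hm.1)) (pow_pos hρ m)
    linarith
  have hjs : j ∈ s := by
    rw [hs, Finset.mem_filter]
    exact ⟨mem_support_iff.2 hj0, he.trans hm.2⟩
  exact absurd (s.le_max' j hjs) (not_le.2 hj)

theorem w_sum_lt (hna : Na w) {ι : Type} (s : Finset ι) (a : ι → E) {B : ℝ} (hB : 0 < B)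
    (h : ∀ i ∈ s, w (a i) < B) : w (∑ i ∈ s, a i) < B := by
  classical
  induction s using Finset.induction_on with
  | empty => simpa using hB
  | insert i s hi ih =>
    rw [Finset.sum_insert hi]
    refine lt_of_le_of_lt (hna _ _) (max_lt (h i (Finset.mem_insert_self i s)) ?_)
    exact ih fun j hj => h j (Finset.mem_insert_of_mem hj)

theorem w_sum_le (hna : Na w) {ι : Type} (s : Finset ι) (a : ι → E) {B : ℝ} (hB : 0 ≤ B)
    (h : ∀ i ∈ s, w (a i) ≤ B) : w (∑ i ∈ s, a i) ≤ B := by
  classical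
  induction s using Finset.induction_on with
  | empty => simpa using hB
  | insert i s hi ih =>
    rw [Finset.sum_insert hi]
    refine (hna _ _).trans (max_le (h i (Finset.mem_insert_self i s)) ?_)
    exact ih fun j hj => h j (Finset.mem_insert_of_mem hj)

/-- if `w y < w x` then `w (x + y) = w x` -/
theorem w_add_eq (hna : Na w) {x y : E} (h : w y < w x) : w (x + y) = w x := by
  apply le_antisymm
  · exact (hna x y).trans (max_le le_rfl h.le)
  · by_contra hc
    push Not at hc
    have h1 : w x ≤ max (w (x + y)) (w y) := by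
      have h2 := hna (x + y) (-y)
      rw [add_neg_cancel_right, w.map_neg] at h2
      exact h2
    exact absurd (lt_of_le_of_lt h1 (max_lt hc h)) (lt_irrefl _)

theorem w_sub_le (hna : Na w) (x y : E) : w (x - y) ≤ max (w x) (w y) := by
  have h := hna x (-y)
  rwa [w.map_neg, ← sub_eq_add_neg] at h

theorem w_sub_eq (hna : Na w) {x y : E} (h : w y < w x) : w (x - y) = w x := by
  rw [sub_eq_add_neg]
  exact w_add_eq hna (by rwa [w.map_neg])

/-- the sum of terms one of which dominates -/
theorem w_sum_eq (hna : Na w) {ι : Type} [DecidableEq ι] (s : Finset ι) (a : ι → E) (i : ι)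
    (hi : i ∈ s) (h0 : a i ≠ 0) (h : ∀ j ∈ s, j ≠ i → w (a j) < w (a i)) :
    w (∑ j ∈ s, a j) = w (a i) := by
  rw [← Finset.add_sum_erase s a hi]
  apply w_add_eq hna
  apply w_sum_lt hna _ _ (w.pos h0)
  intro j hj
  rw [Finset.mem_erase] at hj
  exact h j hj.2 hj.1

theorem Top.mul (hna : Na w) {ρ : ℝ} (hρ : 0 < ρ) {p q : E[X]} {m n : ℕ} (hp : Top w ρ p m)
    (hq : Top w ρ q n) : Top w ρ (p * q) (m + n) := by
  classical
  have hMp := hp.pos hρ
  have hMq := hq.pos hρ
  obtain ⟨A, hA⟩ : ∃ A, A = w (p.coeff m) * ρ ^ m := ⟨_, rfl⟩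
  obtain ⟨B, hB⟩ : ∃ B, B = w (q.coeff n) * ρ ^ n := ⟨_, rfl⟩
  rw [← hA] at hMp
  rw [← hB] at hMq
  have hterm : ∀ i j, w (p.coeff i * q.coeff j) * ρ ^ (i + j) =
      (w (p.coeff i) * ρ ^ i) * (w (q.coeff j) * ρ ^ j) := by
    intro i j
    rw [map_mul, pow_add]
    ring
  have hp0 : ∀ i, 0 ≤ w (p.coeff i) * ρ ^ i := fun i => mul_nonneg (w.nonneg _) (pow_nonneg hρ.le _)
  have hq0 : ∀ i, 0 ≤ w (q.coeff i) * ρ ^ i := fun i => mul_nonneg (w.nonneg _) (pow_nonneg hρ.le _)
  have hle : ∀ i j, w (p.coeff i * q.coeff j) * ρ ^ (i + j) ≤ A * B := by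
    intro i j
    rw [hterm, hA, hB]
    exact mul_le_mul (hp.le i) (hq.le j) (hq0 j) (hA ▸ hMp.le)
  have hlt : ∀ i j, m < i ∨ n < j → w (p.coeff i * q.coeff j) * ρ ^ (i + j) < A * B := by
    intro i j h
    rw [hterm]
    rcases h with h | h
    · have h1 := hp.lt i h
      have h2 := hq.le j
      rw [← hA] at h1
      rw [← hB] at h2
      calc (w (p.coeff i) * ρ ^ i) * (w (q.coeff j) * ρ ^ j)
          ≤ (w (p.coeff i) * ρ ^ i) * B := mul_le_mul_of_nonneg_left h2 (hp0 i)
        _ < A * B := mul_lt_mul_of_pos_right h1 hMq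
    · have h1 := hp.le i
      have h2 := hq.lt j h
      rw [← hA] at h1
      rw [← hB] at h2
      calc (w (p.coeff i) * ρ ^ i) * (w (q.coeff j) * ρ ^ j)
          ≤ A * (w (q.coeff j) * ρ ^ j) := mul_le_mul_of_nonneg_right h1 (hq0 j)
        _ < A * B := mul_lt_mul_of_pos_left h2 hMp
  have hAB : 0 < A * B := mul_pos hMp hMq
  have hρn : ∀ k : ℕ, 0 < ρ ^ k := fun k => pow_pos hρ k
  -- the coefficient of degree `m + n`
  have hc : w ((p * q).coeff (m + n)) = w (p.coeff m * q.coeff n) := by
    rw [coeff_mul]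
    refine w_sum_eq hna _ (fun x : ℕ × ℕ => p.coeff x.1 * q.coeff x.2) (m, n)
      (by rw [Finset.HasAntidiagonal.mem_antidiagonal]) (mul_ne_zero hp.ne hq.ne) ?_
    rintro ⟨i, j⟩ hij hne
    rw [Finset.HasAntidiagonal.mem_antidiagonal] at hij
    have h1 : m < i ∨ n < j := by
      by_contra hcon
      push Not at hcon
      apply hne
      simp only at hij
      have : i = m := by omega
      have : j = n := by omega
      simp [*]
    have h2 := hlt i j h1
    simp only at hij
    rw [hij] at h2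
    have h3 : w (p.coeff m * q.coeff n) * ρ ^ (m + n) = A * B := by rw [hterm, hA, hB]
    rw [← h3] at h2
    exact lt_of_mul_lt_mul_right h2 (hρn _).le
  have hAB' : w ((p * q).coeff (m + n)) * ρ ^ (m + n) = A * B := by rw [hc, hterm, hA, hB]
  refine ⟨?_, fun k => ?_, fun k hk => ?_⟩
  · intro h0
    rw [h0, map_zero, zero_mul] at hAB'
    linarith
  · rw [hAB', coeff_mul, ← le_div_iff₀ (hρn k)]
    refine w_sum_le hna _ _ (div_nonneg hAB.le (hρn k).le) ?_
    rintro ⟨i, j⟩ hij
    rw [Finset.HasAntidiagonal.mem_antidiagonal] at hij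
    simp only at hij ⊢
    rw [le_div_iff₀ (hρn k), ← hij]
    exact hle i j
  · rw [hAB', coeff_mul, ← lt_div_iff₀ (hρn k)]
    refine w_sum_lt hna _ _ (div_pos hAB (hρn k)) ?_
    rintro ⟨i, j⟩ hij
    rw [Finset.HasAntidiagonal.mem_antidiagonal] at hij
    simp only at hij ⊢
    rw [lt_div_iff₀ (hρn k), ← hij]
    exact hlt i j (by omega)

theorem top_C {ρ : ℝ} {c : E} (hc : c ≠ 0) : Top w ρ (C c) 0 := by
  have h0 : 0 < w c := w.pos hc
  refine ⟨by rwa [coeff_C_zero], fun j => ?_, fun j hj => ?_⟩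
  · rcases Nat.eq_zero_or_pos j with rfl | hj
    · exact le_rfl
    · rw [coeff_C_of_ne_zero hj.ne', map_zero, zero_mul, coeff_C_zero, pow_zero, mul_one]
      exact h0.le
  · rw [coeff_C_of_ne_zero hj.ne', map_zero, zero_mul, coeff_C_zero, pow_zero, mul_one]
    exact h0

theorem top_X_sub_C {ρ : ℝ} (hρ : 0 < ρ) {a : E} (ha : w a ≤ ρ) : Top w ρ (X - C a) 1 := by
  have e1 : (X - C a : E[X]).coeff 1 = 1 := by simp
  have e0 : (X - C a : E[X]).coeff 0 = -a := by simp
  have e2 : ∀ j, 1 < j → (X - C a : E[X]).coeff j = 0 := by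
    intro j hj
    rw [coeff_sub, coeff_X_of_ne_one (by omega), coeff_C_of_ne_zero (by omega), sub_zero]
  refine ⟨by rw [e1]; exact one_ne_zero, fun j => ?_, fun j hj => ?_⟩
  · rcases Nat.lt_or_ge 1 j with hj | hj
    · rw [e2 j hj, map_zero, zero_mul, e1, map_one, one_mul, pow_one]
      exact hρ.le
    · interval_cases j
      · rw [e0, e1, w.map_neg, map_one, pow_zero, pow_one, mul_one, one_mul]
        exact ha
      · exact le_rfl
  · rw [e2 j hj, map_zero, zero_mul, e1, map_one, one_mul, pow_one]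
    exact hρ

theorem top_X_sub_C' {ρ : ℝ} (hρ : 0 < ρ) {a : E} (ha : ρ < w a) : Top w ρ (X - C a) 0 := by
  have e1 : (X - C a : E[X]).coeff 1 = 1 := by simp
  have e0 : (X - C a : E[X]).coeff 0 = -a := by simp
  have e2 : ∀ j, 1 < j → (X - C a : E[X]).coeff j = 0 := by
    intro j hj
    rw [coeff_sub, coeff_X_of_ne_one (by omega), coeff_C_of_ne_zero (by omega), sub_zero]
  have h0 : 0 < w a := hρ.trans ha
  refine ⟨by rw [e0]; exact neg_ne_zero.2 (w.pos_iff.1 h0), fun j => ?_, fun j hj => ?_⟩
  · rcases Nat.lt_or_ge 1 j with hj | hj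
    · rw [e2 j hj, map_zero, zero_mul]
      positivity
    · interval_cases j
      · exact le_rfl
      · rw [e0, e1, w.map_neg, map_one, pow_zero, pow_one, mul_one, one_mul]
        exact ha.le
  · rw [e0, w.map_neg, pow_zero, mul_one]
    rcases Nat.lt_or_ge 1 j with hj | hj
    · rw [e2 j hj, map_zero, zero_mul]
      exact h0
    · have : j = 1 := by omega
      subst this
      rw [e1, map_one, one_mul, pow_one]
      exact ha

open Classical in
/-- the number of the roots in a disc -/
theorem top_prod (hna : Na w) {ρ : ℝ} (hρ : 0 < ρ) (S : Multiset E) :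
    Top w ρ (S.map fun a => X - C a).prod (S.filter fun a => w a ≤ ρ).card := by
  induction S using Multiset.induction_on with
  | empty =>
    have h := top_C (w := w) (ρ := ρ) (one_ne_zero (α := E))
    rw [C_1] at h
    simpa using h
  | cons a S ih =>
    rw [Multiset.map_cons, Multiset.prod_cons]
    by_cases h : w a ≤ ρ
    · rw [Multiset.filter_cons_of_pos (p := fun a => w a ≤ ρ) S h, Multiset.card_cons, add_comm]
      exact (top_X_sub_C hρ h).mul hna hρ ih
    · rw [Multiset.filter_cons_of_neg (p := fun a => w a ≤ ρ) S h]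
      have := (top_X_sub_C' hρ (not_le.1 h)).mul hna hρ ih
      rwa [zero_add] at this

/-- the leading term of a polynomial with integral coefficients dominates -/
theorem top_monic {ρ : ℝ} (hρ : 1 ≤ ρ) {f : E[X]} (hf : f.Monic) (h : ∀ j, w (f.coeff j) ≤ 1) :
    Top w ρ f f.natDegree := by
  have hρ0 : 0 < ρ := by linarith
  refine ⟨by rw [hf.coeff_natDegree]; exact one_ne_zero, fun j => ?_, fun j hj => ?_⟩
  · rw [hf.coeff_natDegree, map_one, one_mul]
    rcases Nat.lt_or_ge f.natDegree j with hj | hj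
    · rw [coeff_eq_zero_of_natDegree_lt hj, map_zero, zero_mul]
      positivity
    · calc w (f.coeff j) * ρ ^ j ≤ 1 * ρ ^ j :=
            mul_le_mul_of_nonneg_right (h j) (pow_nonneg hρ0.le _)
        _ ≤ ρ ^ f.natDegree := by
            rw [one_mul]
            exact pow_le_pow_right₀ hρ hj
  · rw [coeff_eq_zero_of_natDegree_lt hj, map_zero, zero_mul, hf.coeff_natDegree, map_one, one_mul]
    positivity

/-- the value of a polynomial with integral coefficients outside of the unit disc -/
theorem w_eval (hna : Na w) {f : E[X]} (hf : w (f.coeff f.natDegree) = 1)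
    (h : ∀ j, w (f.coeff j) ≤ 1) {a : E} (ha : 1 < w a) : w (f.eval a) = w a ^ f.natDegree := by
  classical
  have ha0 : 0 < w a := by linarith
  rw [eval_eq_sum_range]
  have e : w (f.coeff f.natDegree * a ^ f.natDegree) = w a ^ f.natDegree := by
    rw [map_mul, hf, one_mul, map_pow]
  rw [w_sum_eq hna _ (fun i => f.coeff i * a ^ i) f.natDegree (Finset.self_mem_range_succ _)
    (by
      refine mul_ne_zero (w.pos_iff.1 (by rw [hf]; exact one_pos)) ?_
      exact pow_ne_zero _ (w.pos_iff.1 ha0)) ?_]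
  · exact e
  · intro j hj hne
    rw [Finset.mem_range] at hj
    rw [e, map_mul, map_pow]
    calc w (f.coeff j) * w a ^ j ≤ 1 * w a ^ j :=
          mul_le_mul_of_nonneg_right (h j) (pow_nonneg ha0.le _)
      _ < w a ^ f.natDegree := by
          rw [one_mul]
          exact pow_lt_pow_right₀ ha (by omega)

theorem w_eval_le (hna : Na w) {f : E[X]} (h : ∀ j, w (f.coeff j) ≤ 1) {a : E}
    (ha : w a ≤ 1) : w (f.eval a) ≤ 1 := by
  classical
  rw [eval_eq_sum_range]
  refine w_sum_le hna _ _ zero_le_one fun j _ => ?_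
  rw [map_mul, map_pow]
  exact mul_le_one₀ (h j) (pow_nonneg (w.nonneg _) _) (pow_le_one₀ (w.nonneg _) ha)

/-- a small perturbation -/
theorem Top.sub_small (hna : Na w) {ρ : ℝ} (hρ : 0 < ρ) {p q : E[X]} {s : ℕ} (hp : Top w ρ p s)
    (hq : ∀ k, w (q.coeff k) * ρ ^ k < w (p.coeff s) * ρ ^ s) : Top w ρ (p - q) s := by
  have hpos : ∀ k : ℕ, 0 < ρ ^ k := fun k => pow_pos hρ k
  have h2 : w ((p - q).coeff s) = w (p.coeff s) := by
    rw [coeff_sub]
    apply w_sub_eq hna
    exact lt_of_mul_lt_mul_right (hq s) (hpos s).le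
  refine ⟨?_, fun k => ?_, fun k hk => ?_⟩
  · rw [← w.pos_iff, h2]
    exact w.pos hp.ne
  · rw [h2, coeff_sub, ← le_div_iff₀ (hpos k)]
    refine (w_sub_le hna _ _).trans (max_le ?_ ?_)
    · rw [le_div_iff₀ (hpos k)]
      exact hp.le k
    · rw [le_div_iff₀ (hpos k)]
      exact (hq k).le
  · rw [h2, coeff_sub, ← lt_div_iff₀ (hpos k)]
    refine lt_of_le_of_lt (w_sub_le hna _ _) (max_lt ?_ ?_)
    · rw [lt_div_iff₀ (hpos k)]
      exact hp.lt k hk
    · rw [lt_div_iff₀ (hpos k)]
      exact hq k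

/-- `α ^ 2 - β ^ 2 * f` has no linear dominating term -/
theorem no_top_one (hna : Na w) {ρ : ℝ} (hρ : 0 < ρ) {f α β : E[X]} {g : ℕ} (hg : 1 ≤ g)
    (hf : Top w ρ f (2 * g + 1)) (hN : Top w ρ (α ^ 2 - β ^ 2 * f) 1) : False := by
  -- the two parts
  have hα : α = 0 ∨ ∃ i, Top w ρ (α ^ 2) (2 * i) := by
    by_cases h : α = 0
    · exact Or.inl h
    · obtain ⟨i, hi⟩ := exists_top (w := w) hρ h
      refine Or.inr ⟨i, ?_⟩
      rw [pow_two, two_mul]
      exact hi.mul hna hρ hi
  have hβ : β = 0 ∨ ∃ j, 3 ≤ 2 * j + (2 * g + 1) ∧ Top w ρ (β ^ 2 * f) (2 * j + (2 * g + 1)) := by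
    by_cases h : β = 0
    · exact Or.inl h
    · obtain ⟨j, hj⟩ := exists_top (w := w) hρ h
      refine Or.inr ⟨j, by omega, ?_⟩
      have h1 := hj.mul hna hρ hj
      rw [← pow_two, ← two_mul] at h1
      exact h1.mul hna hρ hf
  rcases hα with hα | ⟨i, hi⟩
  · rcases hβ with hβ | ⟨j, hj1, hj⟩
    · rw [hα, hβ] at hN
      apply hN.ne
      simp
    · have h1 : Top w ρ (α ^ 2 - β ^ 2 * f) (2 * j + (2 * g + 1)) := by
        rw [hα]
        refine ⟨?_, fun k => ?_, fun k hk => ?_⟩
        · have := hj.ne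
          simp only [ne_eq, OfNat.ofNat_ne_zero, not_false_eq_true, zero_pow, zero_sub, coeff_neg,
            neg_eq_zero]
          exact this
        · have := hj.le k
          simp only [ne_eq, OfNat.ofNat_ne_zero, not_false_eq_true, zero_pow, zero_sub, coeff_neg,
            w.map_neg]
          exact this
        · have := hj.lt k hk
          simp only [ne_eq, OfNat.ofNat_ne_zero, not_false_eq_true, zero_pow, zero_sub, coeff_neg,
            w.map_neg]
          exact this
      have := hN.unique h1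
      omega
  · rcases hβ with hβ | ⟨j, hj1, hj⟩
    · have h1 : Top w ρ (α ^ 2 - β ^ 2 * f) (2 * i) := by
        rw [hβ]
        simpa using hi
      have := hN.unique h1
      omega
    · -- both parts are there
      obtain ⟨s, hs⟩ : ∃ s, s = 2 * i := ⟨_, rfl⟩
      obtain ⟨t, ht⟩ : ∃ t, t = 2 * j + (2 * g + 1) := ⟨_, rfl⟩
      rw [← hs] at hi
      rw [← ht] at hj hj1
      have hst : s ≠ t := by omega
      obtain ⟨p, hp⟩ : ∃ p, p = α ^ 2 := ⟨_, rfl⟩
      obtain ⟨q, hq⟩ : ∃ q, q = β ^ 2 * f := ⟨_, rfl⟩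
      rw [← hp, ← hq] at hN
      rw [← hp] at hi
      rw [← hq] at hj
      have hpos : ∀ k : ℕ, 0 < ρ ^ k := fun k => pow_pos hρ k
      -- a general fact
      have key : ∀ (p q : E[X]) (s t : ℕ), s ≠ t → Top w ρ p s → Top w ρ q t →
          w (q.coeff t) * ρ ^ t ≤ w (p.coeff s) * ρ ^ s → (w (q.coeff t) * ρ ^ t = w (p.coeff s) * ρ ^ s → t < s) →
          Top w ρ (p - q) s := by
        intro p q s t hst hp hq hle hlt
        have h1 : ∀ k, s ≤ k → w (q.coeff k) * ρ ^ k < w (p.coeff s) * ρ ^ s := by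
          intro k hk
          rcases lt_or_eq_of_le hle with h | h
          · exact lt_of_le_of_lt (hq.le k) h
          · rw [← h]
            exact hq.lt k (by have := hlt h; omega)
        have h2 : w ((p - q).coeff s) = w (p.coeff s) := by
          rw [coeff_sub]
          apply w_sub_eq hna
          exact lt_of_mul_lt_mul_right (h1 s le_rfl) (hpos s).le
        refine ⟨?_, fun k => ?_, fun k hk => ?_⟩
        · rw [← w.pos_iff, h2]
          exact w.pos hp.ne
        · rw [h2, coeff_sub, ← le_div_iff₀ (hpos k)]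
          refine (w_sub_le hna _ _).trans (max_le ?_ ?_)
          · rw [le_div_iff₀ (hpos k)]
            exact hp.le k
          · rw [le_div_iff₀ (hpos k)]
            exact (hq.le k).trans hle
        · rw [h2, coeff_sub, ← lt_div_iff₀ (hpos k)]
          refine lt_of_le_of_lt (w_sub_le hna _ _) (max_lt ?_ ?_)
          · rw [lt_div_iff₀ (hpos k)]
            exact hp.lt k hk
          · rw [lt_div_iff₀ (hpos k)]
            exact h1 k hk.le
      rcases lt_trichotomy (w (q.coeff t) * ρ ^ t) (w (p.coeff s) * ρ ^ s) with h | h | h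
      · have h3 := key p q s t hst hi hj h.le (fun h' => absurd h' h.ne)
        have := hN.unique h3
        omega
      · rcases Nat.lt_or_ge t s with h4 | h4
        · have h3 := key p q s t hst hi hj h.le (fun _ => h4)
          have := hN.unique h3
          omega
        · have h3 := key q p t s (Ne.symm hst) hj hi h.ge (fun _ => by omega)
          have h5 : Top w ρ (p - q) t := by
            have e : p - q = -(q - p) := by ring
            rw [e]
            refine ⟨?_, fun k => ?_, fun k hk => ?_⟩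
            · rw [coeff_neg, neg_ne_zero]
              exact h3.ne
            · rw [coeff_neg, coeff_neg, w.map_neg, w.map_neg]
              exact h3.le k
            · rw [coeff_neg, coeff_neg, w.map_neg, w.map_neg]
              exact h3.lt k hk
          have := hN.unique h5
          omega
      · have h3 := key q p t s (Ne.symm hst) hj hi h.le (fun h' => absurd h' h.ne)
        have h5 : Top w ρ (p - q) t := by
          have e : p - q = -(q - p) := by ring
          rw [e]
          refine ⟨?_, fun k => ?_, fun k hk => ?_⟩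
          · rw [coeff_neg, neg_ne_zero]
            exact h3.ne
          · rw [coeff_neg, coeff_neg, w.map_neg, w.map_neg]
            exact h3.le k
          · rw [coeff_neg, coeff_neg, w.map_neg, w.map_neg]
            exact h3.lt k hk
        have := hN.unique h5
        omega

end Pool.Agent.Helper29J
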