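import Pool.Agent.Y160.SE.All
import Pool.Agent.Y160.SE.PtI
import Pool.Agent.Helper29J.Top

/-!
# Points and ideals of the curve `y ^ 2 = f(x)`
-/

set_option autoImplicit false
set_option linter.all false

open Polynomial IsDedekindDomain
open scoped nonZeroDivisors Pointwise

namespace Pool.Agent.Helper29J

open Pool.Agent.Y160.SE

section E

variable {E : Type} [Field E] {f : E[X]} (hg : Good 2 (-1 : E) f)

/-- the point lies on the curve -/
def On (f : E[X]) (P : E × E) : Prop := P.2 ^ 2 = f.eval P.1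

/-- the conjugate point -/
def cj (P : E × E) : E × E := (P.1, -P.2)

theorem On.cj {P : E × E} (h : On f P) : On f (cj P) := by
  unfold On Pool.Agent.Helper29J.cj at *
  simp only [neg_sq]
  exact h

theorem cj_cj (P : E × E) : cj (cj P) = P := by
  unfold cj
  simp

include hg

theorem two_ne : (2 : E) ≠ 0 := by
  intro h
  have h1 := hg.root.pow_ne_one_of_pos_of_lt one_ne_zero (by norm_num)
  apply h1
  rw [pow_one]
  have : (1 : E) + 1 = 0 := by rw [one_add_one_eq_two]; exact h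
  exact (eq_neg_of_add_eq_zero_left this).symm

theorem pt_mul_cj {P : E × E} (h : On f P) :
    ptI 2 f P.1 P.2 * ptI 2 f P.1 (-P.2) = Ideal.span {xp 2 f (X - C P.1)} := by
  obtain ⟨x, y⟩ := P
  simp only at *
  have hy : y ^ 2 = f.eval x := h
  obtain ⟨q, hq⟩ := X_sub_C_dvd_sub_C_eval (p := f) (a := x)
  have hqe : q.eval x = (derivative f).eval x := by
    have h1 := congrArg derivative hq
    rw [derivative_sub, derivative_C, sub_zero, derivative_mul, derivative_sub, derivative_X,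
      derivative_C, sub_zero, one_mul] at h1
    rw [h1, eval_add, eval_mul, eval_sub, eval_X, eval_C, sub_self, zero_mul, add_zero]
  set u := xp 2 f (X - C x) with hu
  set Y := yy 2 f with hY
  have hYY : Y * Y = xp 2 f f := by rw [← pow_two]; exact yy_pow 2 f
  have hfx : Y * Y - xp 2 f (C (y ^ 2)) = u * xp 2 f q := by
    rw [hYY, hy, hu, ← xp_mul, ← hq, xp_sub]
  unfold ptI
  rw [Ideal.span_mul_span']
  apply le_antisymm
  · rw [Ideal.span_le]
    rintro _ ⟨a, ha, b, hb, rfl⟩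
    rw [SetLike.mem_coe, Ideal.mem_span_singleton]
    rcases ha with rfl | rfl
    · exact Dvd.intro _ rfl
    · rcases hb with rfl | rfl
      · exact Dvd.intro_left _ rfl
      · refine ⟨xp 2 f q, ?_⟩
        show (Y - xp 2 f (C y)) * (Y - xp 2 f (C (-y))) = u * xp 2 f q
        rw [← hfx, C_neg, xp_neg, pow_two y, C_mul, xp_mul]
        ring
  · rw [Ideal.span_singleton_le_iff_mem]
    set I : Ideal (CR 2 f) := Ideal.span
      (({xp 2 f (X - C x), yy 2 f - xp 2 f (C y)} : Set (CR 2 f)) *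
      ({xp 2 f (X - C x), yy 2 f - xp 2 f (C (-y))} : Set (CR 2 f))) with hI
    have m1 : u * u ∈ I := Ideal.subset_span ⟨u, Or.inl rfl, u, Or.inl rfl, rfl⟩
    have m2 : u * (Y - xp 2 f (C (-y))) ∈ I := Ideal.subset_span ⟨u, Or.inl rfl, _, Or.inr rfl, rfl⟩
    have m3 : (Y - xp 2 f (C y)) * u ∈ I := Ideal.subset_span ⟨_, Or.inr rfl, u, Or.inl rfl, rfl⟩
    have m4 : (Y - xp 2 f (C y)) * (Y - xp 2 f (C (-y))) ∈ I :=
      Ideal.subset_span ⟨_, Or.inr rfl, _, Or.inr rfl, rfl⟩
    have e4 : (Y - xp 2 f (C y)) * (Y - xp 2 f (C (-y))) = u * xp 2 f q := by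
      rw [← hfx, C_neg, xp_neg, pow_two y, C_mul, xp_mul]
      ring
    rw [e4] at m4
    -- `q = q(x) + (X - x) r`
    obtain ⟨r, hr⟩ := X_sub_C_dvd_sub_C_eval (p := q) (a := x)
    have m5 : u * xp 2 f (C (q.eval x)) ∈ I := by
      have e5 : u * xp 2 f (C (q.eval x)) = u * xp 2 f q - xp 2 f r * (u * u) := by
        have : xp 2 f q = xp 2 f (C (q.eval x)) + u * xp 2 f r := by
          rw [hu, ← xp_mul, ← hr, xp_sub]
          ring
        rw [this]
        ring
      rw [e5]
      exact Ideal.sub_mem _ m4 (Ideal.mul_mem_left _ _ m1)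
    have m6 : u * xp 2 f (C (2 * y)) ∈ I := by
      have e6 : u * xp 2 f (C (2 * y)) = u * (Y - xp 2 f (C (-y))) - (Y - xp 2 f (C y)) * u := by
        rw [C_neg, xp_neg, C_mul, xp_mul]
        have : xp 2 f (C (2 : E)) = 2 := by
          have : (C (2 : E) : E[X]) = 1 + 1 := by rw [← C_1, ← C_add]; norm_num
          rw [this, xp_add, xp_one]
          norm_num
        rw [this]
        ring
      rw [e6]
      exact Ideal.sub_mem _ m2 m3
    have key : ∀ c : E, c ≠ 0 → u * xp 2 f (C c) ∈ I → u ∈ I := by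
      intro c hc h1
      have h2 := Ideal.mul_mem_left I (xp 2 f (C c⁻¹)) h1
      have e : xp 2 f (C c⁻¹) * (u * xp 2 f (C c)) = u := by
        have : xp 2 f (C c⁻¹) * xp 2 f (C c) = 1 := by
          rw [← xp_mul, ← C_mul, inv_mul_cancel₀ hc, C_1, xp_one]
        linear_combination u * this
      rwa [e] at h2
    by_cases hy0 : y = 0
    · apply key _ _ m5
      rw [hqe]
      intro h0
      have h1 : f.eval x = 0 := by rw [← hy, hy0]; ring
      obtain ⟨a, b, hab⟩ := hg.sep
      have h2 := congrArg (Polynomial.eval x) hab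
      rw [eval_add, eval_mul, eval_mul, h1, h0, mul_zero, mul_zero, add_zero, eval_one] at h2
      exact zero_ne_one h2
    · exact key _ (mul_ne_zero (two_ne hg) hy0) m6

omit hg in
theorem pt_ne_bot (P : E × E) : ptI 2 f P.1 P.2 ≠ ⊥ := by
  intro h0
  have hmem : xp 2 f (X - C P.1) ∈ ptI 2 f P.1 P.2 := Ideal.subset_span (Or.inl rfl)
  rw [h0, Ideal.mem_bot] at hmem
  have := xp_inj two_ne_zero (hmem.trans xp_zero.symm)
  exact X_sub_C_ne_zero _ this

/-- the map `y ↦ - y` -/
theorem pt_map (P : E × E) : (ptI 2 f P.1 P.2).map hg.tw = ptI 2 f P.1 (-P.2) := by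
  unfold ptI
  rw [Ideal.map_span]
  have e1 : hg.tw (xp 2 f (X - C P.1)) = xp 2 f (X - C P.1) := tw_xp _ _
  have e2 : hg.tw (yy 2 f - xp 2 f (C P.2)) = -(yy 2 f - xp 2 f (C (-P.2))) := by
    rw [map_sub, tw_xp, tw_yy, C_neg, xp_neg, C_neg, xp_neg, C_1, xp_one]
    ring
  rw [Set.image_pair, e1, e2]
  rw [Ideal.span_insert, Ideal.span_insert, Ideal.span_singleton_neg]

/-- the ideal of a divisor and its conjugate -/
theorem dv_mul_cj {S : Multiset (E × E)} (hS : ∀ P ∈ S, On f P) :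
    dvI 2 f S * dvI 2 f (S.map cj) = Ideal.span {xp 2 f (dvP S)} := by
  induction S using Multiset.induction_on with
  | empty =>
    unfold dvI dvP
    simp only [Multiset.map_zero, Multiset.prod_zero, xp_one, Ideal.span_singleton_one, mul_one]
    exact Ideal.one_eq_top
  | cons P S ih =>
    have h1 := ih fun Q hQ => hS Q (Multiset.mem_cons_of_mem hQ)
    have h2 := pt_mul_cj hg (hS P (Multiset.mem_cons_self P S))
    unfold dvI dvP at *
    rw [Multiset.map_cons, Multiset.prod_cons, Multiset.map_cons, Multiset.map_cons,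
      Multiset.prod_cons, Multiset.map_cons, Multiset.prod_cons, xp_mul,
      ← Ideal.span_singleton_mul_span_singleton, ← h2, ← h1]
    unfold cj
    ring

theorem dv_map (S : Multiset (E × E)) : (dvI 2 f S).map hg.tw = dvI 2 f (S.map cj) := by
  unfold dvI
  rw [← Ideal.mapHom_apply, map_multiset_prod, Multiset.map_map, Multiset.map_map]
  congr 1
  apply Multiset.map_congr rfl
  intro P _
  rw [Function.comp_apply, Function.comp_apply, Ideal.mapHom_apply, pt_map hg]
  rfl

omit hg in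
theorem dv_ne_bot [IsDomain (CR 2 f)] (S : Multiset (E × E)) : dvI 2 f S ≠ ⊥ := by
  unfold dvI
  intro h
  rw [← Ideal.zero_eq_bot, Multiset.prod_eq_zero_iff, Multiset.mem_map] at h
  obtain ⟨P, _, hP⟩ := h
  exact pt_ne_bot P hP

/-- prime ideals over an algebraically closed field -/
theorem prime_pt [IsAlgClosed E] (hd : f.natDegree ≠ 0) (P : Ideal (CR 2 f)) (hP : P.IsPrime) (h0 : P ≠ ⊥) :
    ∃ Q : E × E, On f Q ∧ P = ptI 2 f Q.1 Q.2 := by
  obtain ⟨p, hp, hpm, hcase⟩ := hyps.max 2 E (-1) f hg P hP h0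
  obtain ⟨a, rfl⟩ : ∃ a, p = X - C a := by
    obtain ⟨a, ha⟩ := IsAlgClosed.exists_root p (by
      intro h
      have := (degree_eq_iff_natDegree_eq hp.ne_zero).1 h
      exact hp.not_isUnit (by
        rw [Polynomial.isUnit_iff_degree_eq_zero, h]))
    refine ⟨a, ?_⟩
    have h5 : (X - C a) ∣ p := dvd_iff_isRoot.2 ha
    exact (eq_of_monic_of_associated (monic_X_sub_C a) hpm
      ((irreducible_X_sub_C a).associated_of_dvd hp h5)).symm
  rcases hcase with ⟨h1, h3⟩ | ⟨h1, c, h3, h4, h5⟩ | ⟨h1, h3, h4⟩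
  · obtain ⟨b, hb⟩ := IsAlgClosed.exists_pow_nat_eq (f.eval a) (n := 2) (by norm_num)
    have hon : On f (a, b) := hb
    have h6 := pt_mul_cj hg hon
    simp only at h6
    rw [← h3] at h6
    have h7 : ptI 2 f a b ≤ P ∨ ptI 2 f a (-b) ≤ P := (hP.mul_le).1 h6.le
    have hmax : ∀ b : E, b ^ 2 = f.eval a → (ptI 2 f a b).IsMaximal := by
      intro b hb
      haveI := hyps.ring 2 E _ _ hg
      have : (ptI 2 f a b).IsPrime := by
        rw [ptI_eq hb]
        exact RingHom.ker_isPrime _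
      exact this.isMaximal (pt_ne_bot (f := f) (a, b))
    rcases h7 with h7 | h7
    · exact ⟨(a, b), hon, ((hmax b hb).eq_of_le hP.ne_top h7).symm⟩
    · exact ⟨(a, -b), hon.cj, ((hmax (-b) (by rw [neg_sq]; exact hb)).eq_of_le hP.ne_top h7).symm⟩
  · refine ⟨(a, c.eval a), ?_, ?_⟩
    · rw [dvd_iff_isRoot, IsRoot.def, eval_sub, eval_pow] at h3
      unfold On
      simp only
      linear_combination -h3
    · rw [h4]
      unfold ptI
      simp only
      obtain ⟨r, hr⟩ := X_sub_C_dvd_sub_C_eval (p := c) (a := a)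
      have e : yy 2 f - xp 2 f c = (yy 2 f - xp 2 f (C (c.eval a))) - xp 2 f r * xp 2 f (X - C a) := by
        rw [← xp_mul, mul_comm r, ← hr, xp_sub]
        ring
      rw [e]
      apply le_antisymm
      · rw [Ideal.span_le]
        rintro z (rfl | rfl)
        · exact Ideal.subset_span (Or.inl rfl)
        · exact Ideal.sub_mem _ (Ideal.subset_span (Or.inr rfl))
            (Ideal.mul_mem_left _ _ (Ideal.subset_span (Or.inl rfl)))
      · rw [Ideal.span_le]
        rintro z (rfl | rfl)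
        · exact Ideal.subset_span (Or.inl rfl)
        · have h7 := Ideal.add_mem (Ideal.span {xp 2 f (X - C a), (yy 2 f - xp 2 f (C (c.eval a))) -
              xp 2 f r * xp 2 f (X - C a)}) (Ideal.subset_span (Or.inr rfl))
            (Ideal.mul_mem_left _ (xp 2 f r) (Ideal.subset_span (Or.inl rfl)))
          rw [sub_add_cancel] at h7
          exact h7
  · refine ⟨(a, 0), ?_, ?_⟩
    · rw [dvd_iff_isRoot, IsRoot.def] at h1
      unfold On
      simp only
      rw [h1]
      ring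
    · rw [h3]
      unfold ptI
      simp only [C_0, xp_zero, sub_zero]

/-- every ideal over an algebraically closed field is given by a divisor -/
theorem exists_dv [IsAlgClosed E] (hd : f.natDegree ≠ 0) (I : Ideal (CR 2 f)) (h0 : I ≠ ⊥) :
    ∃ S : Multiset (E × E), (∀ P ∈ S, On f P) ∧ I = dvI 2 f S := by
  haveI := hyps.ring 2 E _ _ hg
  have h0' : I ≠ 0 := h0
  refine UniqueFactorizationMonoid.induction_on_prime (P := fun I : Ideal (CR 2 f) => I ≠ 0 →
    ∃ S : Multiset (E × E), (∀ P ∈ S, On f P) ∧ I = dvI 2 f S) I (fun h => absurd rfl h) ?_ ?_ h0'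
  · intro u hu _
    refine ⟨0, fun P hP => absurd hP (Multiset.notMem_zero P), ?_⟩
    rw [Ideal.isUnit_iff] at hu
    rw [hu]
    unfold dvI
    rw [Multiset.map_zero, Multiset.prod_zero, Ideal.one_eq_top]
  · intro J p hJ hp ih _
    obtain ⟨S, hS, rfl⟩ := ih hJ
    obtain ⟨Q, hQ, rfl⟩ := prime_pt hg hd p ((Ideal.prime_iff_isPrime hp.ne_zero).1 hp) hp.ne_zero
    refine ⟨Q ::ₘ S, ?_, ?_⟩
    · intro P hP
      rcases Multiset.mem_cons.1 hP with rfl | hP
      · exact hQ
      · exact hS P hP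
    · unfold dvI
      rw [Multiset.map_cons, Multiset.prod_cons]

/-- a function on the curve -/
noncomputable def fn (f α β : E[X]) : CR 2 f := xp 2 f α + xp 2 f β * yy 2 f

theorem fn_cj (α β : E[X]) : hg.tw (fn f α β) = fn f α (-β) := by
  unfold fn
  rw [map_add, map_mul, tw_xp, tw_xp, tw_yy, C_neg, C_1, xp_neg, xp_one, xp_neg]
  ring

omit hg in
theorem fn_mul_cj (α β : E[X]) : fn f α β * fn f α (-β) = xp 2 f (α ^ 2 - β ^ 2 * f) := by
  have h := yy_pow 2 f
  unfold fn
  rw [xp_neg, xp_sub, xp_pow, xp_mul, xp_pow]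
  linear_combination -(xp 2 f β) ^ 2 * h

/-- the norm of a function with a given divisor -/
theorem norm_of_dv {α β : E[X]} {S : Multiset (E × E)} (hS : ∀ P ∈ S, On f P)
    (hI : Ideal.span {fn f α β} = dvI 2 f S) : ∃ c : E, c ≠ 0 ∧ α ^ 2 - β ^ 2 * f = C c * dvP S := by
  haveI := hyps.ring 2 E _ _ hg
  have h1 : Ideal.span {fn f α (-β)} = dvI 2 f (S.map cj) := by
    rw [← dv_map hg, ← hI, Ideal.map_span, Set.image_singleton, fn_cj]
  have h2 := dv_mul_cj hg hS
  rw [← h1, ← hI, Ideal.span_singleton_mul_span_singleton, fn_mul_cj,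
    Ideal.span_singleton_eq_span_singleton] at h2
  obtain ⟨u, hu⟩ := h2
  obtain ⟨c, hc, hc2⟩ := (hyps.norm 2 E (-1) f hg).2.1 (↑u⁻¹) (Units.isUnit _)
  refine ⟨c, hc, ?_⟩
  apply xp_inj (f := f) two_ne_zero
  rw [xp_mul, ← hc2, ← hu, mul_left_comm, Units.inv_mul, mul_one]

/-- the divisor of a function -/
theorem dv_fn [IsAlgClosed E] (hd : f.natDegree ≠ 0) {α β : E[X]} (h0 : α ^ 2 - β ^ 2 * f ≠ 0) :
    ∃ (S : Multiset (E × E)) (c : E), (∀ P ∈ S, On f P) ∧ Ideal.span {fn f α β} = dvI 2 f S ∧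
      c ≠ 0 ∧ α ^ 2 - β ^ 2 * f = C c * dvP S := by
  haveI := hyps.ring 2 E _ _ hg
  have hne : fn f α β ≠ 0 := by
    intro h
    have h1 := fn_mul_cj (f := f) α β
    rw [h, zero_mul] at h1
    exact h0 (xp_inj two_ne_zero (h1.symm.trans xp_zero.symm))
  obtain ⟨S, hS, hI⟩ := exists_dv hg hd (Ideal.span {fn f α β}) (by
    rw [Ne, Ideal.span_singleton_eq_bot]
    exact hne)
  obtain ⟨c, hc, hc2⟩ := norm_of_dv hg hS hI
  exact ⟨S, c, hS, hI, hc, hc2⟩

/-- every element of the coordinate ring -/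
theorem exists_fn (z : CR 2 f) : ∃ α β : E[X], z = fn f α β := by
  obtain ⟨p, hp, rfl⟩ := cr_repr two_ne_zero z
  refine ⟨p.coeff 0, p.coeff 1, ?_⟩
  have h1 : p = C (p.coeff 0) + C (p.coeff 1) * X := by
    have h2 : p.natDegree ≤ 1 := by omega
    conv_lhs => rw [Polynomial.eq_X_add_C_of_natDegree_le_one h2]
    ring
  conv_lhs => rw [h1]
  rw [map_add, map_mul]
  rfl

omit hg in
/-- a function vanishes at the points of its divisor -/
theorem fn_mem {α β : E[X]} {S : Multiset (E × E)}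
    (hI : Ideal.span {fn f α β} = dvI 2 f S) {P : E × E} (hP : P ∈ S) (hon : On f P) :
    α.eval P.1 + β.eval P.1 * P.2 = 0 := by
  have h1 : dvI 2 f S ≤ ptI 2 f P.1 P.2 := by
    obtain ⟨S', rfl⟩ := Multiset.exists_cons_of_mem hP
    have h8 : ∀ (R : Type) [CommRing R] (I J : Ideal R), I * J ≤ I :=
      fun R _ I J => Ideal.mul_le_left
    have h9 : dvI 2 f (P ::ₘ S') = ptI 2 f P.1 P.2 * dvI 2 f S' := by
      unfold dvI
      rw [Multiset.map_cons, Multiset.prod_cons]
    rw [h9]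
    exact h8 (CR 2 f) _ _
  have h2 : fn f α β ∈ ptI 2 f P.1 P.2 := h1 (hI ▸ Ideal.mem_span_singleton_self _)
  rw [ptI_eq hon, RingHom.mem_ker] at h2
  unfold fn at h2
  rw [map_add, map_mul, evP_xp, evP_xp, evP_yy] at h2
  exact h2

end E

end Pool.Agent.Helper29J
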