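import Pool.Agent.Helper29J.Small

/-!
# Representatives of bounded degree
-/

set_option autoImplicit false
set_option linter.all false

open Polynomial IsDedekindDomain
open scoped nonZeroDivisors

namespace Pool.Agent.Helper29J

open Pool.Agent.Y160.SE

section E

variable {E : Type} [Field E] {f : E[X]} (hg : Good 2 (-1 : E) f)

theorem fn_zero {a b : E[X]} (h : fn f a b = 0) : a = 0 ∧ b = 0 := by
  have h1 : AdjoinRoot.mk (X ^ 2 - C f : E[X][X]) (C a + C b * X) = 0 := by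
    rw [map_add, map_mul]
    exact h
  have h2 := cr_repr_zero two_ne_zero (by
    refine lt_of_le_of_lt (natDegree_add_le _ _) (max_lt (by rw [natDegree_C]; norm_num) ?_)
    refine lt_of_le_of_lt (natDegree_mul_le) ?_
    rw [natDegree_C, natDegree_X]
    norm_num) h1
  constructor
  · have := congrArg (fun p => p.coeff 0) h2
    simpa using this
  · have := congrArg (fun p => p.coeff 1) h2
    simpa using this

include hg

theorem xp_dvd {p q : E[X]} (h : xp 2 f p ∣ xp 2 f q) : p ∣ q := by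
  obtain ⟨z, hz⟩ := h
  obtain ⟨α, β, rfl⟩ := exists_fn hg z
  have h1 : fn f (q - p * α) (-(p * β)) = 0 := by
    unfold fn at hz ⊢
    rw [xp_sub, xp_neg, xp_mul, xp_mul]
    linear_combination hz
  exact ⟨α, sub_eq_zero.1 (fn_zero h1).1⟩

theorem span_xp {p q : E[X]} (h : Ideal.span {xp 2 f p} = Ideal.span {xp 2 f q}) :
    Associated p q := by
  haveI := hyps.ring 2 E _ _ hg
  rw [Ideal.span_singleton_eq_span_singleton] at h
  exact associated_of_dvd_dvd (xp_dvd hg h.dvd) (xp_dvd hg h.symm.dvd)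

end E

section rep

variable {K₀ K W : Type} [Field K₀] [Field K] [Field W] [Algebra K₀ K] [Algebra K₀ W]
  {f : K₀[X]} (hg : Good 2 (-1 : K₀) f)

include hg

theorem rep_ideal {n : ℕ} (hn : f.natDegree = 2 * n + 1) (D : Jac 2 f K) :
    ∃ (I : Ideal (CR 2 (fu f K))) (g : K[X]), I ≠ ⊥ ∧ IsCl K I D ∧ g.Monic ∧
      g.natDegree ≤ 2 * n ∧ xp 2 (fu f K) g ∈ I := by
  haveI := dom (W := K) hg
  have hgK := gup (W := K) hg
  obtain ⟨I, hI, hID⟩ := exists_cl hyps hg D
  obtain ⟨g₀, hm₀, hg₀⟩ := nmi hgK I hI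
  have hnK : (fu f K).natDegree = 2 * n + 1 := by rw [natDegree_map]; exact hn
  obtain ⟨α, β, h1, h2, h3⟩ := exists_small hgK hI hm₀ hg₀ hnK
  obtain ⟨J, hJ⟩ := Ideal.dvd_iff_le.2 ((Ideal.span_singleton_le_iff_mem I).2 h1)
  have hne : fn (fu f K) α β ≠ 0 := by
    intro h
    have h4 := fn_mul_cj (f := fu f K) α β
    rw [h, zero_mul] at h4
    exact h2 (xp_inj two_ne_zero (h4.symm.trans xp_zero.symm))
  have hJ0 : J ≠ ⊥ := by
    rintro rfl
    rw [Ideal.mul_bot, Ideal.span_singleton_eq_bot] at hJ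
    exact hne hJ
  obtain ⟨g, hm, hg1⟩ := nmi hgK J hJ0
  have hJ'0 : J.map hgK.tw ≠ ⊥ := by
    intro h0
    rw [h0, Ideal.mul_bot] at hg1
    exact xp_ne hgK hm.ne_zero (Ideal.span_singleton_eq_bot.1 hg1.symm)
  have hc1 : cl hg I + cl hg J = 0 := by
    rw [← cl_mul' hg hI hJ0, ← hJ]
    exact cl_span hg hne
  have hc2 : cl hg J + cl hg (J.map hgK.tw) = 0 := by
    rw [← cl_mul' hg hJ0 hJ'0, hg1]
    exact cl_span hg (xp_ne hgK hm.ne_zero)
  have hc3 : cl hg (J.map hgK.tw) = D := by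
    rw [← cl_eq hg hID]
    have h5 : cl hg (J.map hgK.tw) = -cl hg J := (neg_eq_of_add_eq_zero_right hc2).symm
    rw [h5]
    exact (eq_neg_of_add_eq_zero_left hc1).symm
  refine ⟨J.map hgK.tw, g, hJ'0, hc3 ▸ is_cl hg hJ'0, hm, ?_, ?_⟩
  · -- the degree
    have h6 : Ideal.span {xp 2 (fu f K) (α ^ 2 - β ^ 2 * fu f K)} =
        Ideal.span {xp 2 (fu f K) (g₀ * g)} := by
      rw [← fn_mul_cj, ← Ideal.span_singleton_mul_span_singleton, xp_mul,
        ← Ideal.span_singleton_mul_span_singleton, ← hg₀, ← hg1]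
      have h7 : Ideal.span {fn (fu f K) α (-β)} = I.map hgK.tw * J.map hgK.tw := by
        rw [← Ideal.map_mul, ← hJ, Ideal.map_span, Set.image_singleton, fn_cj hgK]
      rw [h7, hJ]
      ring
    have h8 := span_xp hgK h6
    have h9 := natDegree_eq_of_degree_eq (degree_eq_degree_of_associated h8)
    rw [hm₀.natDegree_mul hm] at h9
    omega
  · have h10 : xp 2 (fu f K) g ∈ J * J.map hgK.tw := by
      rw [hg1]
      exact Ideal.mem_span_singleton_self _
    exact Ideal.mul_le_right h10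

omit [Algebra K₀ K] in
theorem dvP_natDegree (S : Multiset (W × W)) : (dvP S).natDegree = S.card := by
  unfold dvP
  have : (S.map fun P => (X - C P.1 : Polynomial W)) = (S.map Prod.fst).map fun a => X - C a := by
    rw [Multiset.map_map]
    rfl
  rw [this, natDegree_multiset_prod_X_sub_C_eq_card, Multiset.card_map]

/-- representatives of bounded degree -/
theorem rep_dv [IsAlgClosed W] {n : ℕ} (hn : f.natDegree = 2 * n + 1) (φ : K →ₐ[K₀] W)
    (D : Jac 2 f K) : ∃ (S : Multiset (W × W)) (g : K[X]), g.Monic ∧ g.natDegree ≤ 2 * n ∧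
      S.card ≤ 4 * n ∧ (∀ P ∈ S, On (fu f W) P ∧ (g.map (φ : K →+* W)).eval P.1 = 0) ∧
      jm 2 f φ D = dc hg S := by
  haveI := dom (W := W) hg
  have hgW := gup (W := W) hg
  obtain ⟨I, g, hI, hID, hm, hgn, hgI⟩ := rep_ideal hg hn D
  have h1 := cl_map hyps hg hID φ
  have hIW : I.map (cm 2 f φ) ≠ ⊥ := h1.ne
  obtain ⟨S, hS, hSI⟩ := exists_dv hgW (by
    have : (fu f W).natDegree = 2 * n + 1 := by rw [natDegree_map]; exact hn
    rw [this]
    omega) _ hIW
  have hgI' : xp 2 (fu f W) (g.map (φ : K →+* W)) ∈ dvI 2 (fu f W) S := by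
    rw [← hSI]
    have h2 := Ideal.mem_map_of_mem (cm 2 f φ) hgI
    unfold cm at h2
    rw [crMap_xp] at h2
    exact h2
  have hmW : (g.map (φ : K →+* W)).Monic := hm.map _
  have hd1 : dvI 2 (fu f W) S ∣ Ideal.span {xp 2 (fu f W) (g.map (φ : K →+* W))} := by
    rw [Ideal.dvd_iff_le, Ideal.span_singleton_le_iff_mem]
    exact hgI'
  have hd2 : dvI 2 (fu f W) (S.map cj) ∣ Ideal.span {xp 2 (fu f W) (g.map (φ : K →+* W))} := by
    rw [Ideal.dvd_iff_le, Ideal.span_singleton_le_iff_mem, ← dv_map hgW]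
    have h2 := Ideal.mem_map_of_mem hgW.tw hgI'
    rwa [tw_xp] at h2
  have hd3 : dvP S ∣ (g.map (φ : K →+* W)) ^ 2 := by
    have h3 := mul_dvd_mul hd1 hd2
    rw [dv_mul_cj hgW hS, Ideal.span_singleton_mul_span_singleton, ← xp_mul, ← pow_two,
      Ideal.dvd_iff_le, Ideal.span_singleton_le_span_singleton] at h3
    exact xp_dvd hgW h3
  refine ⟨S, g, hm, hgn, ?_, fun P hP => ⟨hS P hP, ?_⟩, ?_⟩
  · have h4 := natDegree_le_of_dvd hd3 (pow_ne_zero 2 hmW.ne_zero)
    rw [dvP_natDegree hg, natDegree_pow, hm.natDegree_map] at h4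
    omega
  · have h5 : (dvP S).eval P.1 = 0 := by
      unfold dvP
      rw [eval_multiset_prod, Multiset.map_map]
      apply Multiset.prod_eq_zero
      rw [Multiset.mem_map]
      exact ⟨P, hP, by rw [Function.comp_apply, eval_sub, eval_X, eval_C, sub_self]⟩
    obtain ⟨r, hr⟩ := hd3
    have h6 := congrArg (Polynomial.eval P.1) hr
    rw [eval_pow, eval_mul, h5, zero_mul] at h6
    exact pow_eq_zero_iff two_ne_zero |>.1 h6
  · unfold dc
    rw [← hSI]
    exact (cl_eq hg h1).symm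

end rep

end Pool.Agent.Helper29J
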