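import Pool.Agent.Helper29J.Grp

/-!
# Small elements of ideals
-/

set_option autoImplicit false
set_option linter.all false

open Polynomial IsDedekindDomain
open scoped nonZeroDivisors

namespace Pool.Agent.Helper29J

open Pool.Agent.Y160.SE

section E

variable {E : Type} [Field E] {f : E[X]} (hg : Good 2 (-1 : E) f)

include hg

theorem tw_comp : hg.tw.comp hg.tw = RingHom.id _ := by
  apply cr_hom_ext
  · intro c
    simp
  · simp
  · simp only [RingHom.comp_apply, tw_yy, map_mul, tw_xp, RingHom.id_apply]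
    rw [← mul_assoc, ← xp_mul, ← C_mul, neg_mul_neg, one_mul, C_1, xp_one, one_mul]

theorem tw_tw' (z : CR 2 f) : hg.tw (hg.tw z) = z :=
  congrArg (fun φ : CR 2 f →+* CR 2 f => φ z) (tw_comp hg)

theorem map_map_tw (I : Ideal (CR 2 f)) : (I.map hg.tw).map hg.tw = I := by
  rw [Ideal.map_map, tw_comp, Ideal.map_id]

theorem mem_map_tw {I : Ideal (CR 2 f)} {z : CR 2 f} (h : z ∈ I.map hg.tw) : hg.tw z ∈ I := by
  have h1 := Ideal.mem_map_of_mem hg.tw h
  rwa [map_map_tw] at h1

theorem nmi (I : Ideal (CR 2 f)) (hI : I ≠ ⊥) :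
    ∃ g : E[X], g.Monic ∧ I * I.map hg.tw = Ideal.span {xp 2 f g} := by
  obtain ⟨g, h1, h2⟩ := (hyps.nmi 2 E (-1) f hg I hI).1
  refine ⟨g, h1, ?_⟩
  rw [Finset.prod_range_succ, Finset.prod_range_one, pow_zero, pow_one] at h2
  have : I.map (1 : CR 2 f →+* CR 2 f) = I := Ideal.map_id I
  rw [this] at h2
  exact h2

theorem norm_fn (α β : E[X]) : Algebra.norm E[X] (fn f α β) = α ^ 2 - β ^ 2 * f := by
  have h3 := (hyps.norm 2 E (-1) f hg).1 (fn f α β)
  rw [Finset.prod_range_succ, Finset.prod_range_one, pow_zero, pow_one] at h3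
  apply xp_inj (f := f) two_ne_zero
  rw [h3, fn_cj hg, ← fn_mul_cj]
  rfl

theorem xp_ne {g : E[X]} (h : g ≠ 0) : xp 2 f g ≠ 0 := fun h' =>
  h (xp_inj two_ne_zero (h'.trans xp_zero.symm))

theorem xp_fn (g : E[X]) : xp 2 f g = fn f g 0 := by
  unfold fn
  rw [xp_zero, zero_mul, add_zero]

/-- the quotient by a polynomial in `x` -/
theorem fr_quot {g : E[X]} (hm : g.Monic) :
    Module.finrank E (CR 2 f ⧸ Ideal.span {xp 2 f g}) = 2 * g.natDegree := by
  haveI := hyps.ring 2 E _ _ hg
  have hmon : (X ^ 2 - C f : E[X][X]).Monic := monic_cr two_ne_zero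
  have h1 := finrank_quotient_span_eq_natDegree_norm (F := E)
    (AdjoinRoot.powerBasis' hmon).basis (xp_ne hg hm.ne_zero)
  rw [h1, xp_fn hg, norm_fn hg, pow_two 0, zero_mul, zero_mul, sub_zero, natDegree_pow]

/-- the quotient by a polynomial in `x` is finite dimensional -/
theorem fin_quot {g : E[X]} (hm : g.Monic) :
    Module.Finite E (CR 2 f ⧸ Ideal.span {xp 2 f g}) := by
  -- spanned by the `α + β y`, `deg α`, `deg β` < `deg g`
  let Φ : (degreeLT E g.natDegree × degreeLT E g.natDegree) →ₗ[E]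
      (CR 2 f ⧸ Ideal.span {xp 2 f g}) :=
    { toFun := fun p => Ideal.Quotient.mk _ (fn f p.1 p.2)
      map_add' := by
        intro p q
        rw [← map_add]
        congr 1
        unfold fn
        simp only [Prod.fst_add, Prod.snd_add, Submodule.coe_add, xp_add]
        ring
      map_smul' := by
        intro c p
        have e : ∀ q : E[X], xp 2 f (c • q) = c • xp 2 f q := by
          intro q
          rw [Polynomial.smul_eq_C_mul, xp_mul, Algebra.smul_def]
          rfl
        rw [RingHom.id_apply]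
        show _ = Ideal.Quotient.mk _ (c • fn f p.1 p.2)
        congr 1
        unfold fn
        simp only [Prod.smul_fst, Prod.smul_snd, Submodule.coe_smul, e]
        rw [smul_add, smul_mul_assoc] }
  have hs : Function.Surjective Φ := by
    intro z
    obtain ⟨z, rfl⟩ := Ideal.Quotient.mk_surjective z
    obtain ⟨α, β, rfl⟩ := exists_fn hg z
    refine ⟨(⟨α %ₘ g, ?_⟩, ⟨β %ₘ g, ?_⟩), ?_⟩
    · rw [mem_degreeLT, ← degree_eq_natDegree hm.ne_zero]
      exact degree_modByMonic_lt _ hm
    · rw [mem_degreeLT, ← degree_eq_natDegree hm.ne_zero]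
      exact degree_modByMonic_lt _ hm
    · show Ideal.Quotient.mk _ (fn f (α %ₘ g) (β %ₘ g)) = _
      rw [Ideal.Quotient.eq]
      have hα := modByMonic_add_div α g
      have hβ := modByMonic_add_div β g
      have e : fn f (α %ₘ g) (β %ₘ g) - fn f α β =
          xp 2 f g * -(xp 2 f (α /ₘ g) + xp 2 f (β /ₘ g) * yy 2 f) := by
        have e1 : xp 2 f α = xp 2 f (α %ₘ g) + xp 2 f g * xp 2 f (α /ₘ g) := by
          rw [← xp_mul, ← xp_add, hα]
        have e2 : xp 2 f β = xp 2 f (β %ₘ g) + xp 2 f g * xp 2 f (β /ₘ g) := by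
          rw [← xp_mul, ← xp_add, hβ]
        unfold fn
        rw [e1, e2]
        ring
      rw [e]
      exact Ideal.mul_mem_right _ _ (Ideal.mem_span_singleton_self _)
  exact Module.Finite.of_surjective Φ hs

/-- the dimensions of the quotients -/
theorem fr_le {I : Ideal (CR 2 f)} (hI : I ≠ ⊥) {g : E[X]} (hm : g.Monic)
    (h : I * I.map hg.tw = Ideal.span {xp 2 f g}) :
    Module.Finite E (CR 2 f ⧸ I) ∧
    Module.finrank E (CR 2 f ⧸ I) + Module.finrank E (CR 2 f ⧸ I.map hg.tw) ≤ 2 * g.natDegree := by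
  haveI := hyps.ring 2 E _ _ hg
  haveI := fin_quot hg hm
  set J := I.map hg.tw with hJ
  have hJ0 : J ≠ ⊥ := by
    intro h0
    rw [h0, Ideal.mul_bot] at h
    exact xp_ne hg hm.ne_zero (Ideal.span_singleton_eq_bot.1 h.symm)
  have hle : Ideal.span {xp 2 f g} ≤ I := by
    rw [← h]
    exact Ideal.mul_le_left
  -- the projection
  let π : (CR 2 f ⧸ Ideal.span {xp 2 f g}) →ₗ[E] (CR 2 f ⧸ I) :=
    (Ideal.Quotient.factorₐ E hle).toLinearMap
  have hπ : Function.Surjective π := Ideal.Quotient.factor_surjective hle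
  haveI hfin : Module.Finite E (CR 2 f ⧸ I) := Module.Finite.of_surjective π hπ
  refine ⟨hfin, ?_⟩
  -- a generator
  obtain ⟨w, hw⟩ := IsDedekindDomain.exists_sup_span_eq (I := I * J) (J := I) Ideal.mul_le_left
    (by
      rw [h]
      intro h0
      exact xp_ne hg hm.ne_zero (Ideal.span_singleton_eq_bot.1 h0))
  have hwI : w ∈ I := by
    rw [← hw]
    exact Ideal.mem_sup_right (Ideal.mem_span_singleton_self w)
  obtain ⟨V, hV⟩ := Ideal.dvd_iff_le.2 ((Ideal.span_singleton_le_iff_mem I).2 hwI)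
  have hJV : J ⊔ V = ⊤ := by
    have h3 : I * (J ⊔ V) = I * ⊤ := by
      rw [Ideal.mul_sup, ← hV, hw, Ideal.mul_top]
    exact mul_left_cancel₀ (by exact hI) h3
  let θ : CR 2 f →ₗ[E] (CR 2 f ⧸ Ideal.span {xp 2 f g}) :=
    (Ideal.Quotient.mkₐ E (Ideal.span {xp 2 f g})).toLinearMap.comp (LinearMap.mulRight E w)
  have hθ : ∀ r, θ r = 0 ↔ r ∈ J := by
    intro r
    have e : θ r = Ideal.Quotient.mk (Ideal.span {xp 2 f g}) (r * w) := rfl
    rw [e, Ideal.Quotient.eq_zero_iff_mem, ← h]
    constructor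
    · intro h3
      have h4 : Ideal.span {r} * V ≤ J := by
        have h5 : I * (Ideal.span {r} * V) ≤ I * J := by
          rw [mul_left_comm, ← hV, Ideal.span_singleton_mul_span_singleton,
            Ideal.span_singleton_le_iff_mem]
          exact h3
        rw [← Ideal.dvd_iff_le] at h5 ⊢
        exact (mul_dvd_mul_iff_left (by exact hI)).1 h5
      have h1 : (1 : CR 2 f) ∈ J ⊔ V := by
        rw [hJV]
        exact Submodule.mem_top
      obtain ⟨j, hj, v, hv, hjv⟩ := Submodule.mem_sup.1 h1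
      have e2 : r = r * j + r * v := by rw [← mul_add, hjv, mul_one]
      rw [e2]
      exact Ideal.add_mem _ (Ideal.mul_mem_left _ _ hj)
        (h4 (Ideal.mul_mem_mul (Ideal.mem_span_singleton_self r) hv))
    · intro h3
      rw [mul_comm r w]
      exact Ideal.mul_mem_mul hwI h3
  let θ' : (CR 2 f ⧸ J) →ₗ[E] (CR 2 f ⧸ Ideal.span {xp 2 f g}) :=
    (Submodule.liftQ (J.restrictScalars E) θ (fun r hr => (hθ r).2 hr)).comp
      (Submodule.Quotient.restrictScalarsEquiv E J).symm.toLinearMap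
  have hθ' : ∀ r, θ' (Ideal.Quotient.mk J r) = θ r := by
    intro r
    rfl
  have hinj : Function.Injective θ' := by
    rw [injective_iff_map_eq_zero]
    intro z hz
    obtain ⟨r, rfl⟩ := Ideal.Quotient.mk_surjective z
    rw [hθ'] at hz
    exact Ideal.Quotient.eq_zero_iff_mem.2 ((hθ r).1 hz)
  have hker : ∀ z, θ' z ∈ LinearMap.ker π := by
    intro z
    obtain ⟨r, rfl⟩ := Ideal.Quotient.mk_surjective z
    rw [hθ', LinearMap.mem_ker]
    show Ideal.Quotient.mk I (r * w) = 0
    rw [Ideal.Quotient.eq_zero_iff_mem]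
    exact Ideal.mul_mem_left _ _ hwI
  have h6 : Module.finrank E (CR 2 f ⧸ J) ≤ Module.finrank E (LinearMap.ker π) := by
    refine LinearMap.finrank_le_finrank_of_injective (f := θ'.codRestrict (LinearMap.ker π) hker) ?_
    intro a b hab
    exact hinj (congrArg Subtype.val hab)
  have h7 := LinearMap.finrank_range_add_finrank_ker π
  rw [LinearMap.range_eq_top.2 hπ, finrank_top, fr_quot hg hm] at h7
  omega

/-- small elements -/
theorem exists_small {I : Ideal (CR 2 f)} (hI : I ≠ ⊥) {g : E[X]} (hm : g.Monic)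
    (h : I * I.map hg.tw = Ideal.span {xp 2 f g}) {n : ℕ} (hn : f.natDegree = 2 * n + 1) :
    ∃ α β : E[X], fn f α β ∈ I ∧ α ^ 2 - β ^ 2 * f ≠ 0 ∧
      (α ^ 2 - β ^ 2 * f).natDegree ≤ g.natDegree + 2 * n := by
  haveI := hyps.ring 2 E _ _ hg
  -- one of the two ideals
  have key : ∀ J : Ideal (CR 2 f), Module.Finite E (CR 2 f ⧸ J) →
      Module.finrank E (CR 2 f ⧸ J) ≤ g.natDegree →
      ∃ α β : E[X], fn f α β ∈ J ∧ α ^ 2 - β ^ 2 * f ≠ 0 ∧
      (α ^ 2 - β ^ 2 * f).natDegree ≤ g.natDegree + 2 * n := by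
    intro J hJ hle
    set d := g.natDegree with hd
    let Φ : (degreeLT E (d / 2 + 1) × degreeLT E (d - d / 2)) →ₗ[E] (CR 2 f ⧸ J) :=
      { toFun := fun p => Ideal.Quotient.mk _ (fn f p.1 p.2)
        map_add' := by
          intro p q
          rw [← map_add]
          congr 1
          unfold fn
          simp only [Prod.fst_add, Prod.snd_add, Submodule.coe_add, xp_add]
          ring
        map_smul' := by
          intro c p
          have e : ∀ q : E[X], xp 2 f (c • q) = c • xp 2 f q := by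
            intro q
            rw [Polynomial.smul_eq_C_mul, xp_mul, Algebra.smul_def]
            rfl
          rw [RingHom.id_apply]
          show _ = Ideal.Quotient.mk _ (c • fn f p.1 p.2)
          congr 1
          unfold fn
          simp only [Prod.smul_fst, Prod.smul_snd, Submodule.coe_smul, e]
          rw [smul_add, smul_mul_assoc] }
    have hdim : ∀ k : ℕ, Module.finrank E (degreeLT E k) = k := by
      intro k
      rw [LinearEquiv.finrank_eq (degreeLTEquiv E k), Module.finrank_fin_fun]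
    haveI : ∀ k : ℕ, Module.Finite E (degreeLT E k) := fun k =>
      Module.Finite.equiv (degreeLTEquiv E k).symm
    have hker : LinearMap.ker Φ ≠ ⊥ := by
      apply LinearMap.ker_ne_bot_of_finrank_lt
      rw [Module.finrank_prod, hdim, hdim]
      omega
    obtain ⟨⟨⟨α, hα⟩, ⟨β, hβ⟩⟩, hp, hp0⟩ := Submodule.exists_mem_ne_zero_of_ne_bot hker
    rw [LinearMap.mem_ker] at hp
    have hp' : Ideal.Quotient.mk J (fn f α β) = 0 := hp
    rw [Ideal.Quotient.eq_zero_iff_mem] at hp'
    rw [mem_degreeLT] at hα hβ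
    have hne : α ≠ 0 ∨ β ≠ 0 := by
      by_contra hcon
      push Not at hcon
      obtain ⟨rfl, rfl⟩ := hcon
      exact hp0 rfl
    have hf0 : f ≠ 0 := hg.monic.ne_zero
    have hα2 : (α ^ 2).natDegree ≤ d + 2 * n ∧ (α ≠ 0 → Even (α ^ 2).natDegree) := by
      rw [natDegree_pow]
      refine ⟨?_, fun _ => even_two_mul _⟩
      by_cases h0 : α = 0
      · rw [h0, natDegree_zero]
        omega
      · rw [degree_eq_natDegree h0] at hα
        have : α.natDegree < d / 2 + 1 := by exact_mod_cast hα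
        omega
    have hβ2 : (β ^ 2 * f).natDegree ≤ d + 2 * n ∧ (β ≠ 0 → Odd (β ^ 2 * f).natDegree) := by
      by_cases h0 : β = 0
      · rw [h0]
        simp
      · rw [natDegree_mul (pow_ne_zero 2 h0) hf0, natDegree_pow, hn]
        rw [degree_eq_natDegree h0] at hβ
        have : β.natDegree < d - d / 2 := by exact_mod_cast hβ
        refine ⟨by omega, fun _ => ?_⟩
        rw [Nat.odd_iff]
        omega
    refine ⟨α, β, hp', ?_, ?_⟩
    · intro h0
      have h1 : α ^ 2 = β ^ 2 * f := sub_eq_zero.1 h0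
      by_cases hβ0 : β = 0
      · rw [hβ0] at h1
        have : α ^ 2 = 0 := by rw [h1]; ring
        rcases hne with h | h
        · exact h (pow_eq_zero_iff two_ne_zero |>.1 this)
        · exact h hβ0
      · have h3 := hβ2.2 hβ0
        have hα0 : α ≠ 0 := by
          intro hα0
          rw [hα0, zero_pow two_ne_zero] at h1
          exact mul_ne_zero (pow_ne_zero 2 hβ0) hf0 h1.symm
        have h4 := hα2.2 hα0
        rw [h1] at h4
        exact (Nat.not_even_iff_odd.2 h3) h4
    · exact (natDegree_sub_le _ _).trans (max_le hα2.1 hβ2.1)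
  obtain ⟨hfin, hsum⟩ := fr_le hg hI hm h
  have hJ0 : I.map hg.tw ≠ ⊥ := by
    intro h0
    rw [h0, Ideal.mul_bot] at h
    exact xp_ne hg hm.ne_zero (Ideal.span_singleton_eq_bot.1 h.symm)
  rcases Nat.lt_or_ge g.natDegree (Module.finrank E (CR 2 f ⧸ I)) with h1 | h1
  · have h2 : Module.Finite E (CR 2 f ⧸ I.map hg.tw) := by
      refine (fr_le hg hJ0 hm ?_).1
      rw [map_map_tw hg, mul_comm, h]
    obtain ⟨α, β, h3, h4, h5⟩ := key _ h2 (by omega)
    refine ⟨α, -β, ?_, ?_, ?_⟩
    · have := mem_map_tw hg h3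
      rwa [fn_cj hg] at this
    · rwa [neg_sq]
    · rwa [neg_sq]
  · exact key I hfin h1

end E

end Pool.Agent.Helper29J
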